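import Pool.Agent.Helper33.KD4.Bump2

/-! KD project (MP_019250_an), Part IV: the jump lemma and the survival lemma. -/

namespace KD.IV

open MeasureTheory Set Filter Topology

variable {d : ℕ}

theorem sd_affine (k b : ℝ) (g : Vd d → ℝ) (v u : Vd d) :
    sd (fun v => k * g v - b) v u = k * sd g v u := by
  simp only [sd]; ring

theorem LL_affine (s : ℝ) (a0 : Vd d → ℝ) (k b : ℝ) (g : Vd d → ℝ) (v : Vd d) :
    LL s a0 (fun v => k * g v - b) v = k * LL s a0 g v := by
  rw [LL_eq, LL_eq]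
  have : (fun w => sd (fun v => k * g v - b) v w * a0 w * kr s w) =
      fun w => k * (sd g v w * a0 w * kr s w) := by
    funext w
    rw [sd_affine]; ring
  rw [this, integral_const_mul]
  ring

theorem nq_hasFDerivAt (c x : Vd d) : ∃ L : Vd d →L[ℝ] ℝ,
    HasFDerivAt (fun x => nq (x - c)) L x ∧ ∀ v, L v = 2 * ip (x - c) v := by
  refine ⟨∑ i, (2 * (x i - c i)) • (ContinuousLinearMap.proj i : Vd d →L[ℝ] ℝ), ?_, ?_⟩
  · have h : ∀ i ∈ (Finset.univ : Finset (Fin d)), HasFDerivAt (fun x : Vd d => ((x - c) i) ^ 2)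
        ((2 * (x i - c i)) • (ContinuousLinearMap.proj i : Vd d →L[ℝ] ℝ)) x := by
      intro i _
      have h1 : HasFDerivAt (fun x : Vd d => x i - c i)
          (ContinuousLinearMap.proj i : Vd d →L[ℝ] ℝ) x :=
        ((ContinuousLinearMap.proj i : Vd d →L[ℝ] ℝ).hasFDerivAt).sub_const (c i)
      have h2 := h1.pow 2
      have e : (2 : ℕ) • (x i - c i) ^ (2 - 1) = 2 * (x i - c i) := by
        rw [nsmul_eq_mul]; norm_num
      rw [e] at h2
      exact h2
    have h3 := HasFDerivAt.fun_sum h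
    exact h3
  · intro v
    simp only [ContinuousLinearMap.sum_apply, ContinuousLinearMap.smul_apply,
      ContinuousLinearMap.proj_apply, smul_eq_mul, ip, Finset.mul_sum, Pi.sub_apply]
    refine Finset.sum_congr rfl fun i _ => by ring

theorem nq_hasDerivAt (x x0 w : Vd d) (t0 t : ℝ) :
    HasDerivAt (fun t => nq (x - (x0 + (t - t0) • w))) (-2 * ip (x - (x0 + (t - t0) • w)) w) t := by
  have h : ∀ i ∈ (Finset.univ : Finset (Fin d)),
      HasDerivAt (fun t : ℝ => ((x - (x0 + (t - t0) • w)) i) ^ 2)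
        (2 * (x i - (x0 i + (t - t0) * w i)) * (-w i)) t := by
    intro i _
    have h1 : HasDerivAt (fun t : ℝ => x i - (x0 i + (t - t0) * w i)) (-w i) t := by
      have h2 : HasDerivAt (fun t : ℝ => (t - t0) * w i) (1 * w i) t :=
        ((hasDerivAt_id t).sub_const t0).mul_const (w i)
      have h3 := (h2.const_add (x0 i)).const_sub (x i)
      simpa using h3
    have h2 := h1.pow 2
    simp only [Nat.cast_ofNat, Nat.add_one_sub_one, pow_one] at h2
    exact h2
  have h3 := HasDerivAt.fun_sum h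
  have h4 : ∑ i, 2 * (x i - (x0 i + (t - t0) * w i)) * (-w i) =
      -2 * ip (x - (x0 + (t - t0) • w)) w := by
    simp only [ip, Finset.mul_sum, Pi.sub_apply, Pi.add_apply, Pi.smul_apply, smul_eq_mul]
    refine Finset.sum_congr rfl fun i _ => by ring
  rw [h4] at h3
  exact h3

theorem ip_sub (y v w : Vd d) : ip y (v - w) = ip y v - ip y w := by
  simp only [ip, ← Finset.sum_sub_distrib, Pi.sub_apply]
  exact Finset.sum_congr rfl fun i _ => by ring

/-- derivatives of the barrier -/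
theorem bar_deriv {A B R : ℝ → ℝ} {A' B' R' t : ℝ} (hA : HasDerivAt A A' t) (hB : HasDerivAt B B' t)
    (hR : HasDerivAt R R' t) (hR0 : R t ≠ 0) (g : ℝ) (t0 : ℝ) (x x0 w v : Vd d) :
    ∃ (ψt : ℝ) (ψx : Vd d →L[ℝ] ℝ),
      HasDerivAt (fun t => A t * PP (1 - nq (x - (x0 + (t - t0) • w)) / R t ^ 2) * g - B t) ψt t ∧
      HasFDerivAt (fun x => A t * PP (1 - nq (x - (x0 + (t - t0) • w)) / R t ^ 2) * g - B t) ψx x ∧
      ψt + ψx v = A' * PP (1 - nq (x - (x0 + (t - t0) • w)) / R t ^ 2) * g +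
        A t * (2 * max 0 (1 - nq (x - (x0 + (t - t0) • w)) / R t ^ 2) *
          (-2 * ip (x - (x0 + (t - t0) • w)) (v - w) / R t ^ 2 +
            2 * nq (x - (x0 + (t - t0) • w)) * R' / R t ^ 3)) * g - B' := by
  set y : Vd d := x - (x0 + (t - t0) • w) with hy
  obtain ⟨L, hL, hLv⟩ := nq_hasFDerivAt (x0 + (t - t0) • w) x
  have hn := nq_hasDerivAt x x0 w t0 t
  have hG : HasDerivAt (fun t => 1 - nq (x - (x0 + (t - t0) • w)) / R t ^ 2)
      (-((-2 * ip y w * R t ^ 2 - nq y * (2 * R t * R')) / (R t ^ 2) ^ 2)) t := by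
    have h := (hn.div (hR.pow 2) (pow_ne_zero 2 hR0)).const_sub 1
    refine h.congr_deriv ?_
    simp [hy]
  have hPG : HasDerivAt (fun t => PP (1 - nq (x - (x0 + (t - t0) • w)) / R t ^ 2))
      (2 * max 0 (1 - nq y / R t ^ 2) *
        -((-2 * ip y w * R t ^ 2 - nq y * (2 * R t * R')) / (R t ^ 2) ^ 2)) t := by
    have h0 := PP_hasDerivAt (1 - nq (x - (x0 + (t - t0) • w)) / R t ^ 2)
    have h := HasDerivAt.comp (h₂ := PP) (h := fun t => 1 - nq (x - (x0 + (t - t0) • w)) / R t ^ 2)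
      t h0 hG
    exact h
  have h1 := ((hA.fun_mul hPG).mul_const g).fun_sub hB
  have hGx : HasFDerivAt (fun x => 1 - nq (x - (x0 + (t - t0) • w)) / R t ^ 2)
      (-((R t ^ 2)⁻¹ • L)) x := by
    have h := (hL.mul_const ((R t ^ 2)⁻¹)).const_sub 1
    simpa only [div_eq_mul_inv] using h
  have hPGx : HasFDerivAt (fun x => PP (1 - nq (x - (x0 + (t - t0) • w)) / R t ^ 2))
      ((2 * max 0 (1 - nq y / R t ^ 2)) • (-((R t ^ 2)⁻¹ • L))) x := by
    have h0 := PP_hasDerivAt (1 - nq (x - (x0 + (t - t0) • w)) / R t ^ 2)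
    have h := HasDerivAt.comp_hasFDerivAt (h₂ := PP)
      (f := fun x => 1 - nq (x - (x0 + (t - t0) • w)) / R t ^ 2) x h0 hGx
    exact h
  have h2 := ((hPGx.const_mul (A t)).mul_const g).sub_const (B t)
  refine ⟨_, _, h1, h2, ?_⟩
  have e1 : (g • A t • (2 * max 0 (1 - nq y / R t ^ 2)) • (-((R t ^ 2)⁻¹ • L))) v =
      g * (A t * ((2 * max 0 (1 - nq y / R t ^ 2)) * (-((R t ^ 2)⁻¹ * (2 * ip y v))))) := by
    rw [← hLv v]
    rfl
  rw [e1, ← hy, ip_sub]
  field_simp
  ring

theorem tube_compact (t0 t1 R0 ρ r : ℝ) (x0 w : Vd d) :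
    IsCompact {p : ℝ × Vd d × Vd d | (t0 ≤ p.1 ∧ p.1 ≤ t1) ∧
      nq (p.2.1 - (x0 + (p.1 - t0) • w)) ≤ (R0 - ρ * (p.1 - t0)) ^ 2 ∧ nq (p.2.2 - w) ≤ r ^ 2} := by
  set U : Set (ℝ × Vd d × Vd d) := {p : ℝ × Vd d × Vd d | (t0 ≤ p.1 ∧ p.1 ≤ t1) ∧
      nq (p.2.1 - (x0 + (p.1 - t0) • w)) ≤ (R0 - ρ * (p.1 - t0)) ^ 2 ∧ nq (p.2.2 - w) ≤ r ^ 2} with hU
  have hclosed : IsClosed U := by
    have hq := nq_continuous (d := d)
    have h1 : IsClosed {p : ℝ × Vd d × Vd d | t0 ≤ p.1 ∧ p.1 ≤ t1} :=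
      (isClosed_le continuous_const continuous_fst).inter
        (isClosed_le continuous_fst continuous_const)
    have h2 : IsClosed {p : ℝ × Vd d × Vd d |
        nq (p.2.1 - (x0 + (p.1 - t0) • w)) ≤ (R0 - ρ * (p.1 - t0)) ^ 2} :=
      isClosed_le (by fun_prop) (by fun_prop)
    have h3 : IsClosed {p : ℝ × Vd d × Vd d | nq (p.2.2 - w) ≤ r ^ 2} :=
      isClosed_le (by fun_prop) (by fun_prop)
    exact h1.inter (h2.inter h3)
  set M : ℝ := |R0| + |ρ| * |t1 - t0| with hM
  have hM0 : 0 ≤ M := by positivity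
  have hsub : U ⊆ Icc t0 t1 ×ˢ (Metric.closedBall 0 (‖x0‖ + |t1 - t0| * ‖w‖ + M) ×ˢ
      Metric.closedBall 0 (‖w‖ + |r|)) := by
    rintro ⟨t, x, v⟩ ⟨⟨h0, h1⟩, h2, h3⟩
    simp only at h0 h1 h2 h3
    have ht : |t - t0| ≤ |t1 - t0| := by
      rw [abs_of_nonneg (by linarith), abs_of_nonneg (by linarith)]
      linarith
    refine ⟨⟨h0, h1⟩, ?_, ?_⟩
    · rw [Metric.mem_closedBall, dist_zero_right]
      have h4 : ‖x - (x0 + (t - t0) • w)‖ ≤ |R0 - ρ * (t - t0)| := by
        refine norm_le_of_nq (abs_nonneg _) ?_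
        rw [sq_abs]; exact h2
      have h5 : |R0 - ρ * (t - t0)| ≤ M := by
        refine (abs_sub _ _).trans ?_
        rw [abs_mul]
        have : |ρ| * |t - t0| ≤ |ρ| * |t1 - t0| := by gcongr
        linarith
      have h6 : ‖x‖ ≤ ‖x - (x0 + (t - t0) • w)‖ + ‖x0 + (t - t0) • w‖ := by
        have := norm_add_le (x - (x0 + (t - t0) • w)) (x0 + (t - t0) • w)
        simpa using this
      have h7 : ‖x0 + (t - t0) • w‖ ≤ ‖x0‖ + |t1 - t0| * ‖w‖ := by
        refine (norm_add_le _ _).trans ?_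
        rw [norm_smul, Real.norm_eq_abs]
        gcongr
      linarith
    · rw [Metric.mem_closedBall, dist_zero_right]
      have h4 : ‖v - w‖ ≤ |r| := by
        refine norm_le_of_nq (abs_nonneg _) ?_
        rw [sq_abs]; exact h3
      have h6 : ‖v‖ ≤ ‖v - w‖ + ‖w‖ := by
        have := norm_add_le (v - w) w
        simpa using this
      linarith
  refine IsCompact.of_isClosed_subset ?_ hclosed hsub
  exact isCompact_Icc.prod ((isCompact_closedBall _ _).prod (isCompact_closedBall _ _))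

/-- **Jump lemma.** -/
theorem jump (hd : 1 ≤ d) {s lam Lam : ℝ} (hs : 0 < s) (hs1 : s < 1) (hlam : 0 < lam)
    (hLam : lam ≤ Lam) {R r r1 Tm Vm : ℝ} (hR : 0 < R) (hr : 0 < r) (hr1 : 0 < r1) (hTm : 0 < Tm)
    (hVm : 0 ≤ Vm) :
    ∃ c > 0, ∃ η1 > 0, ∀ (M0 η : ℝ) (a : ℝ → Vd d → Vd d → Vd d → ℝ) (f : ℝ → Vd d → Vd d → ℝ)
      (D : Set (ℝ × Vd d × Vd d)), Kern lam Lam M0 a → Super s η a f D → η ≤ η1 →
      (∀ t x v, 0 ≤ f t x v) → ∀ (t0 t1 : ℝ) (x0 w v1 : Vd d), t1 - t0 ≤ Tm → ‖v1 - w‖ ≤ Vm →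
      (∀ t x v, t0 ≤ t → t ≤ t1 → nq (x - (x0 + (t - t0) • w)) ≤ R ^ 2 → nq (v - w) ≤ r ^ 2 →
        (t, x, v) ∈ D) →
      (∀ t x v, t0 ≤ t → t ≤ t1 → nq (x - (x0 + (t - t0) • w)) ≤ R ^ 2 → ‖v - v1‖ ≤ r1 →
        1 ≤ f t x v) →
      ∀ t x v, t0 ≤ t → t ≤ t1 → nq (x - (x0 + (t - t0) • w)) ≤ R ^ 2 / 4 →
        nq (v - w) ≤ r ^ 2 / 4 → c * (t - t0) ≤ f t x v := by
  have hLam0 : 0 < Lam := lt_of_lt_of_le hlam hLam
  obtain ⟨C, hC, hgam⟩ := gam_lower (d := d) hd hs hs1 hlam hLam hr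
  obtain ⟨c2, hc2, hfar⟩ := far_lower (d := d) hd hs hs1 hr1 (R := Vm + r + r1) (by linarith)
  set S : ℝ := 1 + 4 * Tm * r / R + Tm * C with hS
  have hS0 : 0 < S := by positivity
  set κ : ℝ := min (1 / (2 * Tm)) (lam * c2 / 16 / S) with hκ
  have hκ0 : 0 < κ := lt_min (by positivity) (by positivity)
  have hκ1 : κ * Tm ≤ 1 / 2 := by
    calc κ * Tm ≤ 1 / (2 * Tm) * Tm := by gcongr; exact min_le_left _ _
      _ = 1 / 2 := by field_simp
  have hκ2 : κ * S ≤ lam * c2 / 16 := by
    calc κ * S ≤ lam * c2 / 16 / S * S := by gcongr; exact min_le_right _ _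
      _ = _ := by field_simp
  refine ⟨κ * (81 / 256), by positivity, lam * c2 / 16, by positivity, ?_⟩
  intro M0 η a f D hK hSup hη hf0 t0 t1 x0 w v1 hT hV hD hsrc
  set ψ : ℝ → Vd d → Vd d → ℝ := fun t x v =>
    κ * (t - t0) * PP (1 - nq (x - (x0 + (t - t0) • w)) / R ^ 2) * gam r w v - 0 with hψ
  set U : Set (ℝ × Vd d × Vd d) := {p : ℝ × Vd d × Vd d | (t0 ≤ p.1 ∧ p.1 ≤ t1) ∧
      nq (p.2.1 - (x0 + (p.1 - t0) • w)) ≤ (R - 0 * (p.1 - t0)) ^ 2 ∧ nq (p.2.2 - w) ≤ r ^ 2} with hU
  have hcmp : ∀ t x v, t0 ≤ t → t ≤ t1 → ψ t x v ≤ f t x v := by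
    refine touch hd hs hs1 hlam.le hK hSup hf0 ψ U (tube_compact t0 t1 R 0 r x0 w) ?_ ?_ ?_ ?_ ?_
      (c0 := 1 / 2) (by norm_num) ?_
    · rintro ⟨t, x, v⟩ ⟨⟨h0, h1⟩, h2, h3⟩
      simp only [zero_mul, sub_zero] at h0 h1 h2 h3
      exact hD t x v h0 h1 h2 h3
    · rintro p ⟨h, -⟩
      exact h
    · have hq := nq_continuous (d := d)
      have hP := PP_continuous
      have hg := gam_continuous (d := d) r w
      refine Continuous.continuousOn ?_
      simp only [hψ]
      fun_prop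
    · intro t x v h0 h1 hp
      simp only [hψ, sub_zero] at hp
      have hk : 0 ≤ κ * (t - t0) := mul_nonneg hκ0.le (by linarith)
      have hPn := PP_nonneg (1 - nq (x - (x0 + (t - t0) • w)) / R ^ 2)
      have hγn := gam_nonneg r w v
      have hPp : 0 < PP (1 - nq (x - (x0 + (t - t0) • w)) / R ^ 2) := by
        rcases hPn.lt_or_eq with h | h
        · exact h
        · rw [← h] at hp; simp at hp
      have hγp : 0 < gam r w v := by
        rcases hγn.lt_or_eq with h | h
        · exact h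
        · rw [← h] at hp; simp at hp
      refine ⟨⟨h0, h1⟩, ?_, ((gam_pos hr).1 hγp).le⟩
      rw [PP_pos, sub_pos, div_lt_one (by positivity)] at hPp
      simpa using hPp.le
    · intro x v
      simp only [hψ, sub_self, mul_zero, zero_mul]
      exact hf0 _ _ _
    · intro t x v h0 h1 hp
      simp only [hψ, sub_zero] at hp
      have htt : 0 < t - t0 := by linarith
      have hk : 0 < κ * (t - t0) := mul_pos hκ0 htt
      have hPn := PP_nonneg (1 - nq (x - (x0 + (t - t0) • w)) / R ^ 2)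
      have hγn := gam_nonneg r w v
      have hPp : 0 < PP (1 - nq (x - (x0 + (t - t0) • w)) / R ^ 2) := by
        rcases hPn.lt_or_eq with h | h
        · exact h
        · rw [← h] at hp; simp at hp
      have hγp : 0 < gam r w v := by
        rcases hγn.lt_or_eq with h | h
        · exact h
        · rw [← h] at hp; simp at hp
      have hxin : nq (x - (x0 + (t - t0) • w)) < R ^ 2 := by
        rw [PP_pos, sub_pos, div_lt_one (by positivity)] at hPp
        exact hPp
      have hvin := (gam_pos hr).1 hγp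
      obtain ⟨ψt, ψx, hψt, hψx, hsum⟩ := bar_deriv (A := fun t => κ * (t - t0)) (B := fun _ => 0)
        (R := fun _ => R) (t := t) (((hasDerivAt_id t).sub_const t0).const_mul κ)
        (hasDerivAt_const t 0) (hasDerivAt_const t R) hR.ne' (gam r w v) t0 x x0 w v
      have hcoef : ψ t x = fun v => (κ * (t - t0) * PP (1 - nq (x - (x0 + (t - t0) • w)) / R ^ 2)) *
          gam r w v - 0 := by
        funext v; simp only [hψ]
      have hvz : ‖v1 - v‖ ≤ Vm + r + r1 := by
        have h2 : ‖v - w‖ ≤ r := norm_le_of_nq hr.le hvin.le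
        have h3 : ‖v1 - v‖ ≤ ‖v1 - w‖ + ‖v - w‖ := by
          have := norm_sub_le (v1 - w) (v - w)
          have e : v1 - w - (v - w) = v1 - v := by abel
          rwa [e] at this
        linarith
      refine ⟨ψt, ψx, {u | ‖u - (v1 - v)‖ ≤ r1 ∧ r1 / 2 < ‖u‖}, hψt, hψx, ?_, ?_, ?_, ?_, ?_⟩
      · have h2 := (gam_integrable hd hs hs1 hlam.le (hK.meas t x v) (hK.lo t x v) (hK.hi t x v)
          hr w v).const_mul (κ * (t - t0) * PP (1 - nq (x - (x0 + (t - t0) • w)) / R ^ 2))
        refine h2.congr (Eventually.of_forall fun u => ?_)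
        simp only
        rw [hcoef, sd_affine]
        ring
      · refine MeasurableSet.inter ?_ ?_
        · exact measurableSet_le (measurable_id.sub_const (v1 - v)).norm measurable_const
        · exact measurableSet_lt measurable_const measurable_norm
      · exact (integrable_far hd hs hs1 (ε := r1 / 2) (by positivity)).mono_set fun u hu => hu.2
      · intro u hu
        have h2 : 1 ≤ f t x (v + u) := by
          refine hsrc t x (v + u) h0.le h1 hxin.le ?_
          have : v + u - v1 = u - (v1 - v) := by abel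
          rw [this]; exact hu.1
        have h3 : ψ t x (v + u) ≤ 1 / 2 := by
          rw [hcoef]
          have hg1 := gam_le_one r w (v + u)
          have hg0 := gam_nonneg r w (v + u)
          have hP1 : PP (1 - nq (x - (x0 + (t - t0) • w)) / R ^ 2) ≤ 1 := by
            refine PP_le_one ?_
            have := nq_nonneg (x - (x0 + (t - t0) • w))
            have : 0 ≤ nq (x - (x0 + (t - t0) • w)) / R ^ 2 := by positivity
            linarith
          have hkt : κ * (t - t0) ≤ 1 / 2 := by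
            calc κ * (t - t0) ≤ κ * Tm := by gcongr; linarith
              _ ≤ _ := hκ1
          calc _ = κ * (t - t0) * PP (1 - nq (x - (x0 + (t - t0) • w)) / R ^ 2) * gam r w (v + u) := by
                ring
            _ ≤ κ * (t - t0) * 1 * 1 := by gcongr
            _ ≤ _ := by linarith
        linarith
      · -- the strict inequality
        rw [hcoef, LL_affine]
        have hg1 := gam_le_one r w v
        have hP1 : PP (1 - nq (x - (x0 + (t - t0) • w)) / R ^ 2) ≤ 1 := by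
          refine PP_le_one ?_
          have := nq_nonneg (x - (x0 + (t - t0) • w))
          have : 0 ≤ nq (x - (x0 + (t - t0) • w)) / R ^ 2 := by positivity
          linarith
        have hfarv := hfar (v1 - v) hvz (r1 / 2) (by positivity) le_rfl
        have hLg := (hgam (a t x v) (hK.meas t x v) (hK.lo t x v) (hK.hi t x v) w v).1
        have hLb : -(κ * Tm * C) ≤
            κ * (t - t0) * PP (1 - nq (x - (x0 + (t - t0) • w)) / R ^ 2) *
              LL s (a t x v) (gam r w) v := by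
          have h2 : κ * (t - t0) * PP (1 - nq (x - (x0 + (t - t0) • w)) / R ^ 2) * (-C) ≤
            κ * (t - t0) * PP (1 - nq (x - (x0 + (t - t0) • w)) / R ^ 2) *
              LL s (a t x v) (gam r w) v := by gcongr
          have h3 : κ * (t - t0) * PP (1 - nq (x - (x0 + (t - t0) • w)) / R ^ 2) * C ≤
              κ * Tm * 1 * C := by
            gcongr
            linarith
          linarith
        have hmax : max 0 (1 - nq (x - (x0 + (t - t0) • w)) / R ^ 2) ≤ 1 := by
          refine max_le zero_le_one ?_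
          have := nq_nonneg (x - (x0 + (t - t0) • w))
          have : 0 ≤ nq (x - (x0 + (t - t0) • w)) / R ^ 2 := by positivity
          linarith
        have hmax0 : 0 ≤ max 0 (1 - nq (x - (x0 + (t - t0) • w)) / R ^ 2) := le_max_left _ _
        have hip : |ip (x - (x0 + (t - t0) • w)) (v - w)| ≤ R * r := by
          refine (ip_le _ _).trans ?_
          have h2 : √(nq (x - (x0 + (t - t0) • w))) ≤ R := by
            rw [← Real.sqrt_sq hR.le]; exact Real.sqrt_le_sqrt hxin.le
          have h3 : √(nq (v - w)) ≤ r := by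
            rw [← Real.sqrt_sq hr.le]; exact Real.sqrt_le_sqrt hvin.le
          gcongr
        have hterm : κ * (t - t0) * (2 * max 0 (1 - nq (x - (x0 + (t - t0) • w)) / R ^ 2) *
            (-2 * ip (x - (x0 + (t - t0) • w)) (v - w) / R ^ 2 +
              2 * nq (x - (x0 + (t - t0) • w)) * 0 / R ^ 3)) * gam r w v ≤ κ * (4 * Tm * r / R) := by
          have h2 : -2 * ip (x - (x0 + (t - t0) • w)) (v - w) / R ^ 2 +
              2 * nq (x - (x0 + (t - t0) • w)) * 0 / R ^ 3 ≤ 2 * (r / R) := by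
            have h3 : -2 * ip (x - (x0 + (t - t0) • w)) (v - w) ≤ 2 * (R * r) := by
              have := (abs_le.1 hip).1
              linarith
            have h4 : -2 * ip (x - (x0 + (t - t0) • w)) (v - w) / R ^ 2 ≤ 2 * (R * r) / R ^ 2 := by
              gcongr
            have h5 : 2 * (R * r) / R ^ 2 = 2 * (r / R) := by field_simp
            simp only [mul_zero, zero_div, add_zero]
            linarith
          have hrR : 0 ≤ r / R := by positivity
          have h6 : 2 * max 0 (1 - nq (x - (x0 + (t - t0) • w)) / R ^ 2) *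
            (-2 * ip (x - (x0 + (t - t0) • w)) (v - w) / R ^ 2 +
              2 * nq (x - (x0 + (t - t0) • w)) * 0 / R ^ 3) ≤ 4 * (r / R) := by
            calc _ ≤ 2 * max 0 (1 - nq (x - (x0 + (t - t0) • w)) / R ^ 2) * (2 * (r / R)) := by
                  gcongr
              _ ≤ 2 * 1 * (2 * (r / R)) := by gcongr
              _ = _ := by ring
          calc _ ≤ κ * (t - t0) * (4 * (r / R)) * gam r w v := by gcongr
            _ ≤ κ * Tm * (4 * (r / R)) * 1 := by
              gcongr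
              linarith
            _ = _ := by ring
        have hfirst : κ * 1 * PP (1 - nq (x - (x0 + (t - t0) • w)) / R ^ 2) * gam r w v ≤ κ := by
          calc _ ≤ κ * 1 * 1 * 1 := by gcongr
            _ = κ := by ring
        have hSexp : κ * S = κ + κ * (4 * Tm * r / R) + κ * Tm * C := by rw [hS]; ring
        have hgain : 1 / 2 * lam / 2 * c2 ≤ 1 / 2 * lam / 2 *
            ∫ u in {u : Vd d | ‖u - (v1 - v)‖ ≤ r1 ∧ r1 / 2 < ‖u‖}, kr s u := by gcongr
        have hlc : 0 < lam * c2 := by positivity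
        rw [hsum]
        linarith
  intro t x v h0 h1 hx hv
  refine le_trans ?_ (hcmp t x v h0 h1)
  simp only [hψ, sub_zero]
  have hP : 9 / 16 ≤ PP (1 - nq (x - (x0 + (t - t0) • w)) / R ^ 2) := by
    have h2 : nq (x - (x0 + (t - t0) • w)) / R ^ 2 ≤ 1 / 4 := by
      rw [div_le_iff₀ (by positivity)]; linarith
    have h3 : PP (3 / 4) ≤ PP (1 - nq (x - (x0 + (t - t0) • w)) / R ^ 2) := PP_mono (by linarith)
    refine le_trans ?_ h3
    rw [PP_of_nonneg (by norm_num)]
    norm_num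
  have hγ := gam_ge hr hv
  have hk : 0 ≤ κ * (t - t0) := mul_nonneg hκ0.le (by linarith)
  calc κ * (81 / 256) * (t - t0) = κ * (t - t0) * (9 / 16) * (9 / 16) := by ring
    _ ≤ _ := by gcongr

end KD.IV
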