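import Pool.Agent.Helper33.KD4.Touch

/-! KD project (MP_019250_an), Part IV: bumps `max(0, 1 - |v-w|²/r²)²`. -/

namespace KD.IV

open MeasureTheory Set Filter Topology

variable {d : ℕ}

/-- `(z₊)²` -/
noncomputable def PP (z : ℝ) : ℝ := (max 0 z) ^ 2

theorem PP_nonneg (z : ℝ) : 0 ≤ PP z := sq_nonneg _

theorem PP_of_nonpos {z : ℝ} (h : z ≤ 0) : PP z = 0 := by simp [PP, h]

theorem PP_of_nonneg {z : ℝ} (h : 0 ≤ z) : PP z = z ^ 2 := by simp [PP, h]

theorem PP_pos {z : ℝ} : 0 < PP z ↔ 0 < z := by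
  constructor
  · intro h
    by_contra hz
    push Not at hz
    rw [PP_of_nonpos hz] at h
    exact lt_irrefl _ h
  · intro h
    rw [PP_of_nonneg h.le]
    positivity

theorem PP_mono {y z : ℝ} (h : y ≤ z) : PP y ≤ PP z := by
  unfold PP
  gcongr

theorem PP_le_one {z : ℝ} (h : z ≤ 1) : PP z ≤ 1 := by
  have h1 : PP z ≤ PP 1 := PP_mono h
  simpa [PP] using h1

theorem PP_conv (z δ : ℝ) : PP z + 2 * max 0 z * δ ≤ PP (z + δ) := by
  rcases le_total z 0 with h | h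
  · rw [PP_of_nonpos h, max_eq_left h]
    simpa using PP_nonneg (z + δ)
  · rw [PP_of_nonneg h, max_eq_right h]
    rcases le_total (z + δ) 0 with h2 | h2
    · rw [PP_of_nonpos h2]
      nlinarith
    · rw [PP_of_nonneg h2]
      nlinarith [sq_nonneg δ]

theorem PP_up (z δ : ℝ) : PP (z + δ) ≤ PP z + 2 * max 0 z * δ + δ ^ 2 := by
  rcases le_total z 0 with h | h
  · rw [PP_of_nonpos h, max_eq_left h]
    rcases le_total (z + δ) 0 with h2 | h2
    · rw [PP_of_nonpos h2]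
      nlinarith [sq_nonneg δ]
    · rw [PP_of_nonneg h2]
      nlinarith
  · rw [PP_of_nonneg h, max_eq_right h]
    rcases le_total (z + δ) 0 with h2 | h2
    · rw [PP_of_nonpos h2]
      nlinarith [sq_nonneg (z + δ)]
    · rw [PP_of_nonneg h2]
      nlinarith

theorem PP_hasDerivAt (z : ℝ) : HasDerivAt PP (2 * max 0 z) z := by
  rw [hasDerivAt_iff_isLittleO_nhds_zero]
  have h1 : (fun h : ℝ => PP (z + h) - PP z - h • (2 * max 0 z)) =O[𝓝 0] fun h => h ^ 2 := by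
    refine Asymptotics.IsBigO.of_bound 1 (Eventually.of_forall fun h => ?_)
    rw [Real.norm_eq_abs, Real.norm_eq_abs, one_mul, abs_of_nonneg (sq_nonneg h), smul_eq_mul,
      abs_le]
    have h2 := PP_conv z h
    have h3 := PP_up z h
    constructor <;> nlinarith [sq_nonneg h]
  refine h1.trans_isLittleO ?_
  simpa using (Asymptotics.isLittleO_pow_id (n := 2) (𝕜 := ℝ) one_lt_two)

theorem PP_continuous : Continuous PP := by
  unfold PP
  fun_prop

/-- Euclidean norm squared, inner product -/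
def nq (y : Vd d) : ℝ := ∑ i, y i ^ 2
def ip (y z : Vd d) : ℝ := ∑ i, y i * z i

theorem nq_nonneg (y : Vd d) : 0 ≤ nq y := Finset.sum_nonneg fun i _ => sq_nonneg _

theorem nq_continuous : Continuous (nq : Vd d → ℝ) := by
  unfold nq
  fun_prop

theorem nq_add (y z : Vd d) : nq (y + z) = nq y + 2 * ip y z + nq z := by
  simp only [nq, ip, Finset.mul_sum, ← Finset.sum_add_distrib]
  refine Finset.sum_congr rfl fun i _ => ?_
  simp only [Pi.add_apply]
  ring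

theorem ip_neg (y z : Vd d) : ip y (-z) = - ip y z := by
  simp [ip, Finset.sum_neg_distrib]

theorem nq_neg (z : Vd d) : nq (-z) = nq z := by simp [nq]

theorem nq_le (y : Vd d) : nq y ≤ d * ‖y‖ ^ 2 := by
  have : ∀ i ∈ (Finset.univ : Finset (Fin d)), y i ^ 2 ≤ ‖y‖ ^ 2 := by
    intro i _
    have h := norm_le_pi_norm y i
    rw [Real.norm_eq_abs] at h
    exact sq_le_sq' (by linarith [neg_abs_le (y i)]) ((le_abs_self _).trans h)
  calc nq y ≤ ∑ _i : Fin d, ‖y‖ ^ 2 := Finset.sum_le_sum this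
    _ = d * ‖y‖ ^ 2 := by simp

theorem norm_sq_le_nq (y : Vd d) : ‖y‖ ^ 2 ≤ nq y := by
  have h : ‖y‖ ≤ √(nq y) := by
    rw [pi_norm_le_iff_of_nonneg (Real.sqrt_nonneg _)]
    intro i
    rw [Real.norm_eq_abs, ← Real.sqrt_sq_eq_abs]
    refine Real.sqrt_le_sqrt ?_
    exact Finset.single_le_sum (f := fun i => y i ^ 2) (fun i _ => sq_nonneg _) (Finset.mem_univ i)
  calc ‖y‖ ^ 2 ≤ √(nq y) ^ 2 := by gcongr
    _ = nq y := Real.sq_sqrt (nq_nonneg y)

theorem norm_le_of_nq {y : Vd d} {r : ℝ} (hr : 0 ≤ r) (h : nq y ≤ r ^ 2) : ‖y‖ ≤ r := by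
  have h1 := (norm_sq_le_nq y).trans h
  exact le_of_sq_le_sq h1 hr

theorem ip_le (y z : Vd d) : |ip y z| ≤ √(nq y) * √(nq z) := by
  rw [← Real.sqrt_mul (nq_nonneg y)]
  refine Real.abs_le_sqrt ?_
  exact Finset.sum_mul_sq_le_sq_mul_sq _ _ _

/-- the velocity bump -/
noncomputable def gam (r : ℝ) (w v : Vd d) : ℝ := PP (1 - nq (v - w) / r ^ 2)

theorem gam_nonneg (r : ℝ) (w v : Vd d) : 0 ≤ gam r w v := PP_nonneg _

theorem gam_le_one (r : ℝ) (w v : Vd d) : gam r w v ≤ 1 := by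
  refine PP_le_one ?_
  have := nq_nonneg (v - w)
  have : 0 ≤ nq (v - w) / r ^ 2 := by positivity
  linarith

theorem gam_continuous (r : ℝ) (w : Vd d) : Continuous (gam r w) := by
  unfold gam
  refine PP_continuous.comp ?_
  have := nq_continuous (d := d)
  fun_prop

theorem gam_pos {r : ℝ} (hr : 0 < r) {w v : Vd d} : 0 < gam r w v ↔ nq (v - w) < r ^ 2 := by
  rw [gam, PP_pos, sub_pos, div_lt_one (by positivity)]

theorem gam_ge {r : ℝ} (hr : 0 < r) {w v : Vd d} (h : nq (v - w) ≤ r ^ 2 / 4) :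
    9 / 16 ≤ gam r w v := by
  have h1 : nq (v - w) / r ^ 2 ≤ 1 / 4 := by
    rw [div_le_iff₀ (by positivity)]; linarith
  have h2 : PP (3 / 4) ≤ gam r w v := PP_mono (by linarith)
  refine le_trans ?_ h2
  rw [PP_of_nonneg (by norm_num)]
  norm_num

/-- lower bound of the second difference -/
theorem sd_gam_lower {r : ℝ} (hr : 0 < r) (w v u : Vd d) :
    -(4 * d / r ^ 2) * ‖u‖ ^ 2 ≤ sd (gam r w) v u := by
  set g : ℝ := 1 - nq (v - w) / r ^ 2 with hg
  have hr2 : 0 < r ^ 2 := by positivity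
  have e1 : 1 - nq (v + u - w) / r ^ 2 = g + (-(2 * ip (v - w) u + nq u) / r ^ 2) := by
    have : v + u - w = (v - w) + u := by abel
    rw [this, nq_add, hg]
    field_simp
    ring
  have e2 : 1 - nq (v - u - w) / r ^ 2 = g + ((2 * ip (v - w) u - nq u) / r ^ 2) := by
    have : v - u - w = (v - w) + -u := by abel
    rw [this, nq_add, ip_neg, nq_neg, hg]
    field_simp
    ring
  have h1 := PP_conv g (-(2 * ip (v - w) u + nq u) / r ^ 2)
  have h2 := PP_conv g ((2 * ip (v - w) u - nq u) / r ^ 2)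
  have h3 : sd (gam r w) v u = PP (g + (-(2 * ip (v - w) u + nq u) / r ^ 2)) +
      PP (g + ((2 * ip (v - w) u - nq u) / r ^ 2)) - 2 * PP g := by
    rw [sd, gam, gam, gam, e1, e2]
  rw [h3]
  have hm0 : 0 ≤ max 0 g := le_max_left _ _
  have hm1 : max 0 g ≤ 1 := by
    refine max_le zero_le_one ?_
    have := nq_nonneg (v - w)
    have : 0 ≤ nq (v - w) / r ^ 2 := by positivity
    linarith
  have h4 : 2 * max 0 g * (-(2 * ip (v - w) u + nq u) / r ^ 2) +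
      2 * max 0 g * ((2 * ip (v - w) u - nq u) / r ^ 2) = -(4 * max 0 g * (nq u / r ^ 2)) := by
    ring
  have h5 : 4 * max 0 g * (nq u / r ^ 2) ≤ 4 * 1 * (d * ‖u‖ ^ 2 / r ^ 2) := by
    have := nq_le u
    have := nq_nonneg u
    gcongr
  have h6 : (4 * 1 * (d * ‖u‖ ^ 2 / r ^ 2)) = 4 * d / r ^ 2 * ‖u‖ ^ 2 := by ring
  linarith

theorem sd_gam_ge_neg_two (r : ℝ) (w v u : Vd d) : -2 * gam r w v ≤ sd (gam r w) v u := by
  have h1 := gam_nonneg r w (v + u)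
  have h2 := gam_nonneg r w (v - u)
  rw [sd]
  linarith

/-- two-sided bound of the second difference at a point -/
theorem sd_gam_bound {r : ℝ} (hr : 0 < r) (w v : Vd d) :
    ∃ C : ℝ, ∀ u, |sd (gam r w) v u| ≤ C * min 1 (‖u‖ ^ 2) := by
  have hA : ∀ v, |gam r w v| ≤ 1 := fun v => by
    rw [abs_of_nonneg (gam_nonneg r w v)]; exact gam_le_one r w v
  refine sd_global hA ?_
  set g : ℝ := 1 - nq (v - w) / r ^ 2 with hg
  have hr2 : 0 < r ^ 2 := by positivity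
  have hd0 : (0 : ℝ) ≤ d := by positivity
  -- constant
  set Q : ℝ := (2 * √(nq (v - w)) * √d + d) / r ^ 2 with hQ
  have hQ0 : 0 ≤ Q := by positivity
  refine ⟨1, one_pos, 4 * d / r ^ 2 + 2 * Q ^ 2, by positivity, fun u hu => ?_⟩
  have e1 : 1 - nq (v + u - w) / r ^ 2 = g + (-(2 * ip (v - w) u + nq u) / r ^ 2) := by
    have : v + u - w = (v - w) + u := by abel
    rw [this, nq_add, hg]
    field_simp
    ring
  have e2 : 1 - nq (v - u - w) / r ^ 2 = g + ((2 * ip (v - w) u - nq u) / r ^ 2) := by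
    have : v - u - w = (v - w) + -u := by abel
    rw [this, nq_add, ip_neg, nq_neg, hg]
    field_simp
    ring
  have h1 := PP_up g (-(2 * ip (v - w) u + nq u) / r ^ 2)
  have h2 := PP_up g ((2 * ip (v - w) u - nq u) / r ^ 2)
  have h3 : sd (gam r w) v u = PP (g + (-(2 * ip (v - w) u + nq u) / r ^ 2)) +
      PP (g + ((2 * ip (v - w) u - nq u) / r ^ 2)) - 2 * PP g := by
    rw [sd, gam, gam, gam, e1, e2]
  have hm0 : 0 ≤ max 0 g := le_max_left _ _
  have h4 : 2 * max 0 g * (-(2 * ip (v - w) u + nq u) / r ^ 2) +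
      2 * max 0 g * ((2 * ip (v - w) u - nq u) / r ^ 2) = -(4 * max 0 g * (nq u / r ^ 2)) := by
    ring
  have hnu := nq_nonneg u
  have h4' : 0 ≤ 4 * max 0 g * (nq u / r ^ 2) := by positivity
  have hnorm : 0 ≤ ‖u‖ := norm_nonneg u
  have hsq : √(nq u) ≤ √d * ‖u‖ := by
    rw [← Real.sqrt_sq hnorm, ← Real.sqrt_mul hd0]
    exact Real.sqrt_le_sqrt (nq_le u)
  have hip : |ip (v - w) u| ≤ √(nq (v - w)) * (√d * ‖u‖) :=
    (ip_le _ _).trans (by gcongr)
  have hnu1 : nq u ≤ d * ‖u‖ := by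
    refine (nq_le u).trans ?_
    have : ‖u‖ ^ 2 ≤ ‖u‖ := by nlinarith
    gcongr
  have hipl := abs_le.1 hip
  have hb1 : |-(2 * ip (v - w) u + nq u) / r ^ 2| ≤ Q * ‖u‖ := by
    rw [abs_div, abs_of_pos hr2, div_le_iff₀ hr2, hQ]
    have : (2 * √(nq (v - w)) * √d + d) / r ^ 2 * ‖u‖ * r ^ 2 =
      2 * (√(nq (v - w)) * (√d * ‖u‖)) + d * ‖u‖ := by field_simp
    rw [this, abs_le]
    constructor <;> linarith [hipl.1, hipl.2]
  have hb2 : |(2 * ip (v - w) u - nq u) / r ^ 2| ≤ Q * ‖u‖ := by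
    rw [abs_div, abs_of_pos hr2, div_le_iff₀ hr2, hQ]
    have : (2 * √(nq (v - w)) * √d + d) / r ^ 2 * ‖u‖ * r ^ 2 =
      2 * (√(nq (v - w)) * (√d * ‖u‖)) + d * ‖u‖ := by field_simp
    rw [this, abs_le]
    constructor <;> linarith [hipl.1, hipl.2]
  have hs1 : (-(2 * ip (v - w) u + nq u) / r ^ 2) ^ 2 ≤ (Q * ‖u‖) ^ 2 := by
    rw [← sq_abs]; gcongr
  have hs2 : ((2 * ip (v - w) u - nq u) / r ^ 2) ^ 2 ≤ (Q * ‖u‖) ^ 2 := by
    rw [← sq_abs]; gcongr
  have hlow := sd_gam_lower hr w v u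
  rw [abs_le]
  constructor
  · have : 0 ≤ 2 * Q ^ 2 * ‖u‖ ^ 2 := by positivity
    have e : (4 * d / r ^ 2 + 2 * Q ^ 2) * ‖u‖ ^ 2 = 4 * d / r ^ 2 * ‖u‖ ^ 2 + 2 * Q ^ 2 * ‖u‖ ^ 2 := by
      ring
    linarith
  · have : 0 ≤ 4 * d / r ^ 2 * ‖u‖ ^ 2 := by positivity
    have e : (4 * d / r ^ 2 + 2 * Q ^ 2) * ‖u‖ ^ 2 =
        4 * d / r ^ 2 * ‖u‖ ^ 2 + ((Q * ‖u‖) ^ 2 + (Q * ‖u‖) ^ 2) := by
      ring
    rw [h3, e]
    linarith

theorem gam_integrable (hd : 1 ≤ d) {s : ℝ} (hs : 0 < s) (hs1 : s < 1) {a0 : Vd d → ℝ} {lam Lam : ℝ}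
    (hlam : 0 ≤ lam) (ha : Measurable a0) (hlo : ∀ w, lam ≤ a0 w) (hhi : ∀ w, a0 w ≤ Lam)
    {r : ℝ} (hr : 0 < r) (w v : Vd d) :
    Integrable (fun u => sd (gam r w) v u * a0 u * kr s u) := by
  obtain ⟨C, hC⟩ := sd_gam_bound hr w v
  refine integrable_sd hd hs hs1 ha (Lam := Lam) (fun u => ?_) (gam_continuous r w).measurable hC
  rw [abs_of_nonneg (hlam.trans (hlo u))]
  exact hhi u

end KD.IV
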