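import Pool.Agent.Helper33.KD4.Bump

/-! KD project (MP_019250_an), Part IV: the operator applied to bumps. -/

namespace KD.IV

open MeasureTheory Set Filter Topology

variable {d : ℕ}

theorem integrable_far (hd : 1 ≤ d) {s : ℝ} (hs : 0 < s) (hs1 : s < 1) {ε : ℝ} (hε : 0 < ε) :
    IntegrableOn (fun w : Vd d => kr s w) {w | ε < ‖w‖} := by
  have hms : MeasurableSet {w : Vd d | ε < ‖w‖} := measurableSet_lt measurable_const measurable_norm
  have h1 : IntegrableOn (fun w : Vd d => (min 1 (ε ^ 2))⁻¹ * (min 1 (‖w‖ ^ 2) * kr s w))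
      {w | ε < ‖w‖} := ((integrable_wt hd hs hs1).const_mul _).integrableOn
  refine h1.mono' (kr_measurable s).aestronglyMeasurable ?_
  refine (ae_restrict_mem hms).mono fun w hw => ?_
  have hw' : ε < ‖w‖ := hw
  have hk := kr_nonneg s w
  rw [Real.norm_eq_abs, abs_of_nonneg hk]
  have he : 0 < min 1 (ε ^ 2) := lt_min one_pos (by positivity)
  have hle : min 1 (ε ^ 2) ≤ min 1 (‖w‖ ^ 2) := min_le_min le_rfl (by gcongr)
  calc kr s w = (min 1 (ε ^ 2))⁻¹ * (min 1 (ε ^ 2) * kr s w) := by field_simp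
    _ ≤ (min 1 (ε ^ 2))⁻¹ * (min 1 (‖w‖ ^ 2) * kr s w) := by gcongr

theorem integrable_near (hd : 1 ≤ d) {s : ℝ} (hs : 0 < s) (hs1 : s < 1) {ε : ℝ} (hε1 : ε ≤ 1) :
    IntegrableOn (fun w : Vd d => ‖w‖ ^ 2 * kr s w) {w | ‖w‖ ≤ ε} := by
  have hms : MeasurableSet {w : Vd d | ‖w‖ ≤ ε} := measurableSet_le measurable_norm measurable_const
  refine (integrable_wt hd hs hs1).integrableOn.congr_fun (fun w hw => ?_) hms
  have hw' : ‖w‖ ≤ ε := hw
  have : min 1 (‖w‖ ^ 2) = ‖w‖ ^ 2 := by
    refine min_eq_right ?_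
    have := norm_nonneg w
    nlinarith
  simp only [this]

/-- the near part is small -/
theorem near_small (hd : 1 ≤ d) {s : ℝ} (hs : 0 < s) (hs1 : s < 1) {e : ℝ} (he : 0 < e) {ε0 : ℝ}
    (hε0 : 0 < ε0) :
    ∃ ε : ℝ, 0 < ε ∧ ε ≤ ε0 ∧ ε ≤ 1 ∧ ∫ w in {w : Vd d | ‖w‖ ≤ ε}, ‖w‖ ^ 2 * kr s w ≤ e := by
  have : Nonempty (Fin d) := ⟨⟨0, hd⟩⟩
  have hint := integrable_wt hd hs hs1
  set S : ℕ → Set (Vd d) := fun n => {w | ‖w‖ ≤ 1 / ((n : ℝ) + 1)} with hS
  have hms : ∀ n, MeasurableSet (S n) := fun n => measurableSet_le measurable_norm measurable_const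
  have hanti : Antitone S := by
    intro m n hmn w hw
    have hw' : ‖w‖ ≤ 1 / ((n : ℝ) + 1) := hw
    have : 1 / ((n : ℝ) + 1) ≤ 1 / ((m : ℝ) + 1) := by
      have : (m : ℝ) ≤ n := by exact_mod_cast hmn
      gcongr
    exact hw'.trans this
  have hlim := tendsto_setIntegral_of_antitone (μ := volume)
    (f := fun w : Vd d => min 1 (‖w‖ ^ 2) * kr s w) hms hanti ⟨0, hint.integrableOn⟩
  have hcap : (⋂ n, S n) = {0} := by
    ext w
    simp only [mem_iInter, mem_singleton_iff, hS, mem_ofPred_eq]
    constructor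
    · intro h
      by_contra hw
      have hpos : 0 < ‖w‖ := norm_pos_iff.2 hw
      obtain ⟨n, hn⟩ := exists_nat_one_div_lt hpos
      exact absurd (h n) (not_le.2 hn)
    · intro h n
      rw [h, norm_zero]
      positivity
  rw [hcap] at hlim
  have hz : ∫ w in ({0} : Set (Vd d)), min 1 (‖w‖ ^ 2) * kr s w = 0 := by
    rw [setIntegral_measure_zero]
    exact measure_singleton 0
  rw [hz] at hlim
  have hev := hlim.eventually (gt_mem_nhds he)
  have hev2 : ∀ᶠ n : ℕ in atTop, 1 / ((n : ℝ) + 1) < ε0 :=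
    tendsto_one_div_add_atTop_nhds_zero_nat.eventually (gt_mem_nhds hε0)
  obtain ⟨n, hn1, hn2⟩ := (hev.and hev2).exists
  have hle1 : 1 / ((n : ℝ) + 1) ≤ 1 := by
    rw [div_le_one (by positivity)]
    have : (0 : ℝ) ≤ n := by positivity
    linarith
  refine ⟨1 / ((n : ℝ) + 1), by positivity, hn2.le, hle1, ?_⟩
  refine le_trans (le_of_eq ?_) hn1.le
  refine setIntegral_congr_fun (hms n) fun w hw => ?_
  have hw' : ‖w‖ ≤ 1 / ((n : ℝ) + 1) := hw
  have : min 1 (‖w‖ ^ 2) = ‖w‖ ^ 2 := by
    refine min_eq_right ?_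
    have := norm_nonneg w
    nlinarith
  simp only [this]

/-- lower bound for the far part: a ball of radius `ρ` seen from distance at most `R` -/
theorem far_lower (hd : 1 ≤ d) {s : ℝ} (hs : 0 < s) (hs1 : s < 1) {ρ R : ℝ} (hρ : 0 < ρ)
    (hR : ρ ≤ R) : ∃ c > 0, ∀ z : Vd d, ‖z‖ ≤ R → ∀ ε : ℝ, 0 < ε → ε ≤ ρ / 2 →
      c ≤ ∫ w in {w : Vd d | ‖w - z‖ ≤ ρ ∧ ε < ‖w‖}, kr s w := by
  have hex : 0 < (d : ℝ) + 2 * s := by positivity
  have : Nonempty (Fin d) := ⟨⟨0, hd⟩⟩
  have hR0 : 0 < R := lt_of_lt_of_le hρ hR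
  refine ⟨(2 * R) ^ (-((d : ℝ) + 2 * s)) * ((2 * ρ) ^ d - ρ ^ d), ?_, fun z hz ε hε hερ => ?_⟩
  · have h1 : ρ ^ d < (2 * ρ) ^ d := by
      refine pow_lt_pow_left₀ (by linarith) hρ.le (by omega)
    have h2 : 0 < (2 * R) ^ (-((d : ℝ) + 2 * s)) := Real.rpow_pos_of_pos (by linarith) _
    exact mul_pos h2 (by linarith)
  · set A : Set (Vd d) := {w | ‖w - z‖ ≤ ρ ∧ ε < ‖w‖} with hA
    have hmA : MeasurableSet A := by
      refine MeasurableSet.inter ?_ ?_
      · exact measurableSet_le (measurable_id.sub_const z).norm measurable_const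
      · exact measurableSet_lt measurable_const measurable_norm
    have hsub : Metric.closedBall z ρ \ Metric.closedBall 0 ε ⊆ A := by
      intro w hw
      refine ⟨?_, ?_⟩
      · have := hw.1
        rwa [Metric.mem_closedBall, dist_eq_norm] at this
      · have := hw.2
        rw [Metric.mem_closedBall, dist_eq_norm, sub_zero, not_le] at this
        exact this
    have hAsub : A ⊆ Metric.closedBall z ρ := by
      intro w hw
      rw [Metric.mem_closedBall, dist_eq_norm]
      exact hw.1
    have hfin : volume A ≠ ⊤ :=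
      ne_top_of_le_ne_top (measure_closedBall_lt_top (x := z) (r := ρ)).ne (measure_mono hAsub)
    have hvol : (2 * ρ) ^ d - ρ ^ d ≤ volume.real A := by
      have h1 : volume.real (Metric.closedBall z ρ \ Metric.closedBall 0 ε) ≤ volume.real A :=
        measureReal_mono hsub hfin
      have h2 : volume.real (Metric.closedBall z ρ) - volume.real (Metric.closedBall (0 : Vd d) ε) ≤
          volume.real (Metric.closedBall z ρ \ Metric.closedBall 0 ε) := by
        exact le_measureReal_sdiff (h := measure_closedBall_lt_top.ne)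
      have h3 : volume.real (Metric.closedBall z ρ) = (2 * ρ) ^ d := by
        rw [Measure.real, Real.volume_pi_closedBall z hρ.le, ENNReal.toReal_ofReal (by positivity)]
        simp
      have h4 : volume.real (Metric.closedBall (0 : Vd d) ε) = (2 * ε) ^ d := by
        rw [Measure.real, Real.volume_pi_closedBall 0 hε.le, ENNReal.toReal_ofReal (by positivity)]
        simp
      have h5 : (2 * ε) ^ d ≤ ρ ^ d := by
        gcongr
        linarith
      linarith
    have hint : IntegrableOn (fun w : Vd d => kr s w) A :=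
      (integrable_far hd hs hs1 hε).mono_set fun w hw => hw.2
    have hlow : ∀ w ∈ A, (2 * R) ^ (-((d : ℝ) + 2 * s)) ≤ kr s w := by
      intro w hw
      have hw0 : 0 < ‖w‖ := lt_trans hε hw.2
      have hw1 : ‖w‖ ≤ 2 * R := by
        have : ‖w‖ ≤ ‖w - z‖ + ‖z‖ := by
          have := norm_add_le (w - z) z
          simpa using this
        linarith [hw.1]
      exact Real.rpow_le_rpow_of_nonpos hw0 hw1 (by linarith)
    calc (2 * R) ^ (-((d : ℝ) + 2 * s)) * ((2 * ρ) ^ d - ρ ^ d)
        ≤ (2 * R) ^ (-((d : ℝ) + 2 * s)) * volume.real A := by gcongr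
      _ = ∫ w in A, (2 * R) ^ (-((d : ℝ) + 2 * s)) := by
        rw [setIntegral_const, smul_eq_mul, mul_comm]
      _ ≤ ∫ w in A, kr s w := by
        refine setIntegral_mono_on ?_ hint hmA hlow
        exact integrableOn_const hfin

/-- the operator applied to a bump is bounded below -/
theorem gam_lower (hd : 1 ≤ d) {s lam Lam : ℝ} (hs : 0 < s) (hs1 : s < 1) (hlam : 0 < lam)
    (hLam : lam ≤ Lam) {r : ℝ} (hr : 0 < r) :
    ∃ C : ℝ, 0 < C ∧ ∀ a0 : Vd d → ℝ, Measurable a0 → (∀ w, lam ≤ a0 w) → (∀ w, a0 w ≤ Lam) →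
      ∀ w v : Vd d, -C ≤ LL s a0 (gam r w) v ∧
        (0 < gam r w v → -C * gam r w v ≤ LL s a0 (gam r w) v) := by
  have hLam0 : 0 < Lam := lt_of_lt_of_le hlam hLam
  have hdpos : (0 : ℝ) < d := by exact_mod_cast hd
  set ρ : ℝ := r / (2 * (d + 1)) with hρ
  have hρ0 : 0 < ρ := by positivity
  have hρr : ρ ≤ 2 * r := by
    rw [hρ, div_le_iff₀ (by positivity)]
    nlinarith
  obtain ⟨c, hc, hfar⟩ := far_lower (d := d) hd hs hs1 hρ0 hρr
  -- choose `ε`
  set e : ℝ := lam * (9 / 16) * c / (4 * d / r ^ 2 * Lam) with he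
  have he0 : 0 < e := by positivity
  obtain ⟨ε, hε, hερ, hε1, hnear⟩ := near_small hd hs hs1 he0 (ε0 := ρ / 2) (by positivity)
  set F : ℝ := ∫ w in {w : Vd d | ε < ‖w‖}, kr s w with hF
  have hF0 : 0 ≤ F := integral_nonneg fun w => kr_nonneg s w
  set W : ℝ := ∫ w : Vd d, min 1 (‖w‖ ^ 2) * kr s w with hW
  have hW0 : 0 ≤ W := integral_nonneg fun w => mul_nonneg (by positivity) (kr_nonneg s w)
  refine ⟨Lam * F + (4 * d / r ^ 2 + 2) * Lam * W + 1, by positivity,
    fun a0 ham hlo hhi w v => ⟨?_, ?_⟩⟩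
  · -- crude bound
    have hint := gam_integrable hd hs hs1 hlam.le ham hlo hhi hr w v
    have h1 : ∫ u : Vd d, -((4 * d / r ^ 2 + 2) * Lam * (min 1 (‖u‖ ^ 2) * kr s u)) ≤
        ∫ u, sd (gam r w) v u * a0 u * kr s u := by
      refine integral_mono ((integrable_wt hd hs hs1).const_mul _).neg hint fun u => ?_
      have hk := kr_nonneg s u
      have ha := hlo u
      have ha2 := hhi u
      have hmin : -((4 * d / r ^ 2 + 2) * min 1 (‖u‖ ^ 2)) ≤ sd (gam r w) v u := by
        have h2 := sd_gam_lower hr w v u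
        have h3 := sd_gam_ge_neg_two r w v u
        have h4 := gam_le_one r w v
        rcases le_total (‖u‖ ^ 2) 1 with h | h
        · rw [min_eq_right h]
          nlinarith [sq_nonneg ‖u‖]
        · rw [min_eq_left h]
          have : 0 ≤ 4 * d / r ^ 2 := by positivity
          linarith
      have hm0 : 0 ≤ (4 * d / r ^ 2 + 2) * min 1 (‖u‖ ^ 2) := by positivity
      have h5 : -((4 * d / r ^ 2 + 2) * min 1 (‖u‖ ^ 2) * Lam) ≤ sd (gam r w) v u * a0 u := by
        calc -((4 * d / r ^ 2 + 2) * min 1 (‖u‖ ^ 2) * Lam)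
            ≤ -((4 * d / r ^ 2 + 2) * min 1 (‖u‖ ^ 2) * a0 u) := by
              have : (4 * d / r ^ 2 + 2) * min 1 (‖u‖ ^ 2) * a0 u ≤
                (4 * d / r ^ 2 + 2) * min 1 (‖u‖ ^ 2) * Lam := by gcongr
              linarith
          _ = -((4 * d / r ^ 2 + 2) * min 1 (‖u‖ ^ 2)) * a0 u := by ring
          _ ≤ _ := by
              have : 0 ≤ a0 u := by linarith
              gcongr
      calc -((4 * d / r ^ 2 + 2) * Lam * (min 1 (‖u‖ ^ 2) * kr s u))
          = -((4 * d / r ^ 2 + 2) * min 1 (‖u‖ ^ 2) * Lam) * kr s u := by ring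
        _ ≤ _ := by gcongr
    rw [integral_neg, integral_const_mul, ← hW] at h1
    rw [LL_eq]
    have h2 : 0 ≤ Lam * F := by positivity
    have h3 : 0 ≤ (4 * d / r ^ 2 + 2) * Lam * W := by positivity
    linarith
  · intro hγ
    have hint := gam_integrable hd hs hs1 hlam.le ham hlo hhi hr w v
    have hz : ‖w - v‖ ≤ 2 * r := by
      have h1 := (gam_pos hr).1 hγ
      have h2 : ‖v - w‖ ≤ r := norm_le_of_nq hr.le h1.le
      rw [norm_sub_rev]
      linarith
    set A : Set (Vd d) := {u | ‖u - (w - v)‖ ≤ ρ ∧ ε < ‖u‖} with hA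
    have hmA : MeasurableSet A := by
      refine MeasurableSet.inter ?_ ?_
      · exact measurableSet_le (measurable_id.sub_const (w - v)).norm measurable_const
      · exact measurableSet_lt measurable_const measurable_norm
    have hcA := hfar (w - v) hz ε hε hερ
    have hmN : MeasurableSet {u : Vd d | ‖u‖ ≤ ε} := measurableSet_le measurable_norm measurable_const
    have hmF : MeasurableSet {u : Vd d | ε < ‖u‖} := measurableSet_lt measurable_const measurable_norm
    set N : Set (Vd d) := {u | ‖u‖ ≤ ε} with hN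
    set O : Set (Vd d) := {u | ε < ‖u‖} with hO
    have hiN : Integrable (N.indicator fun u => 4 * d / r ^ 2 * Lam * (‖u‖ ^ 2 * kr s u)) := by
      rw [integrable_indicator_iff hmN]
      exact (integrable_near hd hs hs1 hε1).const_mul _
    have hiO : Integrable (O.indicator fun u => 2 * gam r w v * Lam * kr s u) := by
      rw [integrable_indicator_iff hmF]
      exact (integrable_far hd hs hs1 hε).const_mul _
    have hiA : Integrable (A.indicator fun u => lam * (9 / 16) * kr s u) := by
      rw [integrable_indicator_iff hmA]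
      exact ((integrable_far hd hs hs1 hε).mono_set fun u hu => hu.2).const_mul _
    have hmain : ∫ u, (A.indicator (fun u => lam * (9 / 16) * kr s u) u -
        N.indicator (fun u => 4 * d / r ^ 2 * Lam * (‖u‖ ^ 2 * kr s u)) u -
        O.indicator (fun u => 2 * gam r w v * Lam * kr s u) u) ≤
        ∫ u, sd (gam r w) v u * a0 u * kr s u := by
      refine integral_mono ((hiA.sub hiN).sub hiO) hint fun u => ?_
      have hk := kr_nonneg s u
      have ha := hlo u
      have ha2 := hhi u
      have ha0 : 0 ≤ a0 u := by linarith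
      have hg0 := gam_nonneg r w v
      by_cases hu : ‖u‖ ≤ ε
      · have huA : u ∉ A := fun h => absurd h.2 (not_lt.2 hu)
        have huO : u ∉ O := fun h => absurd h (not_lt.2 hu)
        have huN : u ∈ N := hu
        simp only [indicator_of_notMem huA, indicator_of_notMem huO, indicator_of_mem huN]
        have h2 := sd_gam_lower hr w v u
        have h3 : -(4 * d / r ^ 2 * ‖u‖ ^ 2 * Lam) ≤ sd (gam r w) v u * a0 u := by
          have hq : 0 ≤ 4 * d / r ^ 2 * ‖u‖ ^ 2 := by positivity
          calc -(4 * d / r ^ 2 * ‖u‖ ^ 2 * Lam) ≤ -(4 * d / r ^ 2 * ‖u‖ ^ 2 * a0 u) := by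
                have : 4 * d / r ^ 2 * ‖u‖ ^ 2 * a0 u ≤ 4 * d / r ^ 2 * ‖u‖ ^ 2 * Lam := by gcongr
                linarith
            _ = -(4 * d / r ^ 2) * ‖u‖ ^ 2 * a0 u := by ring
            _ ≤ _ := by gcongr
        calc 0 - 4 * d / r ^ 2 * Lam * (‖u‖ ^ 2 * kr s u) - 0
            = -(4 * d / r ^ 2 * ‖u‖ ^ 2 * Lam) * kr s u := by ring
          _ ≤ _ := by gcongr
      · push Not at hu
        have huN : u ∉ N := fun h => absurd (show ‖u‖ ≤ ε from h) (not_le.2 hu)
        have huO : u ∈ O := hu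
        have hbase : -(2 * gam r w v * Lam) ≤ (sd (gam r w) v u - gam r w (v + u)) * a0 u := by
          have h3 : -(2 * gam r w v) ≤ sd (gam r w) v u - gam r w (v + u) := by
            have := gam_nonneg r w (v - u)
            rw [sd]; linarith
          calc -(2 * gam r w v * Lam) ≤ -(2 * gam r w v * a0 u) := by
                have : 2 * gam r w v * a0 u ≤ 2 * gam r w v * Lam := by gcongr
                linarith
            _ = -(2 * gam r w v) * a0 u := by ring
            _ ≤ _ := by gcongr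
        by_cases huA : u ∈ A
        · simp only [indicator_of_notMem huN, indicator_of_mem huO, indicator_of_mem huA]
          have hg : 9 / 16 ≤ gam r w (v + u) := by
            refine gam_ge hr ?_
            have h4 : ‖v + u - w‖ ≤ ρ := by
              have : v + u - w = u - (w - v) := by abel
              rw [this]; exact huA.1
            have h5 := nq_le (v + u - w)
            have h6 : (d : ℝ) * ‖v + u - w‖ ^ 2 ≤ d * ρ ^ 2 := by gcongr
            have h7 : (d : ℝ) * ρ ^ 2 ≤ r ^ 2 / 4 := by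
              rw [hρ, div_pow, mul_div_assoc', div_le_div_iff₀ (by positivity) (by norm_num)]
              have : (2 * ((d : ℝ) + 1)) ^ 2 = 4 * (d + 1) ^ 2 := by ring
              rw [this]
              have h8 : (d : ℝ) ≤ (d + 1) ^ 2 := by nlinarith
              nlinarith [sq_nonneg r, mul_le_mul_of_nonneg_right h8 (sq_nonneg r)]
            linarith
          have h3 : lam * (9 / 16) - 2 * gam r w v * Lam ≤ sd (gam r w) v u * a0 u := by
            have h4 : lam * (9 / 16) ≤ gam r w (v + u) * a0 u := by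
              calc lam * (9 / 16) ≤ a0 u * gam r w (v + u) := by
                    have := gam_nonneg r w (v + u)
                    gcongr
                _ = _ := mul_comm _ _
            have h5 : sd (gam r w) v u * a0 u = (sd (gam r w) v u - gam r w (v + u)) * a0 u +
              gam r w (v + u) * a0 u := by ring
            linarith
          calc lam * (9 / 16) * kr s u - 0 - 2 * gam r w v * Lam * kr s u
              = (lam * (9 / 16) - 2 * gam r w v * Lam) * kr s u := by ring
            _ ≤ _ := by gcongr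
        · simp only [indicator_of_notMem huN, indicator_of_mem huO, indicator_of_notMem huA]
          have h3 : -(2 * gam r w v * Lam) ≤ sd (gam r w) v u * a0 u := by
            have h4 : 0 ≤ gam r w (v + u) * a0 u := mul_nonneg (gam_nonneg _ _ _) ha0
            have h5 : sd (gam r w) v u * a0 u = (sd (gam r w) v u - gam r w (v + u)) * a0 u +
              gam r w (v + u) * a0 u := by ring
            linarith
          calc 0 - 0 - 2 * gam r w v * Lam * kr s u
              = -(2 * gam r w v * Lam) * kr s u := by ring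
            _ ≤ _ := by gcongr
    rw [integral_sub (f := fun u => A.indicator (fun u => lam * (9 / 16) * kr s u) u -
        N.indicator (fun u => 4 * d / r ^ 2 * Lam * (‖u‖ ^ 2 * kr s u)) u) (hiA.sub hiN) hiO,
      integral_sub hiA hiN, integral_indicator hmA,
      integral_indicator hmN, integral_indicator hmF, integral_const_mul, integral_const_mul,
      integral_const_mul, ← hF] at hmain
    have h6 : 4 * d / r ^ 2 * Lam * ∫ u in N, ‖u‖ ^ 2 * kr s u ≤ lam * (9 / 16) * c := by
      have h7 : 4 * d / r ^ 2 * Lam * ∫ u in N, ‖u‖ ^ 2 * kr s u ≤ 4 * d / r ^ 2 * Lam * e := by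
        gcongr
      have h8 : 4 * d / r ^ 2 * Lam * e = lam * (9 / 16) * c := by
        rw [he]; field_simp
      linarith
    have h9 : lam * (9 / 16) * c ≤ lam * (9 / 16) * ∫ u in A, kr s u := by
      gcongr
    have h10 : -(2 * gam r w v * Lam * F) ≤ ∫ u, sd (gam r w) v u * a0 u * kr s u := by linarith
    rw [LL_eq]
    have hg0 := gam_nonneg r w v
    have h11 : 0 ≤ ((4 * d / r ^ 2 + 2) * Lam * W + 1) * gam r w v := by positivity
    nlinarith [h10, h11]

end KD.IV
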