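import Pool.Agent.Helper37.KD.Class

/-! KD project (MP_019250_an), Part IV.8: Euclidean definitions (as in the problem). -/

namespace KD.IV

open MeasureTheory Set Filter Topology

/-- `ℝ^d` with the Euclidean norm -/
abbrev Ed (d : ℕ) : Type := EuclideanSpace ℝ (Fin d)

/-- the open set `(0,1) × B_1 × B_1` -/
def DE (d : ℕ) : Set (ℝ × Ed d × Ed d) :=
  {p | 0 < p.1 ∧ p.1 < 1 ∧ ‖p.2.1‖ < 1 ∧ ‖p.2.2‖ < 1}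

/-- `Q = (1/2,1) × B_{1/2} × B_{1/2}` -/
def QE (d : ℕ) : Set (ℝ × Ed d × Ed d) :=
  {p | 1 / 2 < p.1 ∧ p.1 < 1 ∧ ‖p.2.1‖ < 1 / 2 ∧ ‖p.2.2‖ < 1 / 2}

/-- the kinetic distance -/
noncomputable def dl {d : ℕ} (s : ℝ) (z z' : ℝ × Ed d × Ed d) : ℝ :=
  ⨅ w : Ed d, max (max (|z.1 - z'.1| ^ (1 / (2 * s)))
    (‖z.2.1 - z'.2.1 - (z.1 - z'.1) • w‖ ^ (1 / (1 + 2 * s)))) (max ‖z.2.2 - w‖ ‖z'.2.2 - w‖)

/-- classical regularity on `DE d` with the derivatives `ft = ∂_t f`, `fx = ∇_x f`, `fv = ∇_v f`,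
`fvv = D_v² f` -/
structure RegE {d : ℕ} (f : ℝ → Ed d → Ed d → ℝ) (ft : ℝ → Ed d → Ed d → ℝ)
    (fx fv : ℝ → Ed d → Ed d → (Ed d →L[ℝ] ℝ))
    (fvv : ℝ → Ed d → Ed d → (Ed d →L[ℝ] Ed d →L[ℝ] ℝ)) : Prop where
  cf : ContinuousOn (fun p : ℝ × Ed d × Ed d => f p.1 p.2.1 p.2.2) (DE d)
  dt : ∀ p ∈ DE d, HasDerivAt (fun t => f t p.2.1 p.2.2) (ft p.1 p.2.1 p.2.2) p.1
  dx : ∀ p ∈ DE d, HasFDerivAt (fun x => f p.1 x p.2.2) (fx p.1 p.2.1 p.2.2) p.2.1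
  dv : ∀ p ∈ DE d, HasFDerivAt (fun v => f p.1 p.2.1 v) (fv p.1 p.2.1 p.2.2) p.2.2
  dvv : ∀ p ∈ DE d, HasFDerivAt (fun v => fv p.1 p.2.1 v) (fvv p.1 p.2.1 p.2.2) p.2.2
  ct : ContinuousOn (fun p : ℝ × Ed d × Ed d => ft p.1 p.2.1 p.2.2) (DE d)
  cx : ContinuousOn (fun p : ℝ × Ed d × Ed d => fx p.1 p.2.1 p.2.2) (DE d)
  cv : ContinuousOn (fun p : ℝ × Ed d × Ed d => fv p.1 p.2.1 p.2.2) (DE d)
  cvv : ContinuousOn (fun p : ℝ × Ed d × Ed d => fvv p.1 p.2.1 p.2.2) (DE d)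

/-- admissible kernels `K(t,x,v,v')` on `DE d`: measurable, symmetric, pointwise elliptic of order
`2s`, and of bounded variation in scale -/
structure KernE {d : ℕ} (s lam Lam M0 : ℝ) (K : ℝ → Ed d → Ed d → Ed d → ℝ) : Prop where
  meas : ∀ p ∈ DE d, Measurable (K p.1 p.2.1 p.2.2)
  symm : ∀ p ∈ DE d, ∀ w, K p.1 p.2.1 p.2.2 (p.2.2 - w) = K p.1 p.2.1 p.2.2 (p.2.2 + w)
  lo : ∀ p ∈ DE d, ∀ v', v' ≠ p.2.2 →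
    lam ≤ ‖v' - p.2.2‖ ^ ((d : ℝ) + 2 * s) * K p.1 p.2.1 p.2.2 v'
  hi : ∀ p ∈ DE d, ∀ v', v' ≠ p.2.2 →
    ‖v' - p.2.2‖ ^ ((d : ℝ) + 2 * s) * K p.1 p.2.1 p.2.2 v' ≤ Lam
  bv : ∀ p ∈ DE d, ∀ w : Ed d, 0 < ‖w‖ → ‖w‖ ≤ 1 → ∀ n : ℕ,
    ∑ j ∈ Finset.range n,
      |‖(1 / 2 : ℝ) ^ (j + 1) • w‖ ^ ((d : ℝ) + 2 * s) *
          K p.1 p.2.1 p.2.2 (p.2.2 + (1 / 2 : ℝ) ^ (j + 1) • w) -
        ‖(1 / 2 : ℝ) ^ j • w‖ ^ ((d : ℝ) + 2 * s) *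
          K p.1 p.2.1 p.2.2 (p.2.2 + (1 / 2 : ℝ) ^ j • w)| ≤ M0

/-- coordinates: `ℝ^d` with the sup norm to `ℝ^d` with the Euclidean norm -/
noncomputable def toE (d : ℕ) : Vd d ≃L[ℝ] Ed d := (EuclideanSpace.equiv (Fin d) ℝ).symm

/-- the sup norm domain -/
def DV (d : ℕ) : Set (ℝ × Vd d × Vd d) := {p | (p.1, toE d p.2.1, toE d p.2.2) ∈ DE d}

open Classical in
/-- sup norm function -/
noncomputable def fV {d : ℕ} (f : ℝ → Ed d → Ed d → ℝ) : ℝ → Vd d → Vd d → ℝ := fun t x v =>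
  if 0 < t ∧ t < 1 ∧ ‖toE d x‖ < 1 then f t (toE d x) (toE d v) else 0

open Classical in
/-- sup norm kernel -/
noncomputable def aV {d : ℕ} (s lam : ℝ) (K : ℝ → Ed d → Ed d → Ed d → ℝ) :
    ℝ → Vd d → Vd d → Vd d → ℝ := fun t x v w =>
  if (t, x, v) ∈ DV d ∧ w ≠ 0 then
    ‖w‖ ^ ((d : ℝ) + 2 * s) * K t (toE d x) (toE d v) (toE d v + toE d w) else lam

end KD.IV
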