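import Pool.Agent.Helper33.KD4.IterPf
import Pool.Agent.Helper33.KD4.St.Wrap

/-! KD project (MP_019250_an), Part IV: the final theorem (kinetic Krylov–Safonov estimate for
kernels of bounded variation in scale). -/

namespace KD.IV

open MeasureTheory Set Filter Topology

variable {d : ℕ}

theorem toE_apply (x : Vd d) : toE d x = WithLp.toLp 2 x := rfl

theorem toE_measurePreserving : MeasurePreserving (toE d : Vd d → Ed d) :=
  PiLp.volume_preserving_toLp (Fin d)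

theorem toE_measurableEmbedding : MeasurableEmbedding (toE d : Vd d → Ed d) :=
  (toE d).toHomeomorph.measurableEmbedding

/-- transport of the truncated integral -/
theorem setIntegral_toE (F : Ed d → ℝ) (V : Ed d) (ε : ℝ) :
    ∫ v' in {v' : Ed d | ε ≤ ‖v' - V‖}, F v' = ∫ w in {w : Vd d | ε ≤ ‖toE d w‖}, F (V + toE d w) := by
  have h1 : ∫ v' in {v' : Ed d | ε ≤ ‖v' - V‖}, F v' =
      ∫ w in {w : Ed d | ε ≤ ‖w‖}, F (V + w) := by
    have hmp := (measurePreserving_add_left (volume : Measure (Ed d)) V)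
    have := hmp.setIntegral_preimage_emb (measurableEmbedding_addLeft V) F
      {v' : Ed d | ε ≤ ‖v' - V‖}
    rw [← this]
    congr 2
    ext w
    simp
  rw [h1]
  have := toE_measurePreserving.setIntegral_preimage_emb (toE_measurableEmbedding (d := d))
    (fun w => F (V + w)) {w : Ed d | ε ≤ ‖w‖}
  rw [← this]
  rfl

theorem Reg_neg {f ft : ℝ → Vd d → Vd d → ℝ} {fx fv : ℝ → Vd d → Vd d → (Vd d →L[ℝ] ℝ)}
    {fvv : ℝ → Vd d → Vd d → (Vd d →L[ℝ] Vd d →L[ℝ] ℝ)} {D : Set (ℝ × Vd d × Vd d)}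
    (hR : Reg f ft fx fv fvv D) :
    Reg (fun t x v => -f t x v) (fun t x v => -ft t x v) (fun t x v => -fx t x v)
      (fun t x v => -fv t x v) (fun t x v => -fvv t x v) D where
  opn := hR.opn
  cf := hR.cf.neg
  dt := fun p hp => (hR.dt p hp).neg
  dx := fun p hp => (hR.dx p hp).neg
  dv := fun p hp => (hR.dv p hp).neg
  dvv := fun p hp => (hR.dvv p hp).neg
  ct := hR.ct.neg
  cx := hR.cx.neg
  cv := hR.cv.neg
  cvv := by
    have h : ContinuousOn (fun p : ℝ × Vd d × Vd d => (-1 : ℝ) • fvv p.1 p.2.1 p.2.2) D :=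
      hR.cvv.const_smul (-1 : ℝ)
    refine h.congr fun p _ => ?_
    refine ContinuousLinearMap.ext fun u => ContinuousLinearMap.ext fun w => ?_
    change -(fvv p.1 p.2.1 p.2.2 u w) = (-1 : ℝ) * (fvv p.1 p.2.1 p.2.2 u w)
    ring

theorem LL_neg (s : ℝ) (a0 : Vd d → ℝ) (g : Vd d → ℝ) (v : Vd d) :
    LL s a0 (fun v => -g v) v = -LL s a0 g v := by
  have h := LL_affine s a0 (-1) 0 g v
  simpa using h

theorem norm_le_toE (x : Vd d) : ‖x‖ ≤ ‖toE d x‖ := by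
  rw [pi_norm_le_iff_of_nonneg (norm_nonneg _)]
  intro i
  have := PiLp.norm_apply_le (toE d x) i
  exact this

theorem toE_le (hd : 1 ≤ d) (x : Vd d) : ‖toE d x‖ ≤ d * ‖x‖ := by
  have hd' : (1 : ℝ) ≤ d := by exact_mod_cast hd
  rw [EuclideanSpace.norm_eq]
  have h1 : ∑ i, ‖(toE d x) i‖ ^ 2 ≤ ∑ _i : Fin d, ‖x‖ ^ 2 := by
    refine Finset.sum_le_sum fun i _ => ?_
    have : ‖(toE d x) i‖ ≤ ‖x‖ := norm_le_pi_norm x i
    gcongr
  have h2 : ∑ _i : Fin d, ‖x‖ ^ 2 = d * ‖x‖ ^ 2 := by simp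
  rw [h2] at h1
  calc √(∑ i, ‖(toE d x) i‖ ^ 2) ≤ √((d * ‖x‖) ^ 2) := by
        refine Real.sqrt_le_sqrt (h1.trans ?_)
        rw [mul_pow]
        have h5 : (d : ℝ) ≤ d ^ 2 := by nlinarith
        exact mul_le_mul_of_nonneg_right h5 (sq_nonneg ‖x‖)
    _ = d * ‖x‖ := Real.sqrt_sq (by positivity)

/-- The Euclidean solution gives a sup norm solution. -/
theorem sol_of_pv (hd : 1 ≤ d) {s lam Lam M0 : ℝ} (hs : 0 < s) (hs1 : s < 1) (hlam : 0 < lam)
    {K : ℝ → Ed d → Ed d → Ed d → ℝ} {f h : ℝ → Ed d → Ed d → ℝ} {A B : ℝ}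
    (hK : KernE s lam Lam M0 K)
    (hfm : ∀ t x, 0 < t → t < 1 → ‖x‖ < 1 → Measurable (f t x))
    (hfb : ∀ t x v, 0 < t → t < 1 → ‖x‖ < 1 → |f t x v| ≤ A)
    (hh : ∀ p ∈ DE d, |h p.1 p.2.1 p.2.2| ≤ B)
    {ft : ℝ → Ed d → Ed d → ℝ} {fx fv : ℝ → Ed d → Ed d → (Ed d →L[ℝ] ℝ)}
    {fvv : ℝ → Ed d → Ed d → (Ed d →L[ℝ] Ed d →L[ℝ] ℝ)} (hR : RegE f ft fx fv fvv)
    (heq : ∀ p ∈ DE d, Tendsto (fun ε : ℝ => ∫ v' in {v' : Ed d | ε ≤ ‖v' - p.2.2‖},
      (f p.1 p.2.1 v' - f p.1 p.2.1 p.2.2) * K p.1 p.2.1 p.2.2 v') (𝓝[>] 0)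
      (𝓝 (ft p.1 p.2.1 p.2.2 + fx p.1 p.2.1 p.2.2 p.2.2 - h p.1 p.2.1 p.2.2))) :
    Sol s B (aV s lam K) (fV f) (DV d) ∧ (∀ t x v, |fV f t x v| ≤ A) := by
  have hA0 : 0 ≤ A := (abs_nonneg _).trans (hfb (1 / 2) 0 0 (by norm_num) (by norm_num) (by simp))
  have hm : ∀ t x, Measurable (fV f t x) := by
    intro t x
    unfold fV
    by_cases hc : 0 < t ∧ t < 1 ∧ ‖toE d x‖ < 1
    · simp only [hc, and_self, if_true]
      exact (hfm t _ hc.1 hc.2.1 hc.2.2).comp (toE d).continuous.measurable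
    · simp only [if_neg hc]
      exact measurable_const
  have hb : ∀ t x v, |fV f t x v| ≤ A := by
    intro t x v
    unfold fV
    split_ifs with hc
    · exact hfb t _ _ hc.1 hc.2.1 hc.2.2
    · simpa using hA0
  obtain ⟨ft', fx', fv', fvv', hR', hder⟩ := REGV hR
  -- the operator
  have hLop : ∀ p ∈ DV d, Lop s (aV s lam K) (fV f) p.1 p.2.1 p.2.2 =
      ft' p.1 p.2.1 p.2.2 + fx' p.1 p.2.1 p.2.2 p.2.2 -
        h p.1 (toE d p.2.1) (toE d p.2.2) := by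
    rintro ⟨t, x, v⟩ hp
    simp only at hp ⊢
    have hpE : (t, toE d x, toE d v) ∈ DE d := hp
    have hdir := hder _ hp
    simp only at hdir
    obtain ⟨ht0, ht1, hx1, hv1⟩ := id hpE
    simp only at ht0 ht1 hx1 hv1
    have hfe : ∀ u, fV f t x u = f t (toE d x) (toE d u) := by
      intro u
      unfold fV
      rw [if_pos ⟨ht0, ht1, hx1⟩]
    -- second difference bound
    have hloc : ∃ δ > 0, ∃ M ≥ 0, ∀ w : Vd d, ‖w‖ < δ → |sd (fV f t x) v w| ≤ M * ‖w‖ ^ 2 := by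
      refine sd_local (g' := fun u => fv' t x u) (g'' := fvv' t x v) ?_ (hR'.dvv (t, x, v) hp)
      have hop : IsOpen {u : Vd d | (t, x, u) ∈ DV d} :=
        hR'.opn.preimage (by fun_prop : Continuous fun u : Vd d => (t, x, u))
      filter_upwards [hop.mem_nhds hp] with u hu
      exact hR'.dv (t, x, u) hu
    obtain ⟨C, hC⟩ := sd_global (hb t x) hloc
    set k : Vd d → ℝ := fun w => K t (toE d x) (toE d v) (toE d v + toE d w) with hk
    have hkm : Measurable k := by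
      have h1 := hK.meas _ hpE
      simp only at h1
      refine h1.comp ?_
      exact (continuous_const.add (toE d).continuous).measurable
    have hke : ∀ w, k (-w) = k w := by
      intro w
      have h1 := hK.symm _ hpE (toE d w)
      simp only at h1
      simp only [hk, map_neg, ← sub_eq_add_neg]
      exact h1
    have hpos : ∀ w : Vd d, w ≠ 0 → 0 < ‖toE d w‖ := by
      intro w hw
      rw [norm_pos_iff]
      simpa using hw
    have hkb : ∀ w, w ≠ 0 → |k w| ≤ Lam * kr s w := by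
      intro w hw
      have hne : toE d v + toE d w ≠ toE d v := by
        intro h
        have : toE d w = 0 := by simpa using h
        exact hw (by simpa using this)
      have h1 := hK.lo _ hpE _ hne
      have h2 := hK.hi _ hpE _ hne
      simp only [add_sub_cancel_left] at h1 h2
      have hwp : 0 < ‖w‖ := norm_pos_iff.2 hw
      have hE := hpos w hw
      have hp1 : 0 < ‖toE d w‖ ^ ((d : ℝ) + 2 * s) := by positivity
      have hp2 : 0 < ‖w‖ ^ ((d : ℝ) + 2 * s) := by positivity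
      have hk0 : 0 < k w := by
        by_contra hcon
        push Not at hcon
        have : ‖toE d w‖ ^ ((d : ℝ) + 2 * s) * k w ≤ 0 :=
          mul_nonpos_of_nonneg_of_nonpos hp1.le hcon
        simp only [hk] at this
        linarith
      rw [abs_of_pos hk0, kr, Real.rpow_neg (norm_nonneg _), ← div_eq_mul_inv, le_div_iff₀ hp2]
      calc k w * ‖w‖ ^ ((d : ℝ) + 2 * s) ≤ k w * ‖toE d w‖ ^ ((d : ℝ) + 2 * s) := by
            gcongr
            exact norm_le_toE w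
        _ = ‖toE d w‖ ^ ((d : ℝ) + 2 * s) * k w := by ring
        _ ≤ Lam := h2
    have hPV := PV hd hs hs1 (hm t x) (hb t x) hC hkm hke hkb (N := fun w => ‖toE d w‖)
      (by
        exact (continuous_norm.comp (toE d).continuous).measurable) (fun w => by simp) hpos
      (c := d) (by
        have : (1 : ℝ) ≤ d := by exact_mod_cast hd
        linarith) (toE_le hd)
    have h2 := heq _ hpE
    simp only at h2
    have h3 : (fun ε : ℝ => ∫ v' in {v' : Ed d | ε ≤ ‖v' - toE d v‖},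
        (f t (toE d x) v' - f t (toE d x) (toE d v)) * K t (toE d x) (toE d v) v') =
        fun ε : ℝ => ∫ w in {w : Vd d | ε ≤ ‖toE d w‖}, (fV f t x (v + w) - fV f t x v) * k w := by
      funext ε
      rw [setIntegral_toE (fun v' => (f t (toE d x) v' - f t (toE d x) (toE d v)) *
        K t (toE d x) (toE d v) v') (toE d v) ε]
      refine integral_congr_ae (Eventually.of_forall fun w => ?_)
      simp only [hfe, hk, map_add]
    rw [h3] at h2
    have h4 := tendsto_nhds_unique h2 hPV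
    rw [hdir.1, hdir.2, h4, Lop_eq, LL_eq]
    congr 1
    refine integral_congr_ae ?_
    have hnull : ∀ᵐ w : Vd d, w ≠ 0 := by
      have : Nonempty (Fin d) := ⟨⟨0, hd⟩⟩
      exact (measure_eq_zero_iff_ae_notMem.1 (measure_singleton (0 : Vd d)))
    filter_upwards [hnull] with w hw
    have hwp : 0 < ‖w‖ := norm_pos_iff.2 hw
    have hp2 : 0 < ‖w‖ ^ ((d : ℝ) + 2 * s) := by positivity
    have ha : aV s lam K t x v w = ‖w‖ ^ ((d : ℝ) + 2 * s) * k w := by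
      unfold aV
      rw [if_pos ⟨hp, hw⟩]
    rw [ha, kr, Real.rpow_neg (norm_nonneg _)]
    field_simp
  refine ⟨⟨⟨hm, ⟨A, hb⟩, ft', fx', fv', fvv', hR', ?_⟩, ⟨fun t x => (hm t x).neg, ⟨A, fun t x v => by
    rw [abs_neg]; exact hb t x v⟩, _, _, _, _, Reg_neg hR', ?_⟩⟩, hb⟩
  · intro p hp
    rw [hLop p hp]
    have := (abs_le.1 (hh _ hp)).1
    simp only at this
    linarith
  · intro p hp
    have h1 : Lop s (aV s lam K) (fun t x v => -fV f t x v) p.1 p.2.1 p.2.2 =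
        -Lop s (aV s lam K) (fV f) p.1 p.2.1 p.2.2 := by
      rw [Lop_eq, Lop_eq]
      exact LL_neg _ _ _ _
    rw [h1, hLop p hp]
    have h2 := (abs_le.1 (hh _ hp)).2
    simp only at h2
    have h3 : (-fx' p.1 p.2.1 p.2.2) p.2.2 = -(fx' p.1 p.2.1 p.2.2 p.2.2) := rfl
    rw [h3]
    linarith

/-- **Kinetic Krylov–Safonov estimate for kernels of bounded variation in scale.** -/
theorem kinetic_hoelder (d : ℕ) (hd : 1 ≤ d) (s lam Lam M0 : ℝ) (hs : 0 < s) (hs1 : s < 1)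
    (hlam : 0 < lam) (hLam : lam ≤ Lam) (hM0 : 0 ≤ M0) :
    ∃ α C : ℝ, 0 < α ∧ 0 < C ∧ ∀ (K : ℝ → Ed d → Ed d → Ed d → ℝ) (f h : ℝ → Ed d → Ed d → ℝ)
      (A B : ℝ), KernE s lam Lam M0 K →
      (∀ t x, 0 < t → t < 1 → ‖x‖ < 1 → Measurable (f t x)) →
      (∀ t x v, 0 < t → t < 1 → ‖x‖ < 1 → |f t x v| ≤ A) →
      (∀ p ∈ DE d, |h p.1 p.2.1 p.2.2| ≤ B) →
      (∃ ft fx fv fvv, RegE f ft fx fv fvv ∧ ∀ p ∈ DE d,
        Tendsto (fun ε : ℝ => ∫ v' in {v' : Ed d | ε ≤ ‖v' - p.2.2‖},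
          (f p.1 p.2.1 v' - f p.1 p.2.1 p.2.2) * K p.1 p.2.1 p.2.2 v') (𝓝[>] 0)
          (𝓝 (ft p.1 p.2.1 p.2.2 + fx p.1 p.2.1 p.2.2 p.2.2 - h p.1 p.2.1 p.2.2))) →
      ∀ z ∈ QE d, ∀ z' ∈ QE d,
        |f z.1 z.2.1 z.2.2 - f z'.1 z'.2.1 z'.2.2| ≤ C * (A + B) * dl s z z' ^ α := by
  obtain ⟨lam', M0', hlam', hll, hM0', hKV⟩ := KERNV hd hs hlam hLam hM0
  obtain ⟨α, C, hα, hC, hIT⟩ := ITER d hd s lam' Lam M0' hs hs1 hlam' (hll.trans hLam) hM0'
  obtain ⟨rr, hrr, hrr1, hgeo⟩ := GEO hd hs hs1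
  obtain ⟨C', hC', hmet⟩ := METRIC hd hs hs1 hα hrr hrr1 hC
  refine ⟨α, C', hα, hC', ?_⟩
  intro K f h A B hK hfm hfb hh ⟨ft, fx, fv, fvv, hR, heq⟩
  have hB0 : 0 ≤ B := (abs_nonneg _).trans (hh (1 / 2, 0, 0)
    ⟨by norm_num, by norm_num, by simp, by simp⟩)
  obtain ⟨hSol, hb⟩ := sol_of_pv hd hs hs1 hlam hK hfm hfb hh hR heq
  refine hmet f A B hB0 hfb ?_
  intro t0 x0 v0 hz ρ hρ hρ1 t x v h1 h2 h3 h4
  exact hIT _ _ _ A B hB0 (hKV K hK) hSol hb rr t0 x0 v0 hrr hrr1 (hgeo t0 x0 v0 hz) ρ hρ hρ1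
    t x v h1 h2 h3 h4

end KD.IV
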