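import Pool.Agent.Helper33.KD4.OscPf

/-! KD project (MP_019250_an), Part IV: iteration of the oscillation lemma. -/

namespace KD.IV

open MeasureTheory Set Filter Topology KD.III

variable {d : ℕ}

theorem Sol.trf {s η r t0 : ℝ} {x0 v0 : Vd d} {a : ℝ → Vd d → Vd d → Vd d → ℝ}
    {f : ℝ → Vd d → Vd d → ℝ} {D : Set (ℝ × Vd d × Vd d)} (hr : 0 < r) (hS : Sol s η a f D) :
    Sol s (r ^ (2 * s) * η) (tra s r t0 x0 v0 a) (KD.trf s r t0 x0 v0 f) (trD s r t0 x0 v0 D) :=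
  ⟨Super.trf hr hS.1, Super.trf hr hS.2⟩

theorem Sol.smul {s η c : ℝ} {a : ℝ → Vd d → Vd d → Vd d → ℝ}
    {f : ℝ → Vd d → Vd d → ℝ} {D : Set (ℝ × Vd d × Vd d)} (hc : 0 < c) (hS : Sol s η a f D) :
    Sol s (c * η) a (fun t x v => c * f t x v) D := by
  refine ⟨Super.smul hc hS.1, ?_⟩
  have h := Super.smul hc hS.2
  simpa only [mul_neg] using h

theorem Sol.sub_const {s η : ℝ} (c : ℝ) {a : ℝ → Vd d → Vd d → Vd d → ℝ}
    {f : ℝ → Vd d → Vd d → ℝ} {D : Set (ℝ × Vd d × Vd d)} (hS : Sol s η a f D) :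
    Sol s η a (fun t x v => f t x v - c) D := by
  constructor
  · have h := Super.add_const (c := -c) hS.1
    simpa only [← sub_eq_add_neg] using h
  · have h := Super.add_const (c := c) hS.2
    have e : (fun (t : ℝ) (x v : Vd d) => -(f t x v - c)) = fun t x v => -f t x v + c := by
      funext t x v; ring
    rw [e]
    exact h

theorem Sol.mono {s η η' : ℝ} {a : ℝ → Vd d → Vd d → Vd d → ℝ}
    {f : ℝ → Vd d → Vd d → ℝ} {D : Set (ℝ × Vd d × Vd d)} (hη : η ≤ η') (hS : Sol s η a f D) :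
    Sol s η' a f D := by
  have hopn : IsOpen D := by
    obtain ⟨_, _, _, _, hR, _⟩ := hS.1.sup
    exact hR.opn
  exact ⟨Super.mono hη hopn subset_rfl hS.1, Super.mono hη hopn subset_rfl hS.2⟩

/-- The iteration, normalised: `|F| ≤ 1`, source `≤ η3`. -/
theorem iter_core (d : ℕ) {s lam Lam M0 : ℝ} (hs : 0 < s)
    {r θ γ η3 ω : ℝ} (hr : 0 < r) (hr1 : r ≤ 1 / 2) (hθ1 : 0 ≤ θ) (hγ : 0 < γ)
    (hη3 : 0 < η3) (hω0 : 0 < ω) (hω1 : ω ≤ 1) (hωθ : 1 - θ / 2 ≤ ω) (hωγ : r ^ γ ≤ ω)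
    (hωs : r ^ (2 * s) ≤ ω)
    (hOSC : ∀ (a : ℝ → Vd d → Vd d → Vd d → ℝ) (f : ℝ → Vd d → Vd d → ℝ)
      (D : Set (ℝ × Vd d × Vd d)),
      Kern lam Lam M0 a → Sol s η3 a f D → Q1 d ⊆ D →
      (∀ t x v, -1 ≤ t → t ≤ 0 → ‖x‖ ≤ 1 → ‖v‖ ≤ 1 → |f t x v| ≤ 1) →
      (∀ t x v, -1 ≤ t → t ≤ 0 → ‖x‖ ≤ 1 → 1 ≤ ‖v‖ → |f t x v| ≤ 2 * (‖v‖ / r) ^ γ - 1) →
      (∀ t x v, -r ^ (2 * s) ≤ t → t ≤ 0 → ‖x‖ ≤ r ^ (1 + 2 * s) → ‖v‖ ≤ r → f t x v ≤ 1 - θ) ∨
      (∀ t x v, -r ^ (2 * s) ≤ t → t ≤ 0 → ‖x‖ ≤ r ^ (1 + 2 * s) → ‖v‖ ≤ r →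
        -1 + θ ≤ f t x v))
    {a : ℝ → Vd d → Vd d → Vd d → ℝ} {F : ℝ → Vd d → Vd d → ℝ} {D : Set (ℝ × Vd d × Vd d)}
    (hK : Kern lam Lam M0 a) (hSol : Sol s η3 a F D) (hD : Q1 d ⊆ D)
    (hF : ∀ t x v, |F t x v| ≤ 1) (k : ℕ) :
    ∃ m : ℕ → ℝ, m 0 = -1 ∧
      (∀ i < k, m i ≤ m (i + 1) ∧ m (i + 1) + 2 * ω ^ (i + 1) ≤ m i + 2 * ω ^ i) ∧
      ∀ i ≤ k, ∀ t x v, -(r ^ i) ^ (2 * s) ≤ t → t ≤ 0 → ‖x‖ ≤ (r ^ i) ^ (1 + 2 * s) →
        ‖v‖ ≤ r ^ i → m i ≤ F t x v ∧ F t x v ≤ m i + 2 * ω ^ i := by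
  induction k with
  | zero =>
    refine ⟨fun _ => -1, rfl, fun i hi => absurd hi (Nat.not_lt_zero i), fun i hi t x v _ _ _ _ => ?_⟩
    obtain rfl : i = 0 := Nat.le_zero.1 hi
    have := abs_le.1 (hF t x v)
    constructor
    · exact this.1
    · simp only [pow_zero, mul_one]; linarith [this.2]
  | succ k ih =>
    obtain ⟨m, hm0, hm1, hm2⟩ := ih
    -- monotonicity along the history
    have hmono : ∀ j ≤ k, ∀ i ≤ j, m i ≤ m j ∧ m j + 2 * ω ^ j ≤ m i + 2 * ω ^ i := by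
      intro j hj
      induction j with
      | zero =>
        intro i hi
        obtain rfl : i = 0 := Nat.le_zero.1 hi
        exact ⟨le_rfl, le_rfl⟩
      | succ j ihj =>
        intro i hi
        rcases Nat.lt_or_eq_of_le hi with h | h
        · have h2 := ihj (by omega) i (by omega)
          have h3 := hm1 j (by omega)
          exact ⟨h2.1.trans h3.1, h3.2.trans h2.2⟩
        · rw [h]; exact ⟨le_rfl, le_rfl⟩
    have hρ0 : 0 < r ^ k := by positivity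
    have hρ1 : r ^ k ≤ 1 := pow_le_one₀ hr.le (by linarith)
    have hωk : 0 < ω ^ k := by positivity
    have hr1' : r ≤ 1 := by linarith
    -- scaled function
    set c : ℝ := m k + ω ^ k with hc
    set G : ℝ → Vd d → Vd d → ℝ := fun t x v =>
      (ω ^ k)⁻¹ * (KD.trf s (r ^ k) 0 0 0 F t x v - c) with hG
    have hGs : Sol s η3 (tra s (r ^ k) 0 0 0 a) G (trD s (r ^ k) 0 0 0 D) := by
      have h1 := Sol.smul (c := (ω ^ k)⁻¹) (by positivity)
        (Sol.sub_const c (Sol.trf (r := r ^ k) (t0 := 0) (x0 := 0) (v0 := 0) hρ0 hSol))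
      refine Sol.mono ?_ h1
      have h2 : (r ^ k) ^ (2 * s) ≤ ω ^ k := by
        calc (r ^ k) ^ (2 * s) = (r ^ (2 * s)) ^ k := by
              rw [← Real.rpow_natCast, ← Real.rpow_mul hr.le, mul_comm, Real.rpow_mul hr.le,
                Real.rpow_natCast]
          _ ≤ ω ^ k := by gcongr
      rw [inv_mul_le_iff₀ hωk]
      exact mul_le_mul_of_nonneg_right h2 hη3.le
    have hQ : Q1 d ⊆ trD s (r ^ k) 0 0 0 D := by
      rintro ⟨t, x, v⟩ ⟨h1, h2, h3, h4⟩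
      simp only at h1 h2 h3 h4
      refine hD ?_
      have ha : (r ^ k) ^ (2 * s) ≤ 1 := Real.rpow_le_one hρ0.le hρ1 (by positivity)
      have ha0 : 0 < (r ^ k) ^ (2 * s) := by positivity
      have hb : (r ^ k) ^ (1 + 2 * s) ≤ 1 := Real.rpow_le_one hρ0.le hρ1 (by positivity)
      have hb0 : 0 < (r ^ k) ^ (1 + 2 * s) := by positivity
      simp only [tt, tx, tv, zero_add, smul_zero, add_zero, Q1, Set.mem_setOf_eq]
      refine ⟨by nlinarith only [ha, hr, hr1, h1, ha0], by nlinarith only [hr, hr1, h2, ha0], ?_, ?_⟩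
      · rw [norm_smul, Real.norm_eq_abs, abs_of_pos hb0]
        nlinarith only [hb, hr, hr1, h3, hb0, norm_nonneg x]
      · rw [norm_smul, Real.norm_eq_abs, abs_of_pos hρ0]
        nlinarith only [hρ1, hr, hr1, hρ0, h4, norm_nonneg v]
    have htrf : ∀ t x v, KD.trf s (r ^ k) 0 0 0 F t x v =
        F ((r ^ k) ^ (2 * s) * t) ((r ^ k) ^ (1 + 2 * s) • x) (r ^ k • v) := by
      intro t x v
      simp [KD.trf, tt, tx, tv]
    -- general bound: if the image point lies in the cylinder `i ≤ k`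
    have hbd : ∀ i ≤ k, ∀ t x v, -(r ^ i) ^ (2 * s) ≤ (r ^ k) ^ (2 * s) * t → t ≤ 0 →
        ‖(r ^ k) ^ (1 + 2 * s) • x‖ ≤ (r ^ i) ^ (1 + 2 * s) → ‖r ^ k • v‖ ≤ r ^ i →
        |G t x v| ≤ 2 * (ω ^ k)⁻¹ * ω ^ i - 1 := by
      intro i hi t x v h1 h2 h3 h4
      have h5 := hm2 i hi _ _ _ h1 (mul_nonpos_of_nonneg_of_nonpos (by positivity) h2) h3 h4
      have h6 := hmono k le_rfl i hi
      simp only [hG]
      rw [htrf, abs_mul, abs_of_pos (inv_pos.2 hωk), inv_mul_le_iff₀ hωk]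
      have h7 : ω ^ k * (2 * (ω ^ k)⁻¹ * ω ^ i - 1) = 2 * ω ^ i - ω ^ k := by
        field_simp
      rw [h7, abs_le]
      constructor <;> linarith [h5.1, h5.2, h6.1, h6.2]
    have hx : ∀ t x v, -1 ≤ t → t ≤ 0 → ‖x‖ ≤ 1 → ∀ i ≤ k, ‖r ^ k • v‖ ≤ r ^ i →
        |G t x v| ≤ 2 * (ω ^ k)⁻¹ * ω ^ i - 1 := by
      intro t x v h1 h2 h3 i hi h4
      have hki : r ^ k ≤ r ^ i := pow_le_pow_of_le_one hr.le hr1' hi
      refine hbd i hi t x v ?_ h2 ?_ h4
      · have ha : (r ^ k) ^ (2 * s) ≤ (r ^ i) ^ (2 * s) :=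
          Real.rpow_le_rpow hρ0.le hki (by positivity)
        have ha0 : 0 < (r ^ k) ^ (2 * s) := by positivity
        nlinarith only [ha, hr, hr1, h1, ha0]
      · have hb : (r ^ k) ^ (1 + 2 * s) ≤ (r ^ i) ^ (1 + 2 * s) :=
          Real.rpow_le_rpow hρ0.le hki (by positivity)
        have hb0 : 0 < (r ^ k) ^ (1 + 2 * s) := by positivity
        rw [norm_smul, Real.norm_eq_abs, abs_of_pos hb0]
        nlinarith only [hb, hr, hr1, h3, hb0, norm_nonneg x]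
    have hG1 : ∀ t x v, -1 ≤ t → t ≤ 0 → ‖x‖ ≤ 1 → ‖v‖ ≤ 1 → |G t x v| ≤ 1 := by
      intro t x v h1 h2 h3 h4
      have := hx t x v h1 h2 h3 k le_rfl (by
        rw [norm_smul, Real.norm_eq_abs, abs_of_pos hρ0]
        nlinarith only [hr, hr1, hρ0, h4])
      rw [mul_assoc, inv_mul_cancel₀ hωk.ne'] at this
      linarith
    have hG2 : ∀ t x v, -1 ≤ t → t ≤ 0 → ‖x‖ ≤ 1 → 1 ≤ ‖v‖ →
        |G t x v| ≤ 2 * (‖v‖ / r) ^ γ - 1 := by
      intro t x v h1 h2 h3 h4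
      -- choose j minimal with ‖v‖ ≤ r^{-j}
      have hvr : 1 ≤ ‖v‖ / r := by
        rw [le_div_iff₀ hr]; linarith
      by_cases hbig : ‖v‖ * r ^ k ≤ 1
      · -- exists i ≤ k, ‖v‖ r^k ≤ r^i maximal
        have hex : ∃ j, ‖v‖ * r ^ j ≤ 1 := ⟨k, hbig⟩
        classical
        set j := Nat.find hex with hj
        have hj1 : ‖v‖ * r ^ j ≤ 1 := Nat.find_spec hex
        have hjk : j ≤ k := Nat.find_min' hex hbig
        have h5 := hx t x v h1 h2 h3 (k - j) (Nat.sub_le _ _) (by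
          rw [norm_smul, Real.norm_eq_abs, abs_of_pos hρ0]
          have e : r ^ k = r ^ j * r ^ (k - j) := by rw [← pow_add]; congr 1; omega
          rw [e]
          have : 0 < r ^ (k - j) := by positivity
          nlinarith only [hr, hr1, hj1, this])
        refine h5.trans ?_
        have h6 : (ω ^ k)⁻¹ * ω ^ (k - j) = (ω ^ j)⁻¹ := by
          have e : ω ^ k = ω ^ j * ω ^ (k - j) := by rw [← pow_add]; congr 1; omega
          rw [e, mul_inv, mul_assoc, inv_mul_cancel₀ (by positivity), mul_one]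
        have h7 : (ω ^ j)⁻¹ ≤ (‖v‖ / r) ^ γ := by
          rcases Nat.eq_zero_or_pos j with h0 | hpos
          · rw [h0, pow_zero, inv_one]
            exact Real.one_le_rpow hvr hγ.le
          · have h8 : ¬ ‖v‖ * r ^ (j - 1) ≤ 1 := Nat.find_min hex (by omega)
            push Not at h8
            have h9 : (r ^ j)⁻¹ ≤ ‖v‖ / r := by
              rw [le_div_iff₀ hr, inv_mul_le_iff₀ (by positivity)]
              have e : r ^ j = r ^ (j - 1) * r := by rw [← pow_succ]; congr 1; omega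
              rw [e]
              nlinarith only [hr, h8]
            calc (ω ^ j)⁻¹ ≤ ((r ^ γ) ^ j)⁻¹ := by gcongr
              _ = ((r ^ j)⁻¹) ^ γ := by
                rw [Real.inv_rpow (by positivity)]
                congr 1
                rw [← Real.rpow_natCast, ← Real.rpow_natCast, ← Real.rpow_mul hr.le,
                  ← Real.rpow_mul hr.le, mul_comm]
              _ ≤ _ := Real.rpow_le_rpow (by positivity) h9 hγ.le
        have h10 : 2 * (ω ^ k)⁻¹ * ω ^ (k - j) = 2 * (ω ^ j)⁻¹ := by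
          rw [mul_assoc, h6]
        rw [h10]
        linarith
      · -- use the global bound
        push Not at hbig
        have h5 : |G t x v| ≤ 2 * (ω ^ k)⁻¹ - 1 := by
          simp only [hG]
          rw [htrf, abs_mul, abs_of_pos (inv_pos.2 hωk), inv_mul_le_iff₀ hωk]
          have h6 := hmono k le_rfl 0 (Nat.zero_le k)
          rw [hm0, pow_zero] at h6
          have h7 : ω ^ k * (2 * (ω ^ k)⁻¹ - 1) = 2 - ω ^ k := by
            field_simp
          have h8 := abs_le.1 (hF ((r ^ k) ^ (2 * s) * t) ((r ^ k) ^ (1 + 2 * s) • x) (r ^ k • v))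
          rw [h7, abs_le]
          constructor <;> linarith [h8.1, h8.2, h6.1, h6.2]
        refine h5.trans ?_
        have h9 : (r ^ k)⁻¹ ≤ ‖v‖ / r := by
          rw [le_div_iff₀ hr, inv_mul_le_iff₀ (by positivity)]
          linarith only [hr, hr1, hbig]
        have h10 : (ω ^ k)⁻¹ ≤ (‖v‖ / r) ^ γ := by
          calc (ω ^ k)⁻¹ ≤ ((r ^ γ) ^ k)⁻¹ := by gcongr
            _ = ((r ^ k)⁻¹) ^ γ := by
                rw [Real.inv_rpow (by positivity)]
                congr 1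
                rw [← Real.rpow_natCast, ← Real.rpow_natCast, ← Real.rpow_mul hr.le,
                  ← Real.rpow_mul hr.le, mul_comm]
            _ ≤ _ := Real.rpow_le_rpow (by positivity) h9 hγ.le
        linarith
    -- apply the oscillation lemma
    have hosc := hOSC _ G _ (Kern.tra (s := s) (t0 := 0) (x0 := 0) (v0 := 0) hρ0 hρ1 hK) hGs hQ
      hG1 hG2
    -- transfer to the cylinder k+1
    have hback : ∀ t x v, -(r ^ (k + 1)) ^ (2 * s) ≤ t → t ≤ 0 →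
        ‖x‖ ≤ (r ^ (k + 1)) ^ (1 + 2 * s) → ‖v‖ ≤ r ^ (k + 1) →
        ∃ t' x' v', -r ^ (2 * s) ≤ t' ∧ t' ≤ 0 ∧ ‖x'‖ ≤ r ^ (1 + 2 * s) ∧ ‖v'‖ ≤ r ∧
          G t' x' v' = (ω ^ k)⁻¹ * (F t x v - c) := by
      intro t x v h1 h2 h3 h4
      have ha0 : 0 < (r ^ k) ^ (2 * s) := by positivity
      have hb0 : 0 < (r ^ k) ^ (1 + 2 * s) := by positivity
      have e1 : (r ^ (k + 1)) ^ (2 * s) = (r ^ k) ^ (2 * s) * r ^ (2 * s) := by
        rw [pow_succ, Real.mul_rpow hρ0.le hr.le]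
      have e2 : (r ^ (k + 1)) ^ (1 + 2 * s) = (r ^ k) ^ (1 + 2 * s) * r ^ (1 + 2 * s) := by
        rw [pow_succ, Real.mul_rpow hρ0.le hr.le]
      refine ⟨((r ^ k) ^ (2 * s))⁻¹ * t, ((r ^ k) ^ (1 + 2 * s))⁻¹ • x, (r ^ k)⁻¹ • v, ?_, ?_, ?_,
        ?_, ?_⟩
      · rw [inv_mul_eq_div, le_div_iff₀ ha0]; linarith [e1]
      · rw [inv_mul_eq_div]
        exact div_nonpos_of_nonpos_of_nonneg h2 ha0.le
      · rw [norm_smul, norm_inv, Real.norm_eq_abs, abs_of_pos hb0, inv_mul_le_iff₀ hb0]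
        linarith [e2]
      · rw [norm_smul, norm_inv, Real.norm_eq_abs, abs_of_pos hρ0, inv_mul_le_iff₀ hρ0]
        rwa [pow_succ] at h4
      · simp only [hG]
        rw [htrf, mul_inv_cancel_left₀ ha0.ne', smul_inv_smul₀ hb0.ne', smul_inv_smul₀ hρ0.ne']
    have hkk : ∀ t x v, -(r ^ (k + 1)) ^ (2 * s) ≤ t → t ≤ 0 →
        ‖x‖ ≤ (r ^ (k + 1)) ^ (1 + 2 * s) → ‖v‖ ≤ r ^ (k + 1) →
        m k ≤ F t x v ∧ F t x v ≤ m k + 2 * ω ^ k := by
      intro t x v h1 h2 h3 h4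
      have hki : r ^ (k + 1) ≤ r ^ k := pow_le_pow_of_le_one hr.le hr1' (Nat.le_succ k)
      refine hm2 k le_rfl t x v ?_ h2 (h3.trans ?_) (h4.trans hki)
      · have : (r ^ (k + 1)) ^ (2 * s) ≤ (r ^ k) ^ (2 * s) :=
          Real.rpow_le_rpow (by positivity) hki (by positivity)
        linarith
      · exact Real.rpow_le_rpow (by positivity) hki (by positivity)
    have hωs : ω ^ (k + 1) = ω * ω ^ k := by rw [pow_succ]; ring
    have hωstep : (2 - θ) * ω ^ k ≤ 2 * ω ^ (k + 1) := by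
      rw [hωs]; nlinarith only [hr, hr1, hωθ, hωk]
    have hωdec : ω ^ (k + 1) ≤ ω ^ k := by rw [hωs]; nlinarith only [hr, hr1, hω1, hωk]
    -- extend the sequence
    have hext : ∀ mnew : ℝ, m k ≤ mnew → mnew + 2 * ω ^ (k + 1) ≤ m k + 2 * ω ^ k →
        (∀ t x v, -(r ^ (k + 1)) ^ (2 * s) ≤ t → t ≤ 0 → ‖x‖ ≤ (r ^ (k + 1)) ^ (1 + 2 * s) →
          ‖v‖ ≤ r ^ (k + 1) → mnew ≤ F t x v ∧ F t x v ≤ mnew + 2 * ω ^ (k + 1)) →
        ∃ m : ℕ → ℝ, m 0 = -1 ∧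
      (∀ i < k + 1, m i ≤ m (i + 1) ∧ m (i + 1) + 2 * ω ^ (i + 1) ≤ m i + 2 * ω ^ i) ∧
      ∀ i ≤ k + 1, ∀ t x v, -(r ^ i) ^ (2 * s) ≤ t → t ≤ 0 → ‖x‖ ≤ (r ^ i) ^ (1 + 2 * s) →
        ‖v‖ ≤ r ^ i → m i ≤ F t x v ∧ F t x v ≤ m i + 2 * ω ^ i := by
      intro mnew h1 h2 h3
      refine ⟨fun i => if i ≤ k then m i else mnew, by simp [hm0], ?_, ?_⟩
      · intro i hi
        simp only [show i ≤ k by omega, if_true]
        rcases Nat.lt_or_eq_of_le (show i ≤ k by omega) with h | h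
        · simp only [show i + 1 ≤ k by omega, if_true]
          exact hm1 i h
        · rw [h]
          simp only [show ¬ (k + 1 ≤ k) by omega, if_false]
          exact ⟨h1, h2⟩
      · intro i hi
        rcases Nat.lt_or_eq_of_le hi with h | h
        · simp only [show i ≤ k by omega, if_true]
          exact hm2 i (by omega)
        · rw [h]
          simp only [show ¬ (k + 1 ≤ k) by omega, if_false]
          exact h3
    rcases hosc with hA | hB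
    · refine hext (m k) le_rfl (by linarith) (fun t x v h1 h2 h3 h4 => ⟨(hkk t x v h1 h2 h3 h4).1, ?_⟩)
      obtain ⟨t', x', v', g1, g2, g3, g4, g5⟩ := hback t x v h1 h2 h3 h4
      have h5 := hA t' x' v' g1 g2 g3 g4
      rw [g5, inv_mul_le_iff₀ hωk] at h5
      linarith only [hωstep, h5]
    · refine hext (m k + 2 * ω ^ k - 2 * ω ^ (k + 1)) (by linarith) (by linarith)
        (fun t x v h1 h2 h3 h4 => ⟨?_, by linarith [(hkk t x v h1 h2 h3 h4).2]⟩)
      obtain ⟨t', x', v', g1, g2, g3, g4, g5⟩ := hback t x v h1 h2 h3 h4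
      have h5 := hB t' x' v' g1 g2 g3 g4
      rw [g5, inv_mul_eq_div, le_div_iff₀ hωk] at h5
      linarith only [hωstep, h5]

/-- **IV.7e ITER**: Hölder decay at a point. -/
theorem ITER (d : ℕ) (hd : 1 ≤ d) (s lam Lam M0 : ℝ) (hs : 0 < s) (hs1 : s < 1)
    (hlam : 0 < lam) (hLam : lam ≤ Lam) (hM0 : 0 ≤ M0) :
    ∃ α C : ℝ, 0 < α ∧ 0 < C ∧ ∀ (a : ℝ → Vd d → Vd d → Vd d → ℝ) (f : ℝ → Vd d → Vd d → ℝ)
      (D : Set (ℝ × Vd d × Vd d)) (A B : ℝ), 0 ≤ B →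
      Kern lam Lam M0 a → Sol s B a f D → (∀ t x v, |f t x v| ≤ A) →
      ∀ (rr : ℝ) (t0 : ℝ) (x0 v0 : Vd d), 0 < rr → rr ≤ 1 → Q1 d ⊆ trD s rr t0 x0 v0 D →
      ∀ (ρ : ℝ), 0 < ρ → ρ ≤ 1 → ∀ (t : ℝ) (x v : Vd d), -ρ ^ (2 * s) ≤ t → t ≤ 0 →
        ‖x‖ ≤ ρ ^ (1 + 2 * s) → ‖v‖ ≤ ρ →
        |KD.trf s rr t0 x0 v0 f t x v - f t0 x0 v0| ≤ C * (A + B) * ρ ^ α := by
  obtain ⟨r, θ, γ, η3, hr, hr12, hθ, hθ1, hγ, hη3, hOSC⟩ :=
    OSC d hd s lam Lam M0 hs hs1 hlam hLam hM0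
  have hr1 : r < 1 := by linarith
  set ω : ℝ := max (1 - θ / 2) (max (r ^ γ) (r ^ (2 * s))) with hω
  have hω0 : 0 < ω := lt_of_lt_of_le (by positivity : 0 < r ^ γ)
    ((le_max_left _ _).trans (le_max_right _ _))
  have hω1 : ω < 1 := by
    refine max_lt (by linarith) (max_lt ?_ ?_)
    · exact Real.rpow_lt_one hr.le hr1 hγ
    · exact Real.rpow_lt_one hr.le hr1 (by positivity)
  set α : ℝ := Real.log ω / Real.log r with hα
  have hlogr : Real.log r < 0 := Real.log_neg hr hr1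
  have hlogω : Real.log ω < 0 := Real.log_neg hω0 hω1
  have hα0 : 0 < α := div_pos_of_neg_of_neg hlogω hlogr
  have hrα : r ^ α = ω := by
    rw [Real.rpow_def_of_pos hr, hα, mul_div_cancel₀ _ hlogr.ne, Real.exp_log hω0]
  have hCp : 0 < 1 + 1 / η3 := by positivity
  refine ⟨α, 2 / ω * (1 + 1 / η3), hα0, by positivity, ?_⟩
  intro a f D A B hB hK hSol hA rr t0 x0 v0 hrr hrr1 hQ ρ hρ hρ1 t x v h1 h2 h3 h4
  have hA0 : 0 ≤ A := (abs_nonneg _).trans (hA 0 0 0)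
  have hzero : KD.trf s rr t0 x0 v0 f 0 0 0 = f t0 x0 v0 := by
    simp [KD.trf, tt, tx, tv]
  set N : ℝ := A + B / η3 with hN
  have hN0 : 0 ≤ N := by positivity
  have hNC : N ≤ (1 + 1 / η3) * (A + B) := by
    have h5 : 0 ≤ 1 / η3 * A := by positivity
    have h6 : B / η3 = 1 / η3 * B := by ring
    rw [hN, h6]
    linarith only [hB, h5]
  rcases hN0.lt_or_eq with hNp | hNe
  · set F : ℝ → Vd d → Vd d → ℝ := fun t x v => N⁻¹ * KD.trf s rr t0 x0 v0 f t x v with hF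
    have hSolF : Sol s η3 (tra s rr t0 x0 v0 a) F (trD s rr t0 x0 v0 D) := by
      refine Sol.mono ?_ (Sol.smul (c := N⁻¹) (by positivity) (Sol.trf hrr hSol))
      rw [inv_mul_le_iff₀ hNp]
      have h5 : rr ^ (2 * s) ≤ 1 := Real.rpow_le_one hrr.le hrr1 (by positivity)
      calc rr ^ (2 * s) * B ≤ 1 * B := by gcongr
        _ = B / η3 * η3 := by field_simp
        _ ≤ N * η3 := by gcongr; linarith
    have hFb : ∀ t x v, |F t x v| ≤ 1 := by
      intro t x v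
      simp only [hF]
      rw [abs_mul, abs_of_pos (inv_pos.2 hNp), inv_mul_le_iff₀ hNp, mul_one]
      refine (hA _ _ _).trans ?_
      have : 0 ≤ B / η3 := by positivity
      linarith only [this]
    obtain ⟨k, hk1, hk2⟩ := exists_nat_pow_near_of_lt_one hρ hρ1 hr hr1
    obtain ⟨m, -, -, hm⟩ := iter_core d hs hr hr12 hθ.le hγ hη3 hω0 hω1.le (le_max_left _ _)
      ((le_max_left _ _).trans (le_max_right _ _)) ((le_max_right _ _).trans (le_max_right _ _))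
      hOSC (Kern.tra (s := s) (t0 := t0) (x0 := x0) (v0 := v0) hrr hrr1 hK) hSolF hQ hFb k
    have hrk : 0 < r ^ k := by positivity
    have p1 := hm k le_rfl t x v (by
      have : ρ ^ (2 * s) ≤ (r ^ k) ^ (2 * s) := Real.rpow_le_rpow hρ.le hk2 (by positivity)
      linarith) h2 (h3.trans (Real.rpow_le_rpow hρ.le hk2 (by positivity))) (h4.trans hk2)
    have p2 := hm k le_rfl 0 0 0 (by
      have : 0 < (r ^ k) ^ (2 * s) := by positivity
      linarith only [this]) le_rfl (by rw [norm_zero]; positivity) (by rw [norm_zero]; positivity)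
    have hdiff : |F t x v - F 0 0 0| ≤ 2 * ω ^ k := by
      rw [abs_le]; constructor <;> linarith only [p1, p2, p1.1, p1.2, p2.1, p2.2]
    have hωρ : ω ^ (k + 1) ≤ ρ ^ α := by
      calc ω ^ (k + 1) = (r ^ (k + 1)) ^ α := by
            rw [← hrα, ← Real.rpow_natCast, ← Real.rpow_natCast, ← Real.rpow_mul hr.le,
              ← Real.rpow_mul hr.le, mul_comm]
        _ ≤ ρ ^ α := Real.rpow_le_rpow (by positivity) hk1.le hα0.le
    have hωk : 2 * ω ^ k ≤ 2 / ω * ρ ^ α := by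
      calc 2 * ω ^ k = 2 / ω * ω ^ (k + 1) := by rw [pow_succ]; field_simp
        _ ≤ _ := by gcongr
    have hval : KD.trf s rr t0 x0 v0 f t x v - f t0 x0 v0 = N * (F t x v - F 0 0 0) := by
      simp only [hF]
      rw [hzero]
      field_simp
    rw [hval, abs_mul, abs_of_pos hNp]
    calc N * |F t x v - F 0 0 0| ≤ (1 + 1 / η3) * (A + B) * (2 / ω * ρ ^ α) := by
          refine mul_le_mul hNC (hdiff.trans hωk) (abs_nonneg _) (by positivity)
      _ = _ := by ring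
  · have hA' : A = 0 := by
      have : 0 ≤ B / η3 := by positivity
      linarith only [hA0, hNe, this]
    have hf0 : ∀ t x v, f t x v = 0 := by
      intro t x v
      have := hA t x v
      rw [hA'] at this
      exact abs_eq_zero.1 (le_antisymm this (abs_nonneg _))
    have : KD.trf s rr t0 x0 v0 f t x v - f t0 x0 v0 = 0 := by
      simp only [KD.trf, hf0, sub_self]
    rw [this, abs_zero]
    positivity

end KD.IV
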