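import Pool.Agent.Helper33.KD4.St.Osc

/-! KD project (MP_019250_an), Part IV: proof of the oscillation lemma from POS, tail_small, HALF,
WH. -/

namespace KD.IV

open MeasureTheory Set Filter Topology KD.III

variable {d : ℕ}

theorem trf_eq (s r t0 : ℝ) (f : ℝ → Vd d → Vd d → ℝ) (t : ℝ) (x v : Vd d) :
    trf s r t0 0 0 f t x v = f (t0 + r ^ (2 * s) * t) (r ^ (1 + 2 * s) • x) (r • v) := by
  simp [trf, tt, tx, tv]

theorem half_pow_lt {s : ℝ} (hs : 0 < s) : 0 < (1 / 2 : ℝ) ^ (2 * s) ∧ (1 / 2 : ℝ) ^ (2 * s) < 1 :=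
  ⟨by positivity, Real.rpow_lt_one (by norm_num) (by norm_num) (by positivity)⟩

/-- one-sided oscillation lemma, at the scale of the grid -/
theorem OSC1 (hd : 1 ≤ d) {s lam Lam M0 : ℝ} (hs : 0 < s) (hs1 : s < 1) (hlam : 0 < lam)
    {nB L : ℕ} {θ0 η2 r1 : ℝ} (hr11 : r1 ≤ 1) (hr10 : 0 < r1)
    (hWH : ∀ (a : ℝ → Vd d → Vd d → Vd d → ℝ) (f : ℝ → Vd d → Vd d → ℝ)
      (D : Set (ℝ × Vd d × Vd d)),
      Kern lam Lam M0 a → Super s η2 a f D → Q1 d ⊆ D → (∀ t x v, 0 ≤ f t x v) →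
      ∀ K, L ≤ K → ((Box s K : Set (Cell d)).ncard : ℝ) / 2 ≤
        (({c : Cell d | ∀ p ∈ RC (-1 / 2) (((1 / 2 : ℝ) ^ nB) ^ (2 * s) / tau s K)
          ((1 / 2 : ℝ) ^ nB * (1 / 2) ^ K) c, 3 / 4 ≤ f p.1 p.2.1 p.2.2} ∩ Box s K).ncard : ℝ) →
      ∀ t x v, -r1 ^ (2 * s) ≤ t → t ≤ 0 → ‖x‖ ≤ r1 ^ (1 + 2 * s) → ‖v‖ ≤ r1 → θ0 ≤ f t x v)
    {r γ : ℝ} (hr : 0 < r) (hr1 : r ≤ 1) (hγ : 0 < γ)
    (hint : IntegrableOn (fun w : Vd d => (2 * ((‖w‖ + 1) / r) ^ γ - 2) * kr s w)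
      {w | 1 / 4 < ‖w‖})
    {η : ℝ} (hη : 0 ≤ η) (hε : η + Lam * ∫ w in {w : Vd d | 1 / 4 < ‖w‖},
      (2 * ((‖w‖ + 1) / r) ^ γ - 2) * kr s w ≤ η2) (hη2 : 0 ≤ η2)
    {a : ℝ → Vd d → Vd d → Vd d → ℝ} {f : ℝ → Vd d → Vd d → ℝ}
    {D : Set (ℝ × Vd d × Vd d)} (hK : Kern lam Lam M0 a) (hS : Super s η a f D) (hD : Q1 d ⊆ D)
    (hf1 : ∀ t x v, -1 ≤ t → t ≤ 0 → ‖x‖ ≤ 1 → ‖v‖ ≤ 1 → -1 ≤ f t x v)
    (hf2 : ∀ t x v, -1 ≤ t → t ≤ 0 → ‖x‖ ≤ 1 → 1 ≤ ‖v‖ →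
      -(2 * (‖v‖ / r) ^ γ - 1) ≤ f t x v)
    {τ : ℝ} (hτ : 0 < τ) (hτ1 : τ < 1 - (1 / 2 : ℝ) ^ (2 * s)) {K : ℕ} (hLK : L ≤ K)
    (hhalf : ((Box s K : Set (Cell d)).ncard : ℝ) / 2 ≤
        (({c : Cell d | ∀ p ∈ RC (-1 / 2) (((1 / 2 : ℝ) ^ nB) ^ (2 * s) / tau s K)
          ((1 / 2 : ℝ) ^ nB * (1 / 2) ^ K) c, p ∈ Q1 d ∧
            -1 / 4 ≤ trf s (1 / 2) (-τ) 0 0 f p.1 p.2.1 p.2.2} ∩ Box s K).ncard : ℝ))
    (t : ℝ) (x v : Vd d) (h1 : -r1 ^ (2 * s) ≤ t) (h2 : t ≤ 0) (h3 : ‖x‖ ≤ r1 ^ (1 + 2 * s))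
    (h4 : ‖v‖ ≤ r1) : -1 + θ0 ≤ trf s (1 / 2) (-τ) 0 0 f t x v := by
  obtain ⟨hp0, hp1⟩ := half_pow_lt hs
  have hq0 : 0 < (1 / 2 : ℝ) ^ (1 + 2 * s) := by positivity
  have hq1 : (1 / 2 : ℝ) ^ (1 + 2 * s) < 1 :=
    Real.rpow_lt_one (by norm_num) (by norm_num) (by positivity)
  obtain ⟨g, hg0, hg1, hg⟩ := POS hd hs hs1 hlam hr hr1 hγ hint hK hS hD hf1 hf2
  -- the image of Q1
  have himg : ∀ t x v, (t, x, v) ∈ Q1 d → -1 < -τ + (1 / 2 : ℝ) ^ (2 * s) * t ∧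
      -τ + (1 / 2 : ℝ) ^ (2 * s) * t < 0 ∧ ‖(1 / 2 : ℝ) ^ (1 + 2 * s) • x‖ < 1 ∧
      ‖(1 / 2 : ℝ) • v‖ < 3 / 4 := by
    rintro t x v ⟨h1, h2, h3, h4⟩
    simp only at h1 h2 h3 h4
    refine ⟨by nlinarith, by nlinarith, ?_, ?_⟩
    · rw [norm_smul, Real.norm_eq_abs, abs_of_pos hq0]
      nlinarith [norm_nonneg x]
    · rw [norm_smul, Real.norm_eq_abs, abs_of_pos (by norm_num)]
      linarith
  have hgf : ∀ t x v, (t, x, v) ∈ Q1 d →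
      trf s (1 / 2) (-τ) 0 0 g t x v = trf s (1 / 2) (-τ) 0 0 f t x v + 1 := by
    intro t x v h
    obtain ⟨h1, h2, h3, h4⟩ := himg t x v h
    rw [trf_eq, trf_eq]
    exact hg1 _ _ _ h1.le h2.le h3.le (by linarith)
  have hsup := Super.trf (r := 1 / 2) (t0 := -τ) (x0 := 0) (v0 := 0) (by norm_num) hg
  have hopn : IsOpen (trD s (1 / 2) (-τ) 0 0 {p : ℝ × Vd d × Vd d |
      -1 < p.1 ∧ p.1 < 0 ∧ ‖p.2.1‖ < 1 ∧ ‖p.2.2‖ < 3 / 4}) := by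
    obtain ⟨_, _, _, _, hR, _⟩ := hsup.sup
    exact hR.opn
  have hsup2 := Super.mono (η' := η2) (by
    calc _ ≤ (1 / 2 : ℝ) ^ (2 * s) * η2 := by gcongr
      _ ≤ 1 * η2 := by gcongr
      _ = η2 := one_mul _) hopn subset_rfl hsup
  have hQ : Q1 d ⊆ trD s (1 / 2) (-τ) 0 0 {p : ℝ × Vd d × Vd d |
      -1 < p.1 ∧ p.1 < 0 ∧ ‖p.2.1‖ < 1 ∧ ‖p.2.2‖ < 3 / 4} := by
    rintro ⟨t, x, v⟩ h
    have := himg t x v h
    simpa [trD, tt, tx, tv] using this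
  have hmain := hWH _ _ _ (Kern.tra (s := s) (r := 1 / 2) (t0 := -τ) (x0 := 0) (v0 := 0)
    (by norm_num) (by norm_num) hK) hsup2 hQ (fun t x v => hg0 _ _ _) K hLK (hhalf.trans (by
      have : ({c : Cell d | ∀ p ∈ RC (-1 / 2) (((1 / 2 : ℝ) ^ nB) ^ (2 * s) / tau s K)
          ((1 / 2 : ℝ) ^ nB * (1 / 2) ^ K) c, p ∈ Q1 d ∧
            -1 / 4 ≤ trf s (1 / 2) (-τ) 0 0 f p.1 p.2.1 p.2.2} ∩ Box s K) ⊆
          ({c : Cell d | ∀ p ∈ RC (-1 / 2) (((1 / 2 : ℝ) ^ nB) ^ (2 * s) / tau s K)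
          ((1 / 2 : ℝ) ^ nB * (1 / 2) ^ K) c,
            3 / 4 ≤ trf s (1 / 2) (-τ) 0 0 g p.1 p.2.1 p.2.2} ∩ Box s K) := by
        rintro c ⟨hc, hc2⟩
        refine ⟨fun p hp => ?_, hc2⟩
        obtain ⟨h5, h6⟩ := hc p hp
        rw [hgf p.1 p.2.1 p.2.2 h5]
        linarith
      exact_mod_cast Set.ncard_le_ncard this ((box_finite s K).subset inter_subset_right)))
    t x v h1 h2 h3 h4
  have hr1a : r1 ^ (2 * s) ≤ 1 := Real.rpow_le_one hr10.le hr11 (by positivity)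
  have hr1b : r1 ^ (1 + 2 * s) ≤ 1 := Real.rpow_le_one hr10.le hr11 (by positivity)
  rw [hgf t x v ⟨by simp only; linarith, h2, h3.trans hr1b, h4.trans hr11⟩] at hmain
  linarith

theorem Q1_compact (d : ℕ) : IsCompact (Q1 d) := by
  have : Q1 d = Icc (-1 : ℝ) 0 ×ˢ (Metric.closedBall (0 : Vd d) 1 ×ˢ Metric.closedBall 0 1) := by
    ext ⟨t, x, v⟩
    simp [Q1, and_assoc]
  rw [this]
  exact isCompact_Icc.prod ((isCompact_closedBall _ _).prod (isCompact_closedBall _ _))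

/-- **IV.7d OSC**, the oscillation lemma. -/
theorem OSC (d : ℕ) (hd : 1 ≤ d) (s lam Lam M0 : ℝ) (hs : 0 < s) (hs1 : s < 1) (hlam : 0 < lam)
    (hLam : lam ≤ Lam) (hM0 : 0 ≤ M0) :
    ∃ r θ γ η3 : ℝ, 0 < r ∧ r ≤ 1 / 2 ∧ 0 < θ ∧ θ ≤ 1 ∧ 0 < γ ∧ 0 < η3 ∧
      ∀ (a : ℝ → Vd d → Vd d → Vd d → ℝ) (f : ℝ → Vd d → Vd d → ℝ) (D : Set (ℝ × Vd d × Vd d)),
      Kern lam Lam M0 a → Sol s η3 a f D → Q1 d ⊆ D →
      (∀ t x v, -1 ≤ t → t ≤ 0 → ‖x‖ ≤ 1 → ‖v‖ ≤ 1 → |f t x v| ≤ 1) →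
      (∀ t x v, -1 ≤ t → t ≤ 0 → ‖x‖ ≤ 1 → 1 ≤ ‖v‖ → |f t x v| ≤ 2 * (‖v‖ / r) ^ γ - 1) →
      (∀ t x v, -r ^ (2 * s) ≤ t → t ≤ 0 → ‖x‖ ≤ r ^ (1 + 2 * s) → ‖v‖ ≤ r → f t x v ≤ 1 - θ) ∨
      (∀ t x v, -r ^ (2 * s) ≤ t → t ≤ 0 → ‖x‖ ≤ r ^ (1 + 2 * s) → ‖v‖ ≤ r →
        -1 + θ ≤ f t x v) := by
  have hLam0 : 0 < Lam := lt_of_lt_of_le hlam hLam
  obtain ⟨nB, L, θ0, η2, r1, hθ0, hη2, hr1, hr11, hnB, hWH⟩ :=
    WH d hd s lam Lam M0 hs hs1 hlam hLam hM0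
  set r : ℝ := r1 / 2 with hr
  have hr0 : 0 < r := by positivity
  have hr12 : r ≤ 1 / 2 := by linarith
  obtain ⟨γ, hγ, -, hint, htail⟩ := tail_small hd hs hs1 (r := r) (ε := η2 / (2 * Lam)) hr0
    (by linarith) (by positivity)
  obtain ⟨hp0, hp1⟩ := half_pow_lt hs
  have hq0 : 0 < (1 / 2 : ℝ) ^ (1 + 2 * s) := by positivity
  have hθm : 0 < min 1 (θ0 / 2) := lt_min one_pos (by positivity)
  refine ⟨r, min 1 (θ0 / 2), γ, η2 / 2, hr0, hr12, hθm, min_le_left _ _, hγ, by positivity, ?_⟩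
  intro a f D hK hSol hD hb1 hb2
  have hε : η2 / 2 + Lam * ∫ w in {w : Vd d | 1 / 4 < ‖w‖},
      (2 * ((‖w‖ + 1) / r) ^ γ - 2) * kr s w ≤ η2 := by
    have : Lam * ∫ w in {w : Vd d | 1 / 4 < ‖w‖}, (2 * ((‖w‖ + 1) / r) ^ γ - 2) * kr s w ≤
        Lam * (η2 / (2 * Lam)) := by gcongr
    have h2 : Lam * (η2 / (2 * Lam)) = η2 / 2 := by field_simp
    linarith
  -- continuity
  have hcf : ContinuousOn (fun p : ℝ × Vd d × Vd d => f p.1 p.2.1 p.2.2) (Q1 d) := by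
    obtain ⟨_, _, _, _, hR, _⟩ := hSol.1.sup
    exact hR.cf.mono hD
  have huc := (Q1_compact d).uniformContinuousOn_of_continuous hcf
  rw [Metric.uniformContinuousOn_iff] at huc
  obtain ⟨δ, hδ, huc⟩ := huc (θ0 / 2) (by positivity)
  set τ : ℝ := min (δ / 2) ((1 - (1 / 2 : ℝ) ^ (2 * s)) / 2) with hτ
  have hτ0 : 0 < τ := lt_min (by positivity) (by linarith)
  have hτδ : τ < δ := lt_of_le_of_lt (min_le_left _ _) (by linarith)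
  have hτ1 : τ < 1 - (1 / 2 : ℝ) ^ (2 * s) := lt_of_le_of_lt (min_le_right _ _) (by linarith)
  have hFc : ContinuousOn (fun p : ℝ × Vd d × Vd d =>
      trf s (1 / 2) (-τ) 0 0 f p.1 p.2.1 p.2.2) (Q1 d) := by
    have h1 : (fun p : ℝ × Vd d × Vd d => trf s (1 / 2) (-τ) 0 0 f p.1 p.2.1 p.2.2) =
        (fun p : ℝ × Vd d × Vd d => f p.1 p.2.1 p.2.2) ∘ (fun p : ℝ × Vd d × Vd d =>
          (-τ + (1 / 2 : ℝ) ^ (2 * s) * p.1, (1 / 2 : ℝ) ^ (1 + 2 * s) • p.2.1,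
            (1 / 2 : ℝ) • p.2.2)) := by
      funext p
      simp only [Function.comp_apply, trf_eq]
    rw [h1]
    refine hcf.comp (Continuous.continuousOn (by fun_prop)) ?_
    rintro ⟨t, x, v⟩ ⟨h1, h2, h3, h4⟩
    simp only at h1 h2 h3 h4
    have hq1 : (1 / 2 : ℝ) ^ (1 + 2 * s) < 1 :=
      Real.rpow_lt_one (by norm_num) (by norm_num) (by positivity)
    refine ⟨by simp only; nlinarith, by simp only; nlinarith, ?_, ?_⟩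
    · simp only
      rw [norm_smul, Real.norm_eq_abs, abs_of_pos hq0]
      nlinarith [norm_nonneg x]
    · simp only
      rw [norm_smul, Real.norm_eq_abs, abs_of_pos (by norm_num)]
      linarith
  obtain ⟨K, hLK, hhalf⟩ := HALF hs nB L hnB _ hFc
  -- pull back
  have hback : ∀ (f : ℝ → Vd d → Vd d → ℝ), (∀ p ∈ Q1 d, ∀ q ∈ Q1 d, dist p q < δ →
      dist (f p.1 p.2.1 p.2.2) (f q.1 q.2.1 q.2.2) < θ0 / 2) →
      (∀ t x v, -r1 ^ (2 * s) ≤ t → t ≤ 0 → ‖x‖ ≤ r1 ^ (1 + 2 * s) → ‖v‖ ≤ r1 →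
        -1 + θ0 ≤ trf s (1 / 2) (-τ) 0 0 f t x v) →
      ∀ t x v, -r ^ (2 * s) ≤ t → t ≤ 0 → ‖x‖ ≤ r ^ (1 + 2 * s) → ‖v‖ ≤ r →
        -1 + min 1 (θ0 / 2) ≤ f t x v := by
    intro f huc hF t x v h1 h2 h3 h4
    have e1 : r ^ (2 * s) = r1 ^ (2 * s) * (1 / 2) ^ (2 * s) := by
      rw [← Real.mul_rpow hr1.le (by norm_num)]; congr 1
      rw [hr]; ring
    have e2 : r ^ (1 + 2 * s) = r1 ^ (1 + 2 * s) * (1 / 2) ^ (1 + 2 * s) := by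
      rw [← Real.mul_rpow hr1.le (by norm_num)]; congr 1
      rw [hr]; ring
    have h5 := hF (((1 / 2 : ℝ) ^ (2 * s))⁻¹ * t) (((1 / 2 : ℝ) ^ (1 + 2 * s))⁻¹ • x)
      ((1 / 2 : ℝ)⁻¹ • v) (by
        rw [inv_mul_eq_div, le_div_iff₀ hp0]; linarith [e1])
      (by
        rw [inv_mul_eq_div]
        exact div_nonpos_of_nonpos_of_nonneg h2 hp0.le) (by
        rw [norm_smul, norm_inv, Real.norm_eq_abs, abs_of_pos hq0, inv_mul_le_iff₀ hq0]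
        linarith [e2]) (by
        rw [norm_smul, norm_inv, Real.norm_eq_abs, abs_of_pos (by norm_num : (0 : ℝ) < 1 / 2),
          inv_mul_le_iff₀ (by norm_num)]
        linarith [hr])
    rw [trf_eq, mul_inv_cancel_left₀ hp0.ne', smul_inv_smul₀ hq0.ne',
      smul_inv_smul₀ (by norm_num)] at h5
    have hra : r ^ (2 * s) ≤ (1 / 2) ^ (2 * s) := Real.rpow_le_rpow hr0.le hr12 (by positivity)
    have hrb : r ^ (1 + 2 * s) ≤ 1 := Real.rpow_le_one hr0.le (by linarith) (by positivity)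
    have h6 := huc (t, x, v) ⟨by simp only; linarith, h2, h3.trans hrb, h4.trans (by linarith)⟩
      (-τ + t, x, v) ⟨by simp only; linarith, by simp only; linarith, h3.trans hrb,
        h4.trans (by linarith)⟩ (by
        rw [Prod.dist_eq]
        simp only [dist_self]
        rw [max_eq_left dist_nonneg, Real.dist_eq]
        have : t - (-τ + t) = τ := by ring
        rw [this, abs_of_pos hτ0]
        exact hτδ)
    simp only [Real.dist_eq] at h6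
    have h7 := (abs_lt.1 h6).1
    have h8 : min 1 (θ0 / 2) ≤ θ0 / 2 := min_le_right _ _
    linarith
  rcases hhalf with hA | hB
  · right
    refine hback f huc ?_
    intro t x v h1 h2 h3 h4
    exact OSC1 hd hs hs1 hlam hr11 hr1 hWH hr0 (by linarith) hγ hint (by positivity) hε hη2.le hK
      hSol.1 hD (fun t x v h1 h2 h3 h4 => (abs_le.1 (hb1 t x v h1 h2 h3 h4)).1)
      (fun t x v h1 h2 h3 h4 => (abs_le.1 (hb2 t x v h1 h2 h3 h4)).1) hτ0 hτ1 hLK hA t x v h1 h2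
      h3 h4
  · left
    have key := hback (fun t x v => -f t x v) (fun p hp q hq hpq => by
      have := huc p hp q hq hpq
      simp only [Real.dist_eq] at this ⊢
      rw [← abs_neg]
      refine lt_of_eq_of_lt ?_ this
      congr 1
      ring) ?_
    · intro t x v h1 h2 h3 h4
      have := key t x v h1 h2 h3 h4
      linarith
    · intro t x v h1 h2 h3 h4
      refine OSC1 hd hs hs1 hlam hr11 hr1 hWH hr0 (by linarith) hγ hint (by positivity) hε hη2.le hK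
        hSol.2 hD (fun t x v h1 h2 h3 h4 => ?_) (fun t x v h1 h2 h3 h4 => ?_) hτ0 hτ1 hLK
        (hB.trans ?_) t x v h1 h2 h3 h4
      · linarith [(abs_le.1 (hb1 t x v h1 h2 h3 h4)).2]
      · linarith [(abs_le.1 (hb2 t x v h1 h2 h3 h4)).2]
      · have : ({c : Cell d | ∀ p ∈ RC (-1 / 2) (((1 / 2 : ℝ) ^ nB) ^ (2 * s) / tau s K)
          ((1 / 2 : ℝ) ^ nB * (1 / 2) ^ K) c, p ∈ Q1 d ∧
            trf s (1 / 2) (-τ) 0 0 f p.1 p.2.1 p.2.2 ≤ 1 / 4} ∩ Box s K) ⊆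
          ({c : Cell d | ∀ p ∈ RC (-1 / 2) (((1 / 2 : ℝ) ^ nB) ^ (2 * s) / tau s K)
          ((1 / 2 : ℝ) ^ nB * (1 / 2) ^ K) c, p ∈ Q1 d ∧
            -1 / 4 ≤ trf s (1 / 2) (-τ) 0 0 (fun t x v => -f t x v) p.1 p.2.1 p.2.2} ∩
              Box s K) := by
          rintro c ⟨hc, hc2⟩
          refine ⟨fun p hp => ?_, hc2⟩
          obtain ⟨h5, h6⟩ := hc p hp
          refine ⟨h5, ?_⟩
          have e : trf s (1 / 2) (-τ) 0 0 (fun t x v => -f t x v) p.1 p.2.1 p.2.2 =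
            -trf s (1 / 2) (-τ) 0 0 f p.1 p.2.1 p.2.2 := rfl
          rw [e]
          linarith
        exact_mod_cast Set.ncard_le_ncard this ((box_finite s K).subset inter_subset_right)

end KD.IV
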