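import Pool.Agent.Helper33.KD4.Survive

/-! KD project (MP_019250_an), Part IV: propagation of positivity (PROP). -/

namespace KD.IV

open MeasureTheory Set Filter Topology

variable {d : ℕ}

theorem LL_const_mul (s : ℝ) (a0 : Vd d → ℝ) (k : ℝ) (g : Vd d → ℝ) (v : Vd d) :
    LL s a0 (fun v => k * g v) v = k * LL s a0 g v := by
  have h := LL_affine s a0 k 0 g v
  simpa using h

theorem super_smul {s η c : ℝ} {a : ℝ → Vd d → Vd d → Vd d → ℝ}
    {f : ℝ → Vd d → Vd d → ℝ} {D : Set (ℝ × Vd d × Vd d)} (hc : 0 < c) (hS : Super s η a f D) :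
    Super s (c * η) a (fun t x v => c * f t x v) D := by
  obtain ⟨hm, ⟨A, hA⟩, ft, fx, fv, fvv, hR, hs⟩ := hS
  refine ⟨fun t x => (hm t x).const_mul c, ⟨c * A, fun t x v => ?_⟩,
    fun t x v => c * ft t x v, fun t x v => c • fx t x v, fun t x v => c • fv t x v,
    fun t x v => c • fvv t x v, ?_, ?_⟩
  · rw [abs_mul, abs_of_pos hc]
    exact mul_le_mul_of_nonneg_left (hA t x v) hc.le
  · exact {
      opn := hR.opn
      cf := continuousOn_const.mul hR.cf
      dt := fun p hp => (hR.dt p hp).const_mul c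
      dx := fun p hp => (hR.dx p hp).const_mul c
      dv := fun p hp => (hR.dv p hp).const_mul c
      dvv := fun p hp => (hR.dvv p hp).const_smul c
      ct := continuousOn_const.mul hR.ct
      cx := hR.cx.const_smul c
      cv := hR.cv.const_smul c
      cvv := hR.cvv.const_smul c }
  · intro p hp
    have h1 := hs p hp
    rw [Lop_eq] at h1 ⊢
    have h2 : LL s (a p.1 p.2.1 p.2.2) (fun v => c * f p.1 p.2.1 v) p.2.2 =
        c * LL s (a p.1 p.2.1 p.2.2) (f p.1 p.2.1) p.2.2 := LL_const_mul _ _ _ _ _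
    rw [h2]
    have h3 : (c • fx p.1 p.2.1 p.2.2) p.2.2 = c * fx p.1 p.2.1 p.2.2 p.2.2 := rfl
    rw [h3]
    nlinarith

theorem nq_le_of_norm (hd : 1 ≤ d) {y : Vd d} {b : ℝ} (h : ‖y‖ ≤ b / d) : nq y ≤ b ^ 2 := by
  have hd' : (1 : ℝ) ≤ d := by exact_mod_cast hd
  have h1 := nq_le y
  have h2 : ‖y‖ ^ 2 ≤ (b / d) ^ 2 := pow_le_pow_left₀ (norm_nonneg _) h 2
  calc nq y ≤ d * ‖y‖ ^ 2 := h1
    _ ≤ d * (b / d) ^ 2 := by gcongr
    _ = b ^ 2 / d := by field_simp
    _ ≤ b ^ 2 / 1 := by gcongr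
    _ = b ^ 2 := div_one _

/-- **IV.5 PROP** (propagation of positivity along a three-leg path). -/
theorem PROP_pf (d : ℕ) (hd : 1 ≤ d) (s lam Lam : ℝ) (hs : 0 < s) (hs1 : s < 1) (hlam : 0 < lam)
    (hLam : lam ≤ Lam) (r θ T0 T1 Vm : ℝ) (hr : 0 < r) (hθ : 0 < θ) (hθT : θ ≤ T0) (hT : T0 ≤ T1)
    (hVm : 0 ≤ Vm) :
    ∃ c > 0, ∃ η1 > 0, ∀ (M0 η : ℝ) (a : ℝ → Vd d → Vd d → Vd d → ℝ) (f : ℝ → Vd d → Vd d → ℝ)
      (D : Set (ℝ × Vd d × Vd d)), Kern lam Lam M0 a → Super s η a f D → η ≤ η1 →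
      (∀ t x v, 0 ≤ f t x v) → ∀ (t0 t1 : ℝ) (x0 x1 v0 u v1 : Vd d),
      T0 ≤ t1 - t0 → t1 - t0 ≤ T1 → x1 = x0 + (t1 - t0) • u → ‖u‖ ≤ Vm → ‖v0‖ ≤ Vm → ‖v1‖ ≤ Vm →
      -- source
      (∀ t x v, t0 ≤ t → t ≤ t0 + θ → ‖x - (x0 + (t - t0) • v0)‖ ≤ r → ‖v - v0‖ ≤ r →
        1 ≤ f t x v) →
      -- domain
      (∀ t x v, t0 ≤ t → t ≤ t1 → ‖x - (x0 + (t - t0) • u)‖ ≤ r → ‖v - u‖ ≤ r →
        (t, x, v) ∈ D) →
      (∀ t x v, t1 - θ ≤ t → t ≤ t1 → ‖x - (x1 + (t - t1) • v1)‖ ≤ r → ‖v - v1‖ ≤ r →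
        (t, x, v) ∈ D) →
      c ≤ f t1 x1 v1 := by
  have hd' : (1 : ℝ) ≤ d := by exact_mod_cast hd
  have hd0 : (0 : ℝ) < d := by linarith
  have hT0 : 0 < T0 := lt_of_lt_of_le hθ hθT
  have hT1 : 0 < T1 := lt_of_lt_of_le hT0 hT
  set h : ℝ := min (θ / 4) (r / (64 * d * (Vm + 1))) with hh
  have hh0 : 0 < h := lt_min (by positivity) (by positivity)
  have hhθ : h ≤ θ / 4 := min_le_left _ _
  have hhV : h * (2 * Vm) ≤ r / (32 * d) := by
    calc h * (2 * Vm) ≤ r / (64 * d * (Vm + 1)) * (2 * (Vm + 1)) := by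
          gcongr
          · exact min_le_right _ _
          · linarith
      _ = r / (32 * d) := by field_simp; ring
  have hr32 : r / (32 * d) ≤ r / 2 := by
    gcongr; linarith
  set rS : ℝ := min (r / 2) (r / 4 / (2 * T1)) with hrS
  have hrS0 : 0 < rS := lt_min (by positivity) (by positivity)
  have hrST : rS * T1 ≤ r / 4 / 2 := by
    calc rS * T1 ≤ r / 4 / (2 * T1) * T1 := by gcongr; exact min_le_right _ _
      _ = r / 4 / 2 := by field_simp
  -- stage 1
  obtain ⟨c1, hc1, η1, hη1, J1⟩ := jump (d := d) hd hs hs1 hlam hLam (R := r / 2) (r := r)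
    (r1 := r) (Tm := h) (Vm := 2 * Vm) (by positivity) hr hr hh0 (by positivity)
  obtain ⟨c2, hc2, η2, hη2, S2⟩ := survive (d := d) hd hs hs1 hlam hLam (R0 := r / 4) (r := rS)
    (Tm := T1) (by positivity) hrS0 hT1 hrST
  obtain ⟨c3, hc3, η3, hη3, J3⟩ := jump (d := d) hd hs hs1 hlam hLam (R := r / (32 * d)) (r := r)
    (r1 := rS / 2 / d) (Tm := h) (Vm := 2 * Vm) (by positivity) hr (by positivity) hh0
    (by positivity)
  set b1 : ℝ := c1 * h with hb1
  have hb10 : 0 < b1 := by positivity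
  set b2 : ℝ := c2 * b1 with hb2
  have hb20 : 0 < b2 := by positivity
  refine ⟨c3 * h * b2, by positivity, min η1 (min (b1 * η2) (b2 * η3)),
    lt_min hη1 (lt_min (by positivity) (by positivity)), ?_⟩
  intro M0 η a f D hK hSup hη hf0 t0 t1 x0 x1 v0 u v1 hTl hTu hx1 hu hv0 hv1 hsrc hD1 hD2
  have hηa : η ≤ η1 := hη.trans (min_le_left _ _)
  have hηb : η ≤ b1 * η2 := hη.trans ((min_le_right _ _).trans (min_le_left _ _))
  have hηc : η ≤ b2 * η3 := hη.trans ((min_le_right _ _).trans (min_le_right _ _))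
  have huv0 : ‖v0 - u‖ ≤ 2 * Vm := (norm_sub_le _ _).trans (by linarith)
  have huv1 : ‖u - v1‖ ≤ 2 * Vm := (norm_sub_le _ _).trans (by linarith)
  -- stage 1
  have K1 : ∀ x v, nq (x - (x0 + h • u)) ≤ (r / 4) ^ 2 → nq (v - u) ≤ (r / 2) ^ 2 →
      b1 ≤ f (t0 + h) x v := by
    intro x v hx hv
    have := J1 M0 η a f D hK hSup hηa hf0 t0 (t0 + h) x0 u v0 (by linarith) huv0
      (fun t x v h0 h1 h2 h3 => hD1 t x v h0 (by linarith) ((norm_le_of_nq (by positivity) h2).trans
        (by linarith)) (norm_le_of_nq hr.le h3))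
      (fun t x v h0 h1 h2 h3 => by
        refine hsrc t x v h0 (by linarith) ?_ h3
        have e : x - (x0 + (t - t0) • v0) = (x - (x0 + (t - t0) • u)) - (t - t0) • (v0 - u) := by
          rw [smul_sub]; abel
        rw [e]
        refine (norm_sub_le _ _).trans ?_
        have h4 := norm_le_of_nq (by positivity) h2
        have h5 : ‖(t - t0) • (v0 - u)‖ ≤ h * (2 * Vm) := by
          rw [norm_smul, Real.norm_eq_abs, abs_of_nonneg (by linarith)]
          gcongr
          linarith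
        linarith)
      (t0 + h) x v (by linarith) le_rfl (by
        rw [add_sub_cancel_left]; refine hx.trans (le_of_eq (by ring)))
      (hv.trans (le_of_eq (by ring)))
    rw [add_sub_cancel_left] at this
    exact this
  -- stage 2
  have hth : t0 + h ≤ t1 - h := by linarith
  have K2 : ∀ t x v, t0 + h ≤ t → t ≤ t1 → nq (x - (x0 + (t - t0) • u)) ≤ (r / 16) ^ 2 →
      nq (v - u) ≤ (rS / 2) ^ 2 → b2 ≤ f t x v := by
    intro t x v h0 h1 hx hv
    have hS' := super_smul (c := b1⁻¹) (by positivity) hSup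
    have hrSr : rS ≤ r / 2 := min_le_left _ _
    have hctr : ∀ t, x0 + h • u + (t - (t0 + h)) • u = x0 + (t - t0) • u := by
      intro t
      rw [add_assoc, ← add_smul]
      congr 2
      ring
    have := S2 M0 (b1⁻¹ * η) a _ D hK hS' (by
        rw [inv_mul_le_iff₀ hb10]; exact hηb) (fun t x v => mul_nonneg (by positivity) (hf0 t x v))
      (t0 + h) t1 (x0 + h • u) u (by linarith)
      (fun t x v h0 h1 h2 h3 => by
        rw [hctr] at h2
        exact hD1 t x v (by linarith) h1 ((norm_le_of_nq (by positivity) h2).trans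
          (by linarith)) ((norm_le_of_nq hrS0.le h3).trans (by linarith)))
      (fun x v h2 h3 => by
        have h4 := K1 x v h2 (h3.trans (pow_le_pow_left₀ hrS0.le hrSr 2))
        rw [← div_eq_inv_mul, one_le_div hb10]
        exact h4)
      t x v h0 h1 (by rw [hctr]; exact hx.trans (le_of_eq (by ring))) (hv.trans (le_of_eq (by ring)))
    rw [← div_eq_inv_mul, le_div_iff₀ hb10] at this
    exact this
  -- stage 3
  have hctr : ∀ t, x1 - h • v1 + (t - (t1 - h)) • v1 = x1 + (t - t1) • v1 := by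
    intro t
    have : (t - (t1 - h)) • v1 = (t - t1) • v1 + h • v1 := by
      rw [← add_smul]; congr 1; ring
    rw [this]; abel
  have hctr2 : ∀ t, x0 + (t - t0) • u = x1 + (t - t1) • u := by
    intro t
    rw [hx1, add_assoc, ← add_smul]
    congr 2
    ring
  have hS' := super_smul (c := b2⁻¹) (by positivity) hSup
  have K3 := J3 M0 (b2⁻¹ * η) a _ D hK hS' (by
      rw [inv_mul_le_iff₀ hb20]; exact hηc) (fun t x v => mul_nonneg (by positivity) (hf0 t x v))
    (t1 - h) t1 (x1 - h • v1) v1 u (by linarith) huv1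
    (fun t x v h0 h1 h2 h3 => by
      rw [hctr] at h2
      exact hD2 t x v (by linarith) h1 ((norm_le_of_nq (by positivity) h2).trans (by linarith))
        (norm_le_of_nq hr.le h3))
    (fun t x v h0 h1 h2 h3 => by
      rw [hctr] at h2
      rw [← div_eq_inv_mul, one_le_div hb20]
      refine K2 t x v (by linarith) h1 ?_ (nq_le_of_norm hd h3)
      rw [hctr2]
      refine nq_le_of_norm hd ?_
      have e : x - (x1 + (t - t1) • u) = (x - (x1 + (t - t1) • v1)) + (t - t1) • (v1 - u) := by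
        rw [smul_sub]; abel
      rw [e]
      refine (norm_add_le _ _).trans ?_
      have h4 := norm_le_of_nq (by positivity) h2
      have h5 : ‖(t - t1) • (v1 - u)‖ ≤ h * (2 * Vm) := by
        rw [norm_smul, Real.norm_eq_abs, abs_of_nonpos (by linarith), norm_sub_rev v1 u]
        gcongr
        linarith
      have h6 : r / 16 / d = r / (32 * d) + r / (32 * d) := by field_simp; norm_num
      linarith)
    t1 x1 v1 (by linarith) le_rfl (by
      rw [hctr]; simp only [sub_self, zero_smul, add_zero, nq]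
      simp only [Pi.zero_apply, ne_eq, OfNat.ofNat_ne_zero, not_false_eq_true, zero_pow,
        Finset.sum_const_zero]
      positivity)
    (by
      simp only [sub_self, nq, Pi.zero_apply, ne_eq, OfNat.ofNat_ne_zero, not_false_eq_true,
        zero_pow, Finset.sum_const_zero]
      positivity)
  rw [← div_eq_inv_mul, le_div_iff₀ hb20, sub_sub_cancel] at K3
  exact K3

end KD.IV
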