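import Pool.Agent.Helper33.KD4.Barrier

/-! KD project (MP_019250_an), Part IV: the survival lemma. -/

namespace KD.IV

open MeasureTheory Set Filter Topology

variable {d : ℕ}

theorem sv_aux1 {p : ℝ} (h1 : p ≤ 1) : p * (1 - p) ≤ 1 - p ^ 2 := by
  have : p * (1 - p) = p - p ^ 2 := by ring
  linarith

theorem sv_aux2 {r R0 R : ℝ} (hr : 0 ≤ r) (h : R0 / 2 ≤ R) : 2 * r * (R0 * 2) ≤ 8 * r * R := by
  have := mul_le_mul_of_nonneg_left h hr
  linarith

theorem sv_aux3 {q R0 R : ℝ} (h : q ≤ R0 ^ 2 / 16) (h1 : (R0 / 2) ^ 2 ≤ R ^ 2) :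
    q ≤ 1 / 4 * R ^ 2 := by
  have : (R0 / 2) ^ 2 = R0 ^ 2 / 4 := by ring
  linarith

/-- **Survival lemma.** -/
theorem survive (hd : 1 ≤ d) {s lam Lam : ℝ} (hs : 0 < s) (hs1 : s < 1) (hlam : 0 < lam)
    (hLam : lam ≤ Lam) {R0 r Tm : ℝ} (hR0 : 0 < R0) (hr : 0 < r) (hTm : 0 < Tm)
    (hrT : r * Tm ≤ R0 / 2) :
    ∃ c > 0, ∃ η1 > 0, ∀ (M0 η : ℝ) (a : ℝ → Vd d → Vd d → Vd d → ℝ) (f : ℝ → Vd d → Vd d → ℝ)
      (D : Set (ℝ × Vd d × Vd d)), Kern lam Lam M0 a → Super s η a f D → η ≤ η1 →
      (∀ t x v, 0 ≤ f t x v) → ∀ (t0 t1 : ℝ) (x0 w : Vd d), t1 - t0 ≤ Tm →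
      (∀ t x v, t0 ≤ t → t ≤ t1 → nq (x - (x0 + (t - t0) • w)) ≤ R0 ^ 2 → nq (v - w) ≤ r ^ 2 →
        (t, x, v) ∈ D) →
      (∀ x v, nq (x - x0) ≤ R0 ^ 2 → nq (v - w) ≤ r ^ 2 → 1 ≤ f t0 x v) →
      ∀ t x v, t0 ≤ t → t ≤ t1 → nq (x - (x0 + (t - t0) • w)) ≤ R0 ^ 2 / 16 →
        nq (v - w) ≤ r ^ 2 / 4 → c ≤ f t x v := by
  have hLam0 : 0 < Lam := lt_of_lt_of_le hlam hLam
  obtain ⟨C, hC, hgam⟩ := gam_lower (d := d) hd hs hs1 hlam hLam hr
  set C' : ℝ := C + 8 * r / R0 with hC'
  have hC'0 : 0 < C' := by positivity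
  set E : ℝ := Real.exp (-(C' * Tm)) with hE
  have hE0 : 0 < E := Real.exp_pos _
  set η1 : ℝ := 81 / 1024 * E / Tm with hη1
  have hη10 : 0 < η1 := by positivity
  refine ⟨81 / 512 * E, by positivity, η1, hη10, ?_⟩
  intro M0 η a f D hK hSup hη hf0 t0 t1 x0 w hT hD hsrc
  set ψ : ℝ → Vd d → Vd d → ℝ := fun t x v =>
    Real.exp (-(C' * (t - t0))) *
      PP (1 - nq (x - (x0 + (t - t0) • w)) / (R0 - r * (t - t0)) ^ 2) * gam r w v -
        2 * η1 * (t - t0) with hψ
  set U : Set (ℝ × Vd d × Vd d) := {p : ℝ × Vd d × Vd d | (t0 ≤ p.1 ∧ p.1 ≤ t1) ∧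
      nq (p.2.1 - (x0 + (p.1 - t0) • w)) ≤ (R0 - r * (p.1 - t0)) ^ 2 ∧ nq (p.2.2 - w) ≤ r ^ 2} with hU
  have hRt : ∀ t, t0 ≤ t → t ≤ t1 → R0 / 2 ≤ R0 - r * (t - t0) ∧ R0 - r * (t - t0) ≤ R0 := by
    intro t h0 h1
    have h2 : r * (t - t0) ≤ r * Tm := by gcongr; linarith
    have h3 : 0 ≤ r * (t - t0) := mul_nonneg hr.le (by linarith)
    constructor <;> linarith
  have hposs : ∀ t x v, t0 ≤ t → t ≤ t1 → 0 < ψ t x v →
      0 < PP (1 - nq (x - (x0 + (t - t0) • w)) / (R0 - r * (t - t0)) ^ 2) ∧ 0 < gam r w v ∧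
      nq (x - (x0 + (t - t0) • w)) < (R0 - r * (t - t0)) ^ 2 := by
    intro t x v h0 h1 hp
    simp only [hψ] at hp
    have hb : 0 ≤ 2 * η1 * (t - t0) := mul_nonneg (by positivity) (by linarith)
    have hPn := PP_nonneg (1 - nq (x - (x0 + (t - t0) • w)) / (R0 - r * (t - t0)) ^ 2)
    have hγn := gam_nonneg r w v
    have hPp : 0 < PP (1 - nq (x - (x0 + (t - t0) • w)) / (R0 - r * (t - t0)) ^ 2) := by
      rcases hPn.lt_or_eq with h | h
      · exact h
      · rw [← h] at hp; simp only [mul_zero, zero_mul, zero_sub] at hp; linarith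
    have hγp : 0 < gam r w v := by
      rcases hγn.lt_or_eq with h | h
      · exact h
      · rw [← h] at hp; simp only [mul_zero, zero_sub] at hp; linarith
    refine ⟨hPp, hγp, ?_⟩
    have hRp := hRt t h0 h1
    have hRpos : 0 < R0 - r * (t - t0) := by linarith [hRp.1]
    rwa [PP_pos, sub_pos, div_lt_one (by positivity)] at hPp
  have hcmp : ∀ t x v, t0 ≤ t → t ≤ t1 → ψ t x v ≤ f t x v := by
    refine touch hd hs hs1 hlam.le hK hSup hf0 ψ U (tube_compact t0 t1 R0 r r x0 w) ?_ ?_ ?_ ?_ ?_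
      (c0 := 0) le_rfl ?_
    · rintro ⟨t, x, v⟩ ⟨⟨h0, h1⟩, h2, h3⟩
      simp only at h0 h1 h2 h3
      refine hD t x v h0 h1 (h2.trans ?_) h3
      have := hRt t h0 h1
      exact pow_le_pow_left₀ (by linarith) this.2 2
    · rintro p ⟨h, -⟩
      exact h
    · have hq := nq_continuous (d := d)
      have hP := PP_continuous
      have hg := gam_continuous (d := d) r w
      simp only [hψ]
      refine ContinuousOn.sub (ContinuousOn.mul (ContinuousOn.mul ?_ ?_) ?_) ?_
      · exact Continuous.continuousOn (by fun_prop)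
      · refine hP.comp_continuousOn (ContinuousOn.sub continuousOn_const (ContinuousOn.div ?_ ?_ ?_))
        · exact Continuous.continuousOn (by fun_prop)
        · exact Continuous.continuousOn (by fun_prop)
        · rintro ⟨t, x, v⟩ ⟨⟨h0, h1⟩, -⟩
          simp only at h0 h1 ⊢
          have := hRt t h0 h1
          have h2 : 0 < R0 - r * (t - t0) := by linarith [this.1]
          positivity
      · exact Continuous.continuousOn (by fun_prop)
      · exact Continuous.continuousOn (by fun_prop)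
    · intro t x v h0 h1 hp
      obtain ⟨-, h3, h4⟩ := hposs t x v h0 h1 hp
      exact ⟨⟨h0, h1⟩, h4.le, ((gam_pos hr).1 h3).le⟩
    · intro x v
      by_cases hp : 0 < ψ t0 x v
      · have h1 : t0 ≤ t1 ∨ t1 < t0 := le_or_gt _ _
        simp only [hψ, sub_self, mul_zero, neg_zero, Real.exp_zero, one_mul, zero_smul, add_zero,
          sub_zero] at hp ⊢
        have hPn := PP_nonneg (1 - nq (x - x0) / R0 ^ 2)
        have hγn := gam_nonneg r w v
        have hPp : 0 < PP (1 - nq (x - x0) / R0 ^ 2) := by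
          rcases hPn.lt_or_eq with h | h
          · exact h
          · rw [← h] at hp; simp at hp
        have hγp : 0 < gam r w v := by
          rcases hγn.lt_or_eq with h | h
          · exact h
          · rw [← h] at hp; simp at hp
        have hx : nq (x - x0) ≤ R0 ^ 2 := by
          rw [PP_pos, sub_pos, div_lt_one (by positivity)] at hPp
          exact hPp.le
        have h2 := hsrc x v hx ((gam_pos hr).1 hγp).le
        have hg1 := gam_le_one r w v
        have hP1 : PP (1 - nq (x - x0) / R0 ^ 2) ≤ 1 := by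
          refine PP_le_one ?_
          have := nq_nonneg (x - x0)
          have : 0 ≤ nq (x - x0) / R0 ^ 2 := by positivity
          linarith
        calc PP (1 - nq (x - x0) / R0 ^ 2) * gam r w v ≤ 1 * 1 := by gcongr
          _ = 1 := one_mul 1
          _ ≤ _ := h2
      · push Not at hp
        exact hp.trans (hf0 _ _ _)
    · intro t x v h0 h1 hp
      obtain ⟨hPp, hγp, hxin⟩ := hposs t x v h0.le h1 hp
      have hvin := (gam_pos hr).1 hγp
      have hRp := hRt t h0.le h1
      have hRpos : 0 < R0 - r * (t - t0) := by linarith [hRp.1]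
      have hRd : HasDerivAt (fun t => R0 - r * (t - t0)) (-r) t := by
        have h2 := (((hasDerivAt_id t).sub_const t0).const_mul r).const_sub R0
        simpa using h2
      have hAd : HasDerivAt (fun t => Real.exp (-(C' * (t - t0))))
          (Real.exp (-(C' * (t - t0))) * (-C')) t := by
        have h2 := (((hasDerivAt_id t).sub_const t0).const_mul C').neg.exp
        simpa using h2
      have hBd : HasDerivAt (fun t => 2 * η1 * (t - t0)) (2 * η1) t := by
        have h2 := ((hasDerivAt_id t).sub_const t0).const_mul (2 * η1)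
        simpa using h2
      obtain ⟨ψt, ψx, hψt, hψx, hsum⟩ := bar_deriv hAd hBd hRd hRpos.ne' (gam r w v) t0 x x0 w v
      set A : ℝ := Real.exp (-(C' * (t - t0))) with hA
      set R : ℝ := R0 - r * (t - t0) with hR
      set y : Vd d := x - (x0 + (t - t0) • w) with hy
      have hA0 : 0 < A := Real.exp_pos _
      have hcoef : ψ t x = fun v => (A * PP (1 - nq y / R ^ 2)) * gam r w v - 2 * η1 * (t - t0) := by
        funext v; simp only [hψ, ← hA, ← hR, ← hy]
      refine ⟨ψt, ψx, ∅, hψt, hψx, ?_, MeasurableSet.empty, integrableOn_empty, ?_, ?_⟩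
      · have h2 := (gam_integrable hd hs hs1 hlam.le (hK.meas t x v) (hK.lo t x v) (hK.hi t x v)
          hr w v).const_mul (A * PP (1 - nq y / R ^ 2))
        refine h2.congr (Eventually.of_forall fun u => ?_)
        simp only
        rw [hcoef, sd_affine]
        ring
      · intro u hu
        exact absurd hu (notMem_empty u)
      · rw [hcoef, LL_affine]
        simp only [setIntegral_empty, mul_zero, add_zero]
        have hLg := (hgam (a t x v) (hK.meas t x v) (hK.lo t x v) (hK.hi t x v) w v).2 hγp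
        have hG : 0 < 1 - nq y / R ^ 2 := PP_pos.1 hPp
        have hmax : max 0 (1 - nq y / R ^ 2) = 1 - nq y / R ^ 2 := max_eq_right hG.le
        have hPPG : PP (1 - nq y / R ^ 2) = (1 - nq y / R ^ 2) ^ 2 := PP_of_nonneg hG.le
        set Y : ℝ := √(nq y) with hY
        have hY0 : 0 ≤ Y := Real.sqrt_nonneg _
        have hYsq : Y ^ 2 = nq y := Real.sq_sqrt (nq_nonneg y)
        have hYR : Y ≤ R := by
          rw [hY, ← Real.sqrt_sq hRpos.le]; exact Real.sqrt_le_sqrt hxin.le
        have hip : -ip y (v - w) ≤ Y * r := by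
          have h2 := (abs_le.1 (ip_le y (v - w))).1
          have h3 : √(nq (v - w)) ≤ r := by
            rw [← Real.sqrt_sq hr.le]; exact Real.sqrt_le_sqrt hvin.le
          have h4 : Y * √(nq (v - w)) ≤ Y * r := by gcongr
          linarith
        have hbr : -2 * ip y (v - w) / R ^ 2 + 2 * nq y * (-r) / R ^ 3 ≤
            8 * r / R0 / 2 * (1 - nq y / R ^ 2) := by
          have h2 : -2 * ip y (v - w) / R ^ 2 ≤ 2 * (Y * r) / R ^ 2 := by
            refine div_le_div_of_nonneg_right ?_ (by positivity)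
            linarith
          have h3 : 2 * (Y * r) / R ^ 2 + 2 * nq y * (-r) / R ^ 3 =
              2 * r / R * ((Y / R) * (1 - Y / R)) := by
            rw [← hYsq]; field_simp; ring
          have h4 : (Y / R) * (1 - Y / R) ≤ 1 - nq y / R ^ 2 := by
            have h5 : 0 ≤ Y / R := by positivity
            have h6 : Y / R ≤ 1 := by rwa [div_le_one hRpos]
            have h7 : nq y / R ^ 2 = (Y / R) ^ 2 := by rw [div_pow, hYsq]
            rw [h7]
            exact sv_aux1 h6
          have h8 : 2 * r / R ≤ 8 * r / R0 / 2 := by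
            rw [div_div, div_le_div_iff₀ hRpos (by positivity)]
            exact sv_aux2 hr.le hRp.1
          have h9 : 0 ≤ 2 * r / R := by positivity
          calc _ ≤ 2 * r / R * ((Y / R) * (1 - Y / R)) := by linarith only [h2, h3]
            _ ≤ 2 * r / R * (1 - nq y / R ^ 2) := by gcongr
            _ ≤ _ := by gcongr
        have hterm : A * (2 * max 0 (1 - nq y / R ^ 2) *
            (-2 * ip y (v - w) / R ^ 2 + 2 * nq y * (-r) / R ^ 3)) * gam r w v ≤
            8 * r / R0 * (A * PP (1 - nq y / R ^ 2) * gam r w v) := by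
          rw [hmax, hPPG]
          calc _ ≤ A * (2 * (1 - nq y / R ^ 2) * (8 * r / R0 / 2 * (1 - nq y / R ^ 2))) *
                gam r w v := by gcongr
            _ = _ := by ring
        have hk : 0 < A * PP (1 - nq y / R ^ 2) := by positivity
        have hLb : -(C * (A * PP (1 - nq y / R ^ 2) * gam r w v)) ≤
            A * PP (1 - nq y / R ^ 2) * LL s (a t x v) (gam r w) v := by
          have h2 : A * PP (1 - nq y / R ^ 2) * (-C * gam r w v) ≤
            A * PP (1 - nq y / R ^ 2) * LL s (a t x v) (gam r w) v := by gcongr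
          linarith
        rw [hsum]
        have hexp : A * -C' * PP (1 - nq y / R ^ 2) * gam r w v =
            -(C * (A * PP (1 - nq y / R ^ 2) * gam r w v)) -
              8 * r / R0 * (A * PP (1 - nq y / R ^ 2) * gam r w v) := by rw [hC']; ring
        linarith only [hη10, hη, hterm, hLb]
  intro t x v h0 h1 hx hv
  refine le_trans ?_ (hcmp t x v h0 h1)
  have hRp := hRt t h0 h1
  have hRpos : 0 < R0 - r * (t - t0) := by linarith [hRp.1]
  simp only [hψ]
  have hP : 9 / 16 ≤ PP (1 - nq (x - (x0 + (t - t0) • w)) / (R0 - r * (t - t0)) ^ 2) := by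
    have h2 : nq (x - (x0 + (t - t0) • w)) / (R0 - r * (t - t0)) ^ 2 ≤ 1 / 4 := by
      rw [div_le_iff₀ (by positivity)]
      have : (R0 / 2) ^ 2 ≤ (R0 - r * (t - t0)) ^ 2 :=
        pow_le_pow_left₀ (by positivity) hRp.1 2
      exact sv_aux3 hx this
    have h3 : PP (3 / 4) ≤ PP (1 - nq (x - (x0 + (t - t0) • w)) / (R0 - r * (t - t0)) ^ 2) :=
      PP_mono (by linarith)
    refine le_trans ?_ h3
    rw [PP_of_nonneg (by norm_num)]
    norm_num
  have hγ := gam_ge hr hv
  have hEt : E ≤ Real.exp (-(C' * (t - t0))) := by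
    rw [hE]
    refine Real.exp_le_exp.2 ?_
    have : C' * (t - t0) ≤ C' * Tm := by gcongr; linarith
    linarith
  have hbT : 2 * η1 * (t - t0) ≤ 81 / 512 * E := by
    calc 2 * η1 * (t - t0) ≤ 2 * η1 * Tm := by gcongr; linarith
      _ = 81 / 512 * E := by rw [hη1]; field_simp; ring
  have hmain : E * (9 / 16) * (9 / 16) ≤ Real.exp (-(C' * (t - t0))) *
      PP (1 - nq (x - (x0 + (t - t0) • w)) / (R0 - r * (t - t0)) ^ 2) * gam r w v := by gcongr
  linarith

end KD.IV
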