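import Pool.Agent.Helper33.KD4.Bump2

/-! KD project (MP_019250_an), Part IV.7b: smallness of the tail. -/

namespace KD.IV

open MeasureTheory Set Filter Topology

variable {d : ℕ}

theorem tail_small_pf (hd : 1 ≤ d) {s : ℝ} (hs : 0 < s) (hs1 : s < 1) {r ε : ℝ} (hr : 0 < r)
    (hr1 : r ≤ 1) (hε : 0 < ε) :
    ∃ γ, 0 < γ ∧ γ ≤ s ∧
      IntegrableOn (fun w : Vd d => (2 * ((‖w‖ + 1) / r) ^ γ - 2) * kr s w) {w | 1 / 4 < ‖w‖} ∧
      ∫ w in {w : Vd d | 1 / 4 < ‖w‖}, (2 * ((‖w‖ + 1) / r) ^ γ - 2) * kr s w ≤ ε := by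
  have hms : MeasurableSet {w : Vd d | 1 / 4 < ‖w‖} :=
    measurableSet_lt measurable_const measurable_norm
  have hbase : ∀ w : Vd d, 1 ≤ (‖w‖ + 1) / r := by
    intro w
    rw [le_div_iff₀ hr]
    have := norm_nonneg w
    linarith
  -- dominating function
  have hGint : IntegrableOn (fun w : Vd d => 2 * (5 / r) ^ s * kr (s / 2) w)
      {w | 1 / 4 < ‖w‖} :=
    (integrable_far hd (by positivity : 0 < s / 2) (by linarith) (by norm_num)).const_mul _
  have hmeas : ∀ γ : ℝ, Measurable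
      (fun w : Vd d => (2 * ((‖w‖ + 1) / r) ^ γ - 2) * kr s w) := by
    intro γ
    have := kr_measurable (d := d) s
    fun_prop
  have hbound : ∀ γ : ℝ, 0 ≤ γ → γ ≤ s → ∀ w : Vd d, 1 / 4 < ‖w‖ →
      ‖(2 * ((‖w‖ + 1) / r) ^ γ - 2) * kr s w‖ ≤ 2 * (5 / r) ^ s * kr (s / 2) w := by
    intro γ hγ0 hγ w hw
    have hwp : 0 < ‖w‖ := by linarith
    have h1 : 1 ≤ ((‖w‖ + 1) / r) ^ γ := Real.one_le_rpow (hbase w) hγ0
    have h2 : ((‖w‖ + 1) / r) ^ γ ≤ ((‖w‖ + 1) / r) ^ s :=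
      Real.rpow_le_rpow_of_exponent_le (hbase w) hγ
    have h3 : ((‖w‖ + 1) / r) ^ s ≤ (5 / r * ‖w‖) ^ s := by
      refine Real.rpow_le_rpow (by positivity) ?_ hs.le
      rw [div_mul_eq_mul_div]
      gcongr
      linarith
    have hk := kr_nonneg (d := d) s w
    rw [norm_mul, Real.norm_eq_abs, Real.norm_eq_abs, abs_of_nonneg hk,
      abs_of_nonneg (by linarith)]
    have h4 : kr s w * ‖w‖ ^ s = kr (s / 2) w := by
      unfold kr
      rw [← Real.rpow_add hwp]
      congr 1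
      ring
    calc (2 * ((‖w‖ + 1) / r) ^ γ - 2) * kr s w ≤ (2 * (5 / r * ‖w‖) ^ s) * kr s w := by
          gcongr
          linarith
      _ = 2 * (5 / r) ^ s * (kr s w * ‖w‖ ^ s) := by
          rw [Real.mul_rpow (by positivity) hwp.le]; ring
      _ = _ := by rw [h4]
  have hlim : Tendsto (fun n : ℕ => ∫ w in {w : Vd d | 1 / 4 < ‖w‖},
      (2 * ((‖w‖ + 1) / r) ^ (s / (n + 1 : ℝ)) - 2) * kr s w) atTop
      (𝓝 (∫ _w in {w : Vd d | 1 / 4 < ‖w‖}, (0 : ℝ))) := by
    refine tendsto_integral_of_dominated_convergence (fun w => 2 * (5 / r) ^ s * kr (s / 2) w)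
      (fun n => (hmeas _).aestronglyMeasurable) hGint (fun n => ?_) ?_
    · refine (ae_restrict_iff' hms).2 (Eventually.of_forall fun w hw => ?_)
      have hn : (0 : ℝ) < n + 1 := by positivity
      exact hbound _ (by positivity) (div_le_self hs.le (by
        have : (0 : ℝ) ≤ n := Nat.cast_nonneg n
        linarith)) w hw
    · refine Eventually.of_forall fun w => ?_
      have h1 : Tendsto (fun n : ℕ => s / (n + 1 : ℝ)) atTop (𝓝 0) := by
        have h2 := tendsto_one_div_add_atTop_nhds_zero_nat (𝕜 := ℝ)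
        have h3 := h2.const_mul s
        simpa [div_eq_mul_inv] using h3
      have h2 : Tendsto (fun n : ℕ => ((‖w‖ + 1) / r) ^ (s / (n + 1 : ℝ))) atTop
          (𝓝 (((‖w‖ + 1) / r) ^ (0 : ℝ))) := by
        have hb := hbase w
        have hc : ContinuousAt (fun y : ℝ => ((‖w‖ + 1) / r) ^ y) 0 :=
          Real.continuousAt_const_rpow (by linarith)
        exact hc.tendsto.comp h1
      rw [Real.rpow_zero] at h2
      have h3 := ((h2.const_mul 2).sub_const 2).mul_const (kr s w)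
      simpa using h3
  rw [integral_zero] at hlim
  obtain ⟨n, hn⟩ := ((tendsto_order.1 hlim).2 ε hε).exists
  have hn1 : (0 : ℝ) < n + 1 := by positivity
  have hle : s / (n + 1 : ℝ) ≤ s := div_le_self hs.le (by
    have : (0 : ℝ) ≤ n := Nat.cast_nonneg n
    linarith)
  refine ⟨s / (n + 1 : ℝ), by positivity, hle, ?_, hn.le⟩
  refine Integrable.mono' hGint (hmeas _).aestronglyMeasurable ?_
  exact (ae_restrict_iff' hms).2 (Eventually.of_forall fun w hw => hbound _ (by positivity) hle w hw)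

end KD.IV
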