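import Pool.Agent.Helper33.KD4.Wt

/-! KD project (MP_019250_an), Part IV: comparison with barriers (touching argument). -/

namespace KD.IV

open MeasureTheory Set Filter Topology

variable {d : ℕ}

theorem sd_local {g : Vd d → ℝ} {g' : Vd d → (Vd d →L[ℝ] ℝ)} {g'' : Vd d →L[ℝ] Vd d →L[ℝ] ℝ}
    {v : Vd d} (h1 : ∀ᶠ u in 𝓝 v, HasFDerivAt g (g' u) u) (h2 : HasFDerivAt g' g'' v) :
    ∃ δ > 0, ∃ M ≥ 0, ∀ w : Vd d, ‖w‖ < δ → |sd g v w| ≤ M * ‖w‖ ^ 2 := by
  have hO := h2.isBigO_sub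
  obtain ⟨M, hM⟩ := hO.bound
  obtain ⟨δ, hδ, hball⟩ := Metric.eventually_nhds_iff_ball.1 (h1.and hM)
  refine ⟨δ, hδ, 2 * |M|, by positivity, fun w hw => ?_⟩
  have key : ∀ w : Vd d, ‖w‖ < δ → |g (v + w) - g v - g' v w| ≤ |M| * ‖w‖ ^ 2 := by
    intro w hw
    have hconv : Convex ℝ (Metric.closedBall v ‖w‖) := convex_closedBall v ‖w‖
    have hsub : ∀ u ∈ Metric.closedBall v ‖w‖, u ∈ Metric.ball v δ := by
      intro u hu
      exact lt_of_le_of_lt (Metric.mem_closedBall.1 hu) hw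
    have hder : ∀ u ∈ Metric.closedBall v ‖w‖,
        HasFDerivWithinAt (fun u => g u - g' v u) (g' u - g' v) (Metric.closedBall v ‖w‖) u := by
      intro u hu
      exact ((hball u (hsub u hu)).1.sub (g' v).hasFDerivAt).hasFDerivWithinAt
    have hbd : ∀ u ∈ Metric.closedBall v ‖w‖, ‖g' u - g' v‖ ≤ |M| * ‖w‖ := by
      intro u hu
      have h3 := (hball u (hsub u hu)).2
      have h4 : ‖u - v‖ ≤ ‖w‖ := by
        rw [← dist_eq_norm]; exact Metric.mem_closedBall.1 hu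
      calc ‖g' u - g' v‖ ≤ M * ‖u - v‖ := h3
        _ ≤ |M| * ‖u - v‖ := by gcongr; exact le_abs_self M
        _ ≤ |M| * ‖w‖ := by gcongr
    have h5 := hconv.norm_image_sub_le_of_norm_hasFDerivWithin_le hder hbd
      (Metric.mem_closedBall_self (norm_nonneg w)) (y := v + w) (by simp)
    have h6 : g (v + w) - g' v (v + w) - (g v - g' v v) = g (v + w) - g v - g' v w := by
      rw [map_add]; ring
    rw [h6, Real.norm_eq_abs] at h5
    have h7 : v + w - v = w := by abel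
    rw [h7] at h5
    calc _ ≤ |M| * ‖w‖ * ‖w‖ := h5
      _ = _ := by ring
  have ha := key w hw
  have hb := key (-w) (by simpa using hw)
  rw [norm_neg, map_neg] at hb
  have : sd g v w = (g (v + w) - g v - g' v w) + (g (v + -w) - g v - -g' v w) := by
    rw [sd, ← sub_eq_add_neg]; ring
  rw [this]
  calc _ ≤ |g (v + w) - g v - g' v w| + |g (v + -w) - g v - -g' v w| := abs_add_le _ _
    _ ≤ |M| * ‖w‖ ^ 2 + |M| * ‖w‖ ^ 2 := add_le_add ha hb
    _ = _ := by ring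

theorem sd_global {g : Vd d → ℝ} {A : ℝ} (hA : ∀ v, |g v| ≤ A) {v : Vd d}
    (h : ∃ δ > 0, ∃ M ≥ 0, ∀ w : Vd d, ‖w‖ < δ → |sd g v w| ≤ M * ‖w‖ ^ 2) :
    ∃ C : ℝ, ∀ w, |sd g v w| ≤ C * min 1 (‖w‖ ^ 2) := by
  obtain ⟨δ, hδ, M, hM, h⟩ := h
  have hA0 : 0 ≤ A := (abs_nonneg _).trans (hA v)
  have h4 : ∀ w, |sd g v w| ≤ 4 * A := by
    intro w
    have h1 := abs_le.1 (hA (v + w))
    have h2 := abs_le.1 (hA (v - w))
    have h3 := abs_le.1 (hA v)
    rw [sd, abs_le]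
    constructor <;> linarith [h1.1, h1.2, h2.1, h2.2, h3.1, h3.2]
  set e : ℝ := min 1 (δ ^ 2) with he
  have hepos : 0 < e := lt_min one_pos (by positivity)
  refine ⟨max (max M (4 * A)) (4 * A / e), fun w => ?_⟩
  rcases lt_or_ge ‖w‖ δ with hw | hw
  · rcases le_total (‖w‖ ^ 2) 1 with h1 | h1
    · rw [min_eq_right h1]
      calc _ ≤ M * ‖w‖ ^ 2 := h w hw
        _ ≤ _ := by
          gcongr
          exact (le_max_left _ _).trans (le_max_left _ _)
    · rw [min_eq_left h1, mul_one]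
      exact (h4 w).trans ((le_max_right _ _).trans (le_max_left _ _))
  · have h1 : e ≤ min 1 (‖w‖ ^ 2) := by
      refine min_le_min le_rfl ?_
      gcongr
    calc |sd g v w| ≤ 4 * A := h4 w
      _ = 4 * A / e * e := by field_simp
      _ ≤ 4 * A / e * min 1 (‖w‖ ^ 2) := by gcongr
      _ ≤ _ := by
        gcongr
        · exact le_max_right _ _

theorem Super.integrable {s η lam Lam M0 : ℝ} (hd : 1 ≤ d) (hs : 0 < s) (hs1 : s < 1)
    (hlam : 0 ≤ lam)
    {a : ℝ → Vd d → Vd d → Vd d → ℝ} (hK : Kern lam Lam M0 a) {f : ℝ → Vd d → Vd d → ℝ}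
    {D : Set (ℝ × Vd d × Vd d)} (hS : Super s η a f D) {t : ℝ} {x v : Vd d}
    (hp : (t, x, v) ∈ D) : Integrable (fun w => sd (f t x) v w * a t x v w * kr s w) := by
  obtain ⟨ft, fx, fv, fvv, hR, -⟩ := hS.sup
  obtain ⟨A, hA⟩ := hS.bdd
  have hnear : ∀ᶠ u in 𝓝 v, (t, x, u) ∈ D := by
    have hc : Continuous (fun u : Vd d => ((t, x, u) : ℝ × Vd d × Vd d)) := by fun_prop
    exact hc.continuousAt.eventually_mem (hR.opn.mem_nhds hp)
  have hl := sd_local (g := f t x) (g' := fv t x) (g'' := fvv t x v) (v := v)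
    (hnear.mono fun u hu => hR.dv (t, x, u) hu) (hR.dvv (t, x, v) hp)
  obtain ⟨C, hC⟩ := sd_global (hA t x) hl
  refine integrable_sd hd hs hs1 (hK.meas t x v) (Lam := Lam) (fun w => ?_) (hS.meas t x) hC
  rw [abs_of_nonneg (hlam.trans (hK.lo t x v w))]
  exact hK.hi t x v w

/-- one-sided derivative test -/
theorem deriv_nonpos_of_left_min {G : ℝ → ℝ} {G' t0 t1 : ℝ} (h01 : t0 < t1)
    (hG : HasDerivAt G G' t1) (hmin : ∀ t, t0 ≤ t → t ≤ t1 → G t1 ≤ G t) : G' ≤ 0 := by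
  have h1 := (hG.hasDerivWithinAt (s := Iio t1))
  rw [hasDerivWithinAt_iff_tendsto_slope' (by simp)] at h1
  refine le_of_tendsto h1 ?_
  have h2 : ∀ᶠ t in 𝓝[<] t1, t ∈ Ioo t0 t1 := Ioo_mem_nhdsLT h01
  filter_upwards [h2] with t ht
  rw [slope_def_field]
  exact div_nonpos_of_nonneg_of_nonpos (by linarith [hmin t ht.1.le ht.2.le]) (by linarith [ht.2])

/-- comparison with a barrier -/
theorem touch {s η lam Lam M0 : ℝ} (hd : 1 ≤ d) (hs : 0 < s) (hs1 : s < 1) (hlam : 0 ≤ lam)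
    {a : ℝ → Vd d → Vd d → Vd d → ℝ} (hK : Kern lam Lam M0 a) {f : ℝ → Vd d → Vd d → ℝ}
    {D : Set (ℝ × Vd d × Vd d)} (hS : Super s η a f D) (hf0 : ∀ t x v, 0 ≤ f t x v)
    (ψ : ℝ → Vd d → Vd d → ℝ) (U : Set (ℝ × Vd d × Vd d)) (hU : IsCompact U) (hUD : U ⊆ D)
    {t0 t1 : ℝ} (hUt : ∀ p ∈ U, t0 ≤ p.1 ∧ p.1 ≤ t1)
    (hψc : ContinuousOn (fun p : ℝ × Vd d × Vd d => ψ p.1 p.2.1 p.2.2) U)
    (hpos : ∀ t x v, t0 ≤ t → t ≤ t1 → 0 < ψ t x v → (t, x, v) ∈ U)
    (hini : ∀ x v, ψ t0 x v ≤ f t0 x v) {c0 : ℝ} (hc0 : 0 ≤ c0)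
    (hsub : ∀ t x v, t0 < t → t ≤ t1 → 0 < ψ t x v → ∃ (ψt : ℝ) (ψx : Vd d →L[ℝ] ℝ) (A : Set (Vd d)),
      HasDerivAt (fun t => ψ t x v) ψt t ∧ HasFDerivAt (fun x => ψ t x v) ψx x ∧
      Integrable (fun w => sd (ψ t x) v w * a t x v w * kr s w) ∧
      MeasurableSet A ∧ IntegrableOn (fun w => kr s w) A ∧
      (∀ w ∈ A, ψ t x (v + w) + c0 ≤ f t x (v + w)) ∧
      ψt + ψx v < LL s (a t x v) (ψ t x) v + c0 * lam / 2 * (∫ w in A, kr s w) - η) :
    ∀ t x v, t0 ≤ t → t ≤ t1 → ψ t x v ≤ f t x v := by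
  by_contra hcon
  push Not at hcon
  obtain ⟨t', x', v', ht0', ht1', hlt'⟩ := hcon
  obtain ⟨ft, fx, fv, fvv, hR, hsup⟩ := hS.sup
  have hp' : (t', x', v') ∈ U := hpos t' x' v' ht0' ht1' (lt_of_le_of_lt (hf0 _ _ _) hlt')
  have hcont : ContinuousOn (fun p : ℝ × Vd d × Vd d => f p.1 p.2.1 p.2.2 - ψ p.1 p.2.1 p.2.2) U :=
    (hR.cf.mono hUD).sub hψc
  obtain ⟨⟨ts, xs, vs⟩, hzU, hzmin⟩ := hU.exists_isMinOn ⟨_, hp'⟩ hcont
  set m : ℝ := f ts xs vs - ψ ts xs vs with hm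
  have hmneg : m < 0 := by
    have h1 := hzmin hp'
    simp only [mem_ofPred_eq] at h1
    change f ts xs vs - ψ ts xs vs ≤ f t' x' v' - ψ t' x' v' at h1
    linarith
  have hts := hUt _ hzU
  simp only at hts
  have hglob : ∀ t x v, t0 ≤ t → t ≤ t1 → m ≤ f t x v - ψ t x v := by
    intro t x v h0 h1
    by_cases hp : 0 < ψ t x v
    · have h2 := hzmin (hpos t x v h0 h1 hp)
      exact h2
    · push Not at hp
      linarith [hf0 t x v]
  have hψpos : 0 < ψ ts xs vs := by linarith [hf0 ts xs vs]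
  have htlt : t0 < ts := by
    rcases hts.1.lt_or_eq with h | h
    · exact h
    · exfalso
      have := hini xs vs
      rw [h] at this
      linarith
  obtain ⟨ψt, ψx, A, hψt, hψx, hψi, hAm, hAi, hAf, hstrict⟩ := hsub ts xs vs htlt hts.2 hψpos
  have hzD := hUD hzU
  -- time derivative
  have hT : ft ts xs vs - ψt ≤ 0 := by
    refine deriv_nonpos_of_left_min htlt ((hR.dt (ts, xs, vs) hzD).sub hψt) ?_
    intro t h0 h1
    exact hglob t xs vs h0 (h1.trans hts.2)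
  -- space derivative
  have hX : fx ts xs vs - ψx = 0 := by
    refine IsLocalMin.hasFDerivAt_eq_zero (f := fun x => f ts x vs - ψ ts x vs) (a := xs) ?_
      ((hR.dx (ts, xs, vs) hzD).sub hψx)
    exact Eventually.of_forall fun x => hglob ts x vs hts.1 hts.2
  have hfi := Super.integrable hd hs hs1 hlam hK hS hzD
  -- the nonlocal term
  have hV : LL s (a ts xs vs) (ψ ts xs) vs + c0 * lam / 2 * (∫ w in A, kr s w) ≤
      Lop s a f ts xs vs := by
    rw [Lop_eq, LL_eq, LL_eq]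
    have hind : Integrable (A.indicator (fun w => c0 * lam * kr s w)) := by
      rw [integrable_indicator_iff hAm]
      exact hAi.const_mul _
    have h1 : ∫ w, (sd (ψ ts xs) vs w * a ts xs vs w * kr s w +
        A.indicator (fun w => c0 * lam * kr s w) w) ≤
        ∫ w, sd (f ts xs) vs w * a ts xs vs w * kr s w := by
      refine integral_mono (hψi.add hind) hfi fun w => ?_
      have hp1 := hglob ts xs (vs + w) hts.1 hts.2
      have hp2 := hglob ts xs (vs - w) hts.1 hts.2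
      have hk := kr_nonneg s w
      have ha := hlam.trans (hK.lo ts xs vs w)
      have hdiff : sd (f ts xs) vs w - sd (ψ ts xs) vs w =
          (f ts xs (vs + w) - ψ ts xs (vs + w) - m) + (f ts xs (vs - w) - ψ ts xs (vs - w) - m) := by
        simp only [sd, hm]; ring
      have hge : 0 ≤ sd (f ts xs) vs w - sd (ψ ts xs) vs w := by
        rw [hdiff]; linarith
      by_cases hw : w ∈ A
      · have h2 : c0 ≤ sd (f ts xs) vs w - sd (ψ ts xs) vs w := by
          rw [hdiff]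
          have := hAf w hw
          linarith
        simp only [indicator_of_mem hw]
        have h3 : c0 * lam * kr s w ≤
            (sd (f ts xs) vs w - sd (ψ ts xs) vs w) * a ts xs vs w * kr s w := by
          have := hK.lo ts xs vs w
          gcongr
        linarith [h3]
      · simp only [indicator_of_notMem hw, add_zero]
        have h3 : 0 ≤ (sd (f ts xs) vs w - sd (ψ ts xs) vs w) * a ts xs vs w * kr s w := by
          positivity
        linarith [h3]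
    rw [integral_add hψi hind, integral_indicator hAm, integral_const_mul] at h1
    linarith
  have hS2 := hsup (ts, xs, vs) hzD
  simp only at hS2
  have hX' : fx ts xs vs vs = ψx vs := by
    have := congrArg (fun L : Vd d →L[ℝ] ℝ => L vs) hX
    simp only [ContinuousLinearMap.sub_apply, ContinuousLinearMap.zero_apply] at this
    linarith
  rw [hX'] at hS2
  linarith

end KD.IV
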