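import Pool.Agent.Helper37.KD.Class

/-! KD project (MP_019250_an), Part IV: the weight `‖w‖^{-(d+2s)}` and second differences. -/

namespace KD.IV

open MeasureTheory Set Filter Topology

variable {d : ℕ}

/-- the weight -/
noncomputable def kr (s : ℝ) (w : Vd d) : ℝ := ‖w‖ ^ (-((d : ℝ) + 2 * s))

theorem kr_nonneg (s : ℝ) (w : Vd d) : 0 ≤ kr s w := Real.rpow_nonneg (norm_nonneg _) _

theorem kr_neg (s : ℝ) (w : Vd d) : kr s (-w) = kr s w := by simp [kr]

theorem kr_measurable (s : ℝ) : Measurable (kr s : Vd d → ℝ) := by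
  unfold kr
  fun_prop

/-- pointwise operator -/
noncomputable def LL (s : ℝ) (a0 : Vd d → ℝ) (g : Vd d → ℝ) (v : Vd d) : ℝ :=
  (1 / 2) * ∫ w : Vd d, (g (v + w) + g (v - w) - 2 * g v) * a0 w * ‖w‖ ^ (-((d : ℝ) + 2 * s))

theorem Lop_eq (s : ℝ) (a : ℝ → Vd d → Vd d → Vd d → ℝ) (f : ℝ → Vd d → Vd d → ℝ)
    (t : ℝ) (x v : Vd d) : Lop s a f t x v = LL s (a t x v) (f t x) v := rfl

/-- radial integrability -/
theorem integrable_wt (hd : 1 ≤ d) {s : ℝ} (hs : 0 < s) (hs1 : s < 1) :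
    Integrable (fun w : Vd d => min 1 (‖w‖ ^ 2) * kr s w) := by
  haveI : Nonempty (Fin d) := ⟨⟨0, hd⟩⟩
  have key := (integrable_fun_norm_addHaar (E := Vd d) (F := ℝ) (volume : Measure (Vd d))
    (f := fun y : ℝ => min 1 (y ^ 2) * y ^ (-((d : ℝ) + 2 * s))))
  refine key.2 ?_
  have hfr : Module.finrank ℝ (Vd d) = d := by simp [Vd]
  rw [hfr]
  have hdc : ((d - 1 : ℕ) : ℝ) = (d : ℝ) - 1 := by
    rw [Nat.cast_sub hd]; simp
  have hsplit : (Ioi (0 : ℝ)) = Ioc 0 1 ∪ Ioi 1 := by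
    rw [Ioc_union_Ioi_eq_Ioi zero_le_one]
  rw [hsplit]
  refine IntegrableOn.union ?_ ?_
  · have h1 : IntegrableOn (fun y : ℝ => y ^ (1 - 2 * s)) (Ioc 0 1) := by
      rw [← intervalIntegrable_iff_integrableOn_Ioc_of_le zero_le_one]
      exact intervalIntegral.intervalIntegrable_rpow' (by linarith)
    refine h1.congr_fun ?_ measurableSet_Ioc
    intro y hy
    have hy0 : 0 < y := hy.1
    have h2 : min 1 (y ^ 2) = y ^ 2 := min_eq_right (by nlinarith [hy.2])
    simp only [smul_eq_mul]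
    rw [h2, ← Real.rpow_natCast y (d - 1), ← Real.rpow_natCast y 2, ← Real.rpow_add hy0,
      ← Real.rpow_add hy0, hdc]
    congr 1
    push_cast
    ring
  · have h1 : IntegrableOn (fun y : ℝ => y ^ (-1 - 2 * s)) (Ioi 1) :=
      integrableOn_Ioi_rpow_of_lt (by linarith) zero_lt_one
    refine h1.congr_fun ?_ measurableSet_Ioi
    intro y hy
    have hy1 : (1 : ℝ) < y := hy
    have hy0 : 0 < y := by linarith
    have h2 : min 1 (y ^ 2) = 1 := min_eq_left (by nlinarith)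
    simp only [smul_eq_mul]
    rw [h2, one_mul, ← Real.rpow_natCast y (d - 1), ← Real.rpow_add hy0, hdc]
    congr 1
    ring

/-- second difference -/
def sd (g : Vd d → ℝ) (v w : Vd d) : ℝ := g (v + w) + g (v - w) - 2 * g v

theorem LL_eq (s : ℝ) (a0 : Vd d → ℝ) (g : Vd d → ℝ) (v : Vd d) :
    LL s a0 g v = (1 / 2) * ∫ w, sd g v w * a0 w * kr s w := rfl

/-- Integrability of the second difference against an elliptic kernel. -/
theorem integrable_sd (hd : 1 ≤ d) {s : ℝ} (hs : 0 < s) (hs1 : s < 1) {a0 : Vd d → ℝ} {Lam : ℝ}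
    (ha : Measurable a0) (hab : ∀ w, |a0 w| ≤ Lam) {g : Vd d → ℝ} (hg : Measurable g) {v : Vd d}
    {C : ℝ} (hC : ∀ w, |sd g v w| ≤ C * min 1 (‖w‖ ^ 2)) :
    Integrable (fun w => sd g v w * a0 w * kr s w) := by
  have hLam : 0 ≤ Lam := (abs_nonneg _).trans (hab 0)
  have h1 := (integrable_wt hd hs hs1).const_mul (C * Lam)
  refine h1.mono' ?_ (Eventually.of_forall fun w => ?_)
  · refine Measurable.aestronglyMeasurable ?_
    have : Measurable (sd g v) := by
      unfold sd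
      fun_prop
    exact (this.mul ha).mul (kr_measurable s)
  · rw [norm_mul, norm_mul, Real.norm_eq_abs, Real.norm_eq_abs, Real.norm_eq_abs,
      abs_of_nonneg (kr_nonneg s w)]
    have h2 := hC w
    have h3 := hab w
    have h4 := kr_nonneg s w
    have h5 : 0 ≤ C * min 1 (‖w‖ ^ 2) := (abs_nonneg _).trans h2
    calc |sd g v w| * |a0 w| * kr s w ≤ (C * min 1 (‖w‖ ^ 2)) * Lam * kr s w := by gcongr
      _ = C * Lam * (min 1 (‖w‖ ^ 2) * kr s w) := by ring

/-- scaling of the weight -/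
theorem kr_smul (s : ℝ) {r : ℝ} (hr : 0 < r) (w : Vd d) :
    kr s (r • w) = r ^ (-((d : ℝ) + 2 * s)) * kr s w := by
  unfold kr
  rw [norm_smul, Real.norm_eq_abs, abs_of_pos hr, Real.mul_rpow hr.le (norm_nonneg _)]

theorem LL_scale (s : ℝ) {r : ℝ} (hr : 0 < r) (a0 g : Vd d → ℝ) (v0 v : Vd d) :
    LL s (fun w => a0 (r • w)) (fun v => g (v0 + r • v)) v = r ^ (2 * s) * LL s a0 g (v0 + r • v) := by
  have hfr : Module.finrank ℝ (Vd d) = d := by simp [Vd]
  rw [LL_eq, LL_eq]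
  have h1 : (fun w : Vd d => sd (fun v => g (v0 + r • v)) v w * a0 (r • w) * kr s w) =
      fun w => r ^ ((d : ℝ) + 2 * s) *
        ((fun w' => sd g (v0 + r • v) w' * a0 w' * kr s w') (r • w)) := by
    funext w
    have e1 : v0 + r • (v + w) = v0 + r • v + r • w := by rw [smul_add]; abel
    have e2 : v0 + r • (v - w) = v0 + r • v - r • w := by rw [smul_sub]; abel
    simp only [sd, e1, e2, kr_smul s hr]
    have e3 : r ^ ((d : ℝ) + 2 * s) * r ^ (-((d : ℝ) + 2 * s)) = 1 := by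
      rw [← Real.rpow_add hr]; simp
    calc _ = (g (v0 + r • v + r • w) + g (v0 + r • v - r • w) - 2 * g (v0 + r • v)) *
          a0 (r • w) * kr s w * 1 := by ring
      _ = _ := by rw [← e3]; ring
  rw [h1, integral_const_mul, Measure.integral_comp_smul volume
    (fun w' => sd g (v0 + r • v) w' * a0 w' * kr s w') r, hfr]
  have h2 : |(r ^ d)⁻¹| = r ^ (-(d : ℝ)) := by
    rw [abs_of_pos (by positivity), Real.rpow_neg hr.le, Real.rpow_natCast]
  rw [h2, smul_eq_mul]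
  have h3 : r ^ ((d : ℝ) + 2 * s) * r ^ (-(d : ℝ)) = r ^ (2 * s) := by
    rw [← Real.rpow_add hr]; congr 1; ring
  rw [← h3]
  ring

end KD.IV
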